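import Mathlib

/-! Stepanov's method for additive character sums of rational functions in characteristic two. -/

namespace Pool.Agent.P.MP_8be758_nt.C2

open Polynomial Finset

namespace Step

variable {L : Type} [Field L]

/-- numerator of `R + R ^ 2 + ... + R ^ 2 ^ m` for `R = N / D` -/
noncomputable def tn (N D : L[X]) : ℕ → L[X]
  | 0 => N
  | m + 1 => tn N D m * D ^ 2 ^ m + N ^ 2 ^ (m + 1)

theorem tn_deg {N D : L[X]} {d : ℕ} (hN : N.natDegree ≤ d) (hD : D.natDegree ≤ d) (m : ℕ) :
    (tn N D m).natDegree ≤ 2 ^ m * d := by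
  induction m with
  | zero => simpa [tn] using hN
  | succ m ih =>
    refine (natDegree_add_le _ _).trans (max_le ?_ (natDegree_pow_le_of_le _ hN))
    refine (natDegree_mul_le_of_le ih (natDegree_pow_le_of_le _ hD)).trans_eq (by ring)

theorem tn_eval (N D : L[X]) {y : L} (h : D.eval y ≠ 0) (m : ℕ) :
    (tn N D m).eval y = D.eval y ^ 2 ^ m * ∑ a ∈ range (m + 1), (N.eval y / D.eval y) ^ 2 ^ a := by
  induction m with
  | zero => simp [tn]; field_simp
  | succ m ih =>
    rw [tn, sum_range_succ, eval_add, eval_mul, eval_pow, eval_pow, ih, div_pow, pow_succ 2 m,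
      pow_mul (D.eval y)]
    field_simp

theorem tn_zero {N D : L[X]} (h : D.eval 0 = 0) (m : ℕ) :
    (tn N D m).eval 0 = N.eval 0 ^ 2 ^ m := by
  cases m <;> simp [tn, h]

theorem kill {a U : L[X]} {l : ℕ} (hU : U.eval 0 ≠ 0) (ha : a.natDegree < l)
    (h : X ^ l ∣ a * U) : a = 0 := by
  have h1 : IsCoprime (X : L[X]) U := (irreducible_X.coprime_iff_not_dvd).2 fun h2 =>
    hU (by rwa [X_dvd_iff, coeff_zero_eq_eval_zero] at h2)
  exact eq_zero_of_dvd_of_natDegree_lt (h1.pow_left.dvd_of_dvd_mul_right h) (by simpa using ha)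

theorem indep {U V : L[X]} {l : ℕ} (hU : U.eval 0 ≠ 0) (hV : V.eval 0 ≠ 0) (J : ℕ)
    (a b : Fin J → L[X]) (ha : ∀ t, (a t).natDegree < l) (hb : ∀ t, (b t).natDegree < l)
    (h : ∑ t, (a t * U + b t * (X ^ l * V)) * X ^ (2 * l * t) = 0) : a = 0 ∧ b = 0 := by
  induction J with
  | zero => exact ⟨Subsingleton.elim _ _, Subsingleton.elim _ _⟩
  | succ J ih =>
    set R := ∑ t : Fin J, (a t.succ * U + b t.succ * (X ^ l * V)) * X ^ (2 * l * t) with hR
    have h1 : a 0 * U + X ^ l * (b 0 * V + X ^ l * R) = 0 := by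
      rw [← h, Fin.sum_univ_succ, hR, mul_add, mul_sum, mul_sum, ← add_assoc]
      congr 1
      · simp; ring
      · exact sum_congr rfl fun t _ => by rw [Fin.val_succ]; ring
    have hX : (X : L[X]) ^ l ≠ 0 := pow_ne_zero _ X_ne_zero
    have h2 : a 0 = 0 := kill hU (ha 0) ⟨-(b 0 * V + X ^ l * R), by linear_combination h1⟩
    rw [h2, zero_mul, zero_add, mul_eq_zero, or_iff_right hX] at h1
    have h3 : b 0 = 0 := kill hV (hb 0) ⟨-R, by linear_combination h1⟩
    rw [h3, zero_mul, zero_add, mul_eq_zero, or_iff_right hX] at h1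
    obtain ⟨h4, h5⟩ := ih _ _ (fun t => ha t.succ) (fun t => hb t.succ) h1
    exact ⟨funext (Fin.cases h2 (congrFun h4)), funext (Fin.cases h3 (congrFun h5))⟩

theorem core [Finite L] [CharP L 2] {N V : L[X]} {d i j : ℕ} (γ ε : L) (hN : N.natDegree ≤ d)
    (hD : (X * V).natDegree ≤ d) (hN0 : N.eval 0 ≠ 0) (hV : V.eval 0 ≠ 0) (S : Finset L)
    (hS : ∀ y ∈ S, y ^ 2 ^ (j + (i + 1)) = y + γ ∧ (X * V).eval y ≠ 0 ∧
      ∑ a ∈ range (j + (i + 1)), (N.eval y / (X * V).eval y) ^ 2 ^ a = ε) :
    S.card ≤ 2 ^ i * 2 ^ j + (d + 1) * 2 ^ i + 2 * d * 2 ^ j := by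
  classical
  have := Fintype.ofFinite L
  set D := X * V with hDV
  obtain ⟨l, hl⟩ : ∃ l, 2 ^ i = l + 1 := ⟨2 ^ i - 1, by have := Nat.one_le_two_pow (n := i); omega⟩
  set M := 2 ^ j with hM
  set J := M * (l + d) / (2 * l + 1) with hJ
  have hJ1 : J * (2 * l + 1) ≤ M * (l + d) := Nat.div_mul_le_self _ _
  have hJ2 : M * (l + d) < (2 * l + 1) * (J + 1) := Nat.lt_mul_div_succ _ (by omega)
  have hJ3 : J ≤ M * (1 + d) := Nat.div_le_of_le_mul (by nlinarith [Nat.zero_le (M * l * d)])
  set Lo := tn N D j - N ^ M - C ε * D ^ M with hLo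
  have hLo' : Lo.natDegree ≤ M * d := by
    refine (natDegree_sub_le _ _).trans (max_le ((natDegree_sub_le _ _).trans
      (max_le (tn_deg hN hD j) (natDegree_pow_le_of_le _ hN))) ?_)
    exact (natDegree_C_mul_le _ _).trans (natDegree_pow_le_of_le _ hD)
  set Co : (Fin (J + 1) → Bool → Fin (l + 1) → L) → L[X] := fun c => ∑ t,
    (ofFn _ (c t true) ^ M * (-Lo) + ofFn _ (c t false) ^ M * D ^ M) * (X + C γ) ^ (t : ℕ) with hCo
  have hf : ∀ v : Fin (l + 1) → L, (ofFn _ v).natDegree ≤ l := fun v =>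
    Nat.lt_succ_iff.1 (ofFn_natDegree_lt (by omega) v)
  have hdeg : ∀ c, (Co c).natDegree < M * (l + d) + (J + 1) := fun c => by
    refine Nat.lt_succ_of_le (natDegree_sum_le_of_forall_le _ _ fun t _ => ?_)
    refine natDegree_mul_le_of_le ((natDegree_add_le _ _).trans (max_le ?_ ?_)) ?_
    · exact (natDegree_mul_le_of_le (natDegree_pow_le_of_le _ (hf _))
        ((natDegree_neg _).trans_le hLo')).trans_eq (by ring)
    · exact (natDegree_mul_le_of_le (natDegree_pow_le_of_le _ (hf _))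
        (natDegree_pow_le_of_le _ hD)).trans_eq (by ring)
    · exact (natDegree_pow_le_of_le _ (natDegree_X_add_C γ).le).trans (by have := t.2; omega)
  obtain ⟨c1, c2, hne, heq⟩ := Fintype.exists_ne_map_eq_of_card_lt
    (fun c => toFn (M * (l + d) + (J + 1)) (Co c)) (by
      simp only [Fintype.card_fun, Fintype.card_fin, Fintype.card_bool, ← pow_mul]
      exact Nat.pow_lt_pow_right Fintype.one_lt_card (by nlinarith))
  have h0 : Co (c1 - c2) = 0 := by
    have h1 : Co c1 = Co c2 := by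
      rw [← ofFn_comp_toFn_eq_id_of_natDegree_lt (hdeg c1), heq,
        ofFn_comp_toFn_eq_id_of_natDegree_lt (hdeg c2)]
    rw [← sub_eq_zero, hCo, ← sum_sub_distrib] at h1
    rw [← h1]
    exact sum_congr rfl fun t _ => by
      simp only [Pi.sub_apply, map_sub, hM, sub_pow_char_pow]; ring
  set c := c1 - c2 with hc
  set B := ∑ t : Fin (J + 1), (ofFn _ (c t true) * tn N D i +
    ofFn _ (c t false) * (X ^ (l + 1) * V ^ (l + 1))) * X ^ (2 * (l + 1) * t) with hB
  have hB0 : B ≠ 0 := fun h => by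
    obtain ⟨h1, h2⟩ := indep (by rw [tn_zero (by simp [hDV])]; exact pow_ne_zero _ hN0)
      (by rw [eval_pow]; exact pow_ne_zero _ hV) _ _ _
      (fun t => Nat.lt_succ_of_le (hf _)) (fun t => Nat.lt_succ_of_le (hf _)) h
    refine hne (sub_eq_zero.1 (funext fun t => funext fun b => injective_ofFn _ ?_))
    cases b
    exacts [(congrFun h2 t).trans (by simp), (congrFun h1 t).trans (by simp)]
  have hBd : B.natDegree ≤ l + (l + 1) * d + 2 * (l + 1) * J := by
    refine natDegree_sum_le_of_forall_le _ _ fun t _ => ?_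
    refine natDegree_mul_le_of_le ((natDegree_add_le _ _).trans (max_le ?_ ?_)) ?_
    · exact natDegree_mul_le_of_le (hf _) (hl ▸ tn_deg hN hD i)
    · exact natDegree_mul_le_of_le (hf _) (mul_pow X V _ ▸ natDegree_pow_le_of_le _ hD)
    · exact (natDegree_X_pow_le _).trans (Nat.mul_le_mul_left _ (by have := t.2; omega))
  have hroot : S.val ⊆ B.roots := fun y hy => by
    obtain ⟨h1, h2, h3⟩ := hS y hy
    rw [mem_roots hB0, IsRoot.def]
    have h4 : (tn N D i).eval y ^ M * D.eval y ^ M = (D.eval y ^ (l + 1)) ^ M * (-Lo).eval y := by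
      rw [sum_range_add] at h3
      simp only [hLo, eval_neg, eval_sub, eval_mul, eval_pow, eval_C]
      rw [tn_eval N D h2, tn_eval N D h2, mul_pow, hM, sum_pow_char_pow, sum_range_succ _ j, hl,
        ← h3, div_pow]
      simp only [← pow_mul, pow_add 2 j, mul_comm (2 ^ j)]
      field_simp
      ring
    have h5 : B.eval y ^ M * D.eval y ^ M = (D.eval y ^ (l + 1)) ^ M * (Co c).eval y := by
      rw [hB, hCo, eval_finsetSum, eval_finsetSum, hM, sum_pow_char_pow, sum_mul, mul_sum]
      refine sum_congr rfl fun t _ => ?_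
      have h6 : (y ^ (2 * (l + 1) * t)) ^ M = (y + γ) ^ (t : ℕ) := by
        rw [← h1, ← hl, hM, ← pow_mul, ← pow_mul]; congr 1; ring
      rw [← mul_pow X V, ← hDV, eval_mul, eval_add, mul_pow, add_pow_char_pow]
      simp only [eval_mul, eval_add, eval_pow, eval_X, eval_C, mul_pow, ← hM, h6]
      linear_combination (ofFn _ (c t true)).eval y ^ M * (y + γ) ^ (t : ℕ) * h4
    rw [h0, eval_zero, mul_zero, mul_eq_zero, or_iff_left (pow_ne_zero _ h2)] at h5
    exact pow_eq_zero_iff (by positivity) |>.1 h5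
  have := (card_le_degree_of_subset_roots hroot).trans hBd
  rw [hl]
  nlinarith

theorem half (K : Type) [Field K] [Fintype K] [DecidableEq K] [Algebra (ZMod 2) K] (N D : K[X])
    (d : ℕ) (hN : N.natDegree ≤ d) (hD : D.natDegree ≤ d) (hs : D.Separable) (hn : ¬ D ∣ N)
    (ε : ZMod 2) :
    ((univ.filter fun x => D.eval x ≠ 0 ∧
      Algebra.trace (ZMod 2) K (N.eval x / D.eval x) = ε).card : ℝ) ≤
      Fintype.card K / 2 + (3 * d + 1) * √(Fintype.card K) := by
  classical
  let L := D.SplittingField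
  have : Finite L := Module.finite_of_finite K
  have : CharP K 2 := charP_of_injective_algebraMap (algebraMap (ZMod 2) K).injective 2
  have : CharP L 2 := charP_of_injective_algebraMap (algebraMap K L).injective 2
  set f := algebraMap K L with hf
  have hs' : (D.map f).Separable := hs.map
  obtain ⟨α, hα, hNα⟩ : ∃ α, (D.map f).eval α = 0 ∧ (N.map f).eval α ≠ 0 := by
    by_contra hc
    push Not at hc
    have h0 : N.map f ≠ 0 := fun h => hn (by rw [(Polynomial.map_eq_zero f).1 h]; simp)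
    refine hn ((map_dvd_map' f).1 ((SplittingField.splits D).dvd_of_roots_le_roots hs'.ne_zero ?_))
    exact (Multiset.le_iff_subset (nodup_roots hs')).2 fun x hx =>
      (mem_roots h0).2 (hc x ((mem_roots hs'.ne_zero).1 hx))
  obtain ⟨r, hr⟩ : ∃ r, Module.finrank (ZMod 2) K = r + 1 :=
    ⟨_, (Nat.succ_pred_eq_of_pos Module.finrank_pos).symm⟩
  have hQ : Fintype.card K = 2 ^ (r / 2 + (r - r / 2 + 1)) := by
    rw [Module.card_eq_pow_finrank (K := ZMod 2), hr, ZMod.card]; congr 1; omega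
  have hV : X * divX (taylor α (D.map f)) = taylor α (D.map f) := by
    simpa [hα] using X_mul_divX_add (taylor α (D.map f))
  have h1 := core (N := taylor α (N.map f)) (V := divX (taylor α (D.map f))) (d := d)
    (i := r - r / 2) (j := r / 2) (α - α ^ Fintype.card K) (f (algebraMap _ K ε))
    (by rwa [natDegree_taylor, natDegree_map]) (by rwa [hV, natDegree_taylor, natDegree_map])
    (by rwa [taylor_eval, zero_add])
    (by rw [← coeff_zero_eq_eval_zero, coeff_divX, zero_add, taylor_coeff_one]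
        simpa using hs'.aeval_derivative_ne_zero (x := α) (by simpa using hα))
    ((univ.filter fun x => D.eval x ≠ 0 ∧
      Algebra.trace (ZMod 2) K (N.eval x / D.eval x) = ε).image fun x => f x - α) (by
      intro y hy
      obtain ⟨x, hx, rfl⟩ := mem_image.1 hy
      obtain ⟨h2, h3⟩ := (mem_filter.1 hx).2
      rw [hV, taylor_eval_sub, taylor_eval_sub, eval_map_apply, eval_map_apply]
      refine ⟨?_, (map_ne_zero f).2 h2, ?_⟩
      · rw [sub_pow_char_pow, ← hQ, ← map_pow, FiniteField.pow_card]; ring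
      · rw [← h3, FiniteField.algebraMap_trace_eq_sum_pow, hr, map_sum, Nat.card_zmod,
          show r / 2 + (r - r / 2 + 1) = r + 1 by omega]
        simp only [map_pow, map_div₀])
  rw [card_image_of_injective _ fun x y h => f.injective (sub_left_injective h)] at h1
  have h2 : ∀ m, 2 * m ≤ r + 1 → (2 : ℝ) ^ m ≤ √(Fintype.card K) := fun m hm => by
    refine Real.le_sqrt_of_sq_le ?_
    rw [hQ, ← pow_mul]
    exact_mod_cast Nat.pow_le_pow_right two_pos (by omega)
  have h3 := h2 (r / 2) (by omega)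
  have h4 := h2 (r - r / 2) (by omega)
  have h5 : (Fintype.card K : ℝ) / 2 = 2 ^ (r - r / 2) * 2 ^ (r / 2) := by
    rw [hQ]; push_cast; ring
  have h6 : (0 : ℝ) ≤ d := Nat.cast_nonneg d
  refine (Nat.cast_le.2 h1).trans ?_
  push_cast
  nlinarith [mul_le_mul_of_nonneg_left h3 h6, mul_le_mul_of_nonneg_left h4 h6]

end Step

/-- square root cancellation for a rational function with a simple pole -/
theorem step (K : Type) [Field K] [Fintype K] [DecidableEq K] [Algebra (ZMod 2) K] (N D : K[X])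
    (d : ℕ) (hN : N.natDegree ≤ d) (hD : D.natDegree ≤ d) (hs : D.Separable) (hn : ¬ D ∣ N) :
    |∑ x ∈ univ.filter fun x => D.eval x ≠ 0,
      (if Algebra.trace (ZMod 2) K (N.eval x / D.eval x) = 0 then 1 else -1 : ℝ)| ≤
      (7 * d + 2) * √(Fintype.card K) := by
  have h0 := Step.half K N D d hN hD hs hn 0
  have h1 := Step.half K N D d hN hD hs hn 1
  have h2 : ∀ z : ZMod 2, ¬ z = 0 ↔ z = 1 := by decide
  have h3 := card_filter_add_card_filter_not (s := univ.filter fun x => D.eval x ≠ 0)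
    fun x => Algebra.trace (ZMod 2) K (N.eval x / D.eval x) = 0
  have h4 := card_filter_add_card_filter_not (s := (univ : Finset K)) fun x => D.eval x ≠ 0
  have h5 : (univ.filter fun x => ¬ D.eval x ≠ 0).card ≤ d :=
    (card_le_degree_of_subset_roots fun x hx =>
      (mem_roots hs.ne_zero).2 (not_not.1 (mem_filter.1 hx).2)).trans hD
  have h6 : (1 : ℝ) ≤ √(Fintype.card K) := Real.one_le_sqrt.2 (by exact_mod_cast Fintype.card_pos)
  rw [sum_ite]
  simp only [filter_filter, h2, card_univ] at h3 h4 ⊢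
  have h7 := (Nat.cast_le (α := ℝ)).2 (h4.ge.trans (add_le_add h3.ge h5))
  have h8 := mul_le_mul_of_nonneg_left h6 (Nat.cast_nonneg d)
  push_cast at h7
  simp only [sum_const, nsmul_eq_mul]
  rw [abs_le]
  constructor <;> linarith

end Pool.Agent.P.MP_8be758_nt.C2
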