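import Pool.Agent.P.MP_8be758_nt.C2.If2

/-! Step DEC2. -/

namespace Pool.Agent.P.MP_8be758_nt.C2

open Polynomial Finset Filter
open scoped Classical Topology

section
variable {k : Type} [Field k]

/-- the factor at `V1` -/
noncomputable def DEC2_a (V1 U H : k[X]) : ℝ :=
  if h : ∃ w, V1 ∣ w * U - 1 then psi (res V1 (h.choose * H)) else 0

theorem DEC2_abs (V1 U H : k[X]) : |DEC2_a V1 U H| ≤ 1 := by
  unfold DEC2_a
  split_ifs
  · exact (abs_psi _).le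
  · simp

theorem DEC2_eq {V1 U w : k[X]} (hw : V1 ∣ w * U - 1) (H : k[X]) :
    DEC2_a V1 U H = psi (res V1 (w * H)) := by
  have h : ∃ w, V1 ∣ w * U - 1 := ⟨w, hw⟩
  rw [DEC2_a, dif_pos h]
  obtain ⟨c, hc⟩ := h.choose_spec
  obtain ⟨d, hd⟩ := hw
  rw [res_congr (H' := w * H) ⟨(w * c - h.choose * d) * H, by
    linear_combination (w * H) * hc - (h.choose * H) * hd⟩]

theorem DEC2_congr {V1 U U' H H' : k[X]} (hU : V1 ∣ U - U') (hH : V1 ∣ H - H') :
    DEC2_a V1 U H = DEC2_a V1 U' H' := by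
  by_cases h : ∃ w, V1 ∣ w * U - 1
  · obtain ⟨w, hw⟩ := h
    have hw' : V1 ∣ w * U' - 1 := by
      have := dvd_sub hw (hU.mul_left w)
      rwa [show w * U - 1 - w * (U - U') = w * U' - 1 by ring] at this
    rw [DEC2_eq hw, DEC2_eq hw', res_congr (H' := w * H') (by rw [← mul_sub]; exact hH.mul_left w)]
  · have h' : ¬ ∃ w, V1 ∣ w * U' - 1 := fun ⟨w, hw⟩ => h ⟨w, by
      have := dvd_add hw (hU.mul_left w)
      rwa [show w * U' - 1 + w * (U - U') = w * U - 1 by ring] at this⟩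
    rw [DEC2_a, DEC2_a, dif_neg h, dif_neg h']

theorem DEC2_nd {s : Finset k[X]} (hs : ∀ P ∈ s, P.Monic ∧ Irreducible P) {P : k[X]} (hP : P ∈ s) :
    ¬ P ∣ ∏ Q ∈ s.erase P, Q := by
  have a := hs P hP
  refine a.2.coprime_iff_not_dvd.1 (IsCoprime.prod_right fun Q hQ => ?_)
  have b := hs Q (mem_of_mem_erase hQ)
  exact a.2.coprime_iff_not_dvd.2 fun h => ne_of_mem_erase hQ
    (eq_of_monic_of_associated a.1 b.1 (a.2.associated_of_dvd b.2 h)).symm

theorem DEC2_der [Finite k] {V1 : k[X]} {s : Finset k[X]}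
    (hs : ∀ P ∈ s, P.Monic ∧ Irreducible P) {P : k[X]} (hP : P ∈ s) (h1 : ¬ P ∣ V1) :
    ¬ P ∣ derivative (V1 * ∏ Q ∈ s, Q) := by
  have a := hs P hP
  intro h
  rw [← mul_prod_erase s _ hP, mul_left_comm, derivative_mul] at h
  have h2 := (dvd_add_left (dvd_mul_right _ _)).1 h
  have hsep : IsCoprime P (derivative P) := PerfectField.separable_of_irreducible a.2
  rcases a.2.prime.dvd_or_dvd (hsep.dvd_of_dvd_mul_left h2) with h3 | h3
  · exact h1 h3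
  · exact DEC2_nd hs hP h3

theorem DEC2_sign {ι : Type} (s : Finset ι) (f : ι → ℝ) (h : ∀ i ∈ s, f i = 1 ∨ f i = -1) :
    ∏ i ∈ s, f i = 1 ∨ ∏ i ∈ s, f i = -1 :=
  prod_induction f (fun y => y = 1 ∨ y = -1)
    (fun a b ha hb => by rcases ha with ha | ha <;> rcases hb with hb | hb <;> simp [ha, hb])
    (Or.inl rfl) h

theorem DEC2_inf [CharP k 2] {U V Bt B1 Om a : k[X]} (hU : U ≠ 0) (hB : Bt ≠ 0)
    (h : a ^ 2 * Bt = Om ^ 2 + U * B1 ^ 2) :
    res (U * V ^ 2) (X * a ^ 6) = res (U * (Bt ^ 3 * V ^ 2)) (X * Om ^ 6) +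
      res (Bt ^ 3 * V ^ 2) (X * (Om ^ 4 * B1 ^ 2 + U * Om ^ 2 * B1 ^ 4 + U ^ 2 * B1 ^ 6)) := by
  have h2 : (2 : k[X]) = 0 := CharTwo.two_eq_zero
  rw [← res_mul_mul (U * V ^ 2) _ (pow_ne_zero 3 hB), ← res_mul_mul (Bt ^ 3 * V ^ 2) _ hU,
    mul_comm (Bt ^ 3 * V ^ 2) U, ← res_add]
  congr 1
  · ring
  · have e : X * a ^ 6 * Bt ^ 3 = X * (a ^ 2 * Bt) ^ 3 := by ring
    rw [e, h]
    linear_combination (X * U * (Om ^ 4 * B1 ^ 2 + U * Om ^ 2 * B1 ^ 4)) * h2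

end

theorem p_DEC2 (hFORM : S_FORM) (hSPLIT : S_SPLIT) (hDLOC : S_DLOC) :
    S_DEC2 := by
  intro k _ _ _ U V Bt V1 s hU hB hV1 hV hd hs
  have h2 : (2 : k[X]) = 0 := CharTwo.two_eq_zero
  obtain ⟨U0, a0, eU⟩ := exists_sq_add U
  obtain ⟨V0, b, eV⟩ := exists_sq_add V
  obtain ⟨B0, B1, eB⟩ := exists_sq_add Bt
  have hs' : ∀ P ∈ s, P.Monic ∧ Irreducible P := fun P hP => ⟨(hs P hP).1, (hs P hP).2.1⟩
  have hV0 : V ≠ 0 := by
    rw [hV]
    exact mul_ne_zero hV1 (prod_ne_zero_iff.2 fun P hP => (hs P hP).2.1.ne_zero)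
  have hdV : derivative V = b ^ 2 := by rw [eV]; exact derivative_sq_add _ _
  have hPV : ∀ P ∈ s, P ∣ V := fun P hP => hV ▸ (dvd_prod_of_mem _ hP).mul_left _
  have hloc := fun P (hP : P ∈ s) => hDLOC k P U0 a0 V0 b B0 B1 (hs P hP).1 (hs P hP).2.1
    (eV ▸ hPV P hP)
    (fun h => DEC2_der hs' hP (hs P hP).2.2.1 (by
      rw [← hV, hdV]; exact h.trans (dvd_pow_self b two_ne_zero)))
    (eB ▸ (hs P hP).2.2.2.1) (eB ▸ eU ▸ eV ▸ (hs P hP).2.2.2.2)
  choose! c u b' e χ hc hb he hχ1 hχ2 hz using hloc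
  obtain ⟨w0, w1, hw1⟩ : IsCoprime V1 (∏ P ∈ s, P) := IsCoprime.prod_right fun P hP =>
    ((hs P hP).2.1.coprime_iff_not_dvd.2 (hs P hP).2.2.1).symm
  have hw1' : V1 ∣ w1 * ∏ P ∈ s, P - 1 := ⟨-w0, by linear_combination hw1⟩
  set Om := a0 * B0 + B1 * U0 with hOm
  set W := Bt ^ 3 * V ^ 2 with hW
  set A : k[X] → k[X] := fun z => X * (Bt * z ^ 2 * Om ^ 2 * B1 ^ 4 +
    Bt ^ 2 * z ^ 4 * B1 ^ 6) with hA
  set H : k[X] → k[X] := fun z => X * (a0 + B1 * z) ^ 2 * b ^ 2 +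
    (a0 + B1 * z) ^ 3 * (U0 + B0 * z) + X * b ^ 3 * V0 with hH
  set κ : ℝ := psi ((((U.natDegree + 1) / 2 + U.natDegree * (V.natDegree + 1) : ℕ) : k) +
    res W (X * (Om ^ 4 * B1 ^ 2 + U * Om ^ 2 * B1 ^ 4 + U ^ 2 * B1 ^ 6))) * ∏ P ∈ s, e P with hκ
  refine ⟨fun x => κ * DEC2_a V1 (U + Bt * x ^ 2) (H x * w1),
    fun x => psi (res W (A x)) * ∏ P ∈ s, χ P x, Om, c, u, b', fun x => ?_,
    fun x y => ?_, fun x y => ?_, fun x => ?_, ?_, fun P hP => ⟨hc P hP, hb P hP⟩, fun z hx => ?_⟩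
  · have h1 : |κ| = 1 := by
      rw [hκ, abs_mul, abs_psi, one_mul]
      rcases DEC2_sign s e he with h | h <;> simp [h]
    rw [abs_mul, h1, one_mul]
    exact DEC2_abs _ _ _
  · show κ * _ = κ * _
    rw [DEC2_congr (U' := U + Bt * x ^ 2) (H' := H x * w1)]
    · rw [← AdjoinRoot.mk_eq_mk]
      simp only [map_add, map_mul, map_pow, AdjoinRoot.mk_self, zero_mul, add_zero]
    · rw [← AdjoinRoot.mk_eq_mk]
      simp only [hH, map_add, map_mul, map_pow, AdjoinRoot.mk_self, zero_mul, add_zero]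
  · have h1 : A (x + y) = A x + A y := by
      simp only [hA]
      rw [show 4 = 2 * 2 from rfl, pow_mul (x + y), CharTwo.add_sq x, CharTwo.add_sq (x ^ 2)]
      ring
    show psi _ * _ = psi _ * _ * (psi _ * _)
    rw [h1, res_add, psi_add, prod_congr rfl fun P hP => hχ1 P hP _ _, prod_mul_distrib]
    ring
  · show psi _ * _ = 1 ∨ psi _ * _ = -1
    rcases psi_eq (res W (A x)) with h | h <;>
      rcases DEC2_sign s (fun P => χ P x) (fun P hP => hχ2 P hP _) with h' | h' <;>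
      simp [h, h']
  · have e1 : U * Bt = (U0 * B0 + X * a0 * B1) ^ 2 + X * Om ^ 2 := by
      rw [eU, eB, hOm]
      linear_combination (-(X * U0 * B0 * a0 * B1) - X * a0 * B0 * B1 * U0) * h2
    have e2 : (U * Bt).natDegree = U.natDegree + Bt.natDegree := natDegree_mul hU.ne_zero hB
    have e3 := natDegree_derivative_lt (p := U * Bt) (by omega)
    rw [e2, e1, derivative_sq_add, natDegree_pow] at e3
    omega
  set Ux := U + Bt * z ^ 2 with hUx
  have eUx : Ux = (U0 + B0 * z) ^ 2 + X * (a0 + B1 * z) ^ 2 := by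
    rw [hUx, eU, eB]
    linear_combination (-(U0 * B0 * z) - X * a0 * B1 * z) * h2
  have hlt : (Bt * z ^ 2).natDegree < U.natDegree := by
    have a1 := natDegree_mul_le (p := Bt) (q := z ^ 2)
    rw [natDegree_pow] at a1
    omega
  have hm : Ux.Monic := hU.add_of_left (degree_lt_degree hlt)
  have hdx : Ux.natDegree = U.natDegree := natDegree_add_eq_left_of_natDegree_lt hlt
  show mu _ = κ * DEC2_a V1 Ux (H z * w1) * (psi (res W (A z)) * (∏ P ∈ s, χ P z) * _ * _)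
  by_cases hco : IsCoprime Ux V
  · obtain ⟨w, w', hw⟩ := hco
    have hw2 : V ∣ w * Ux - 1 := ⟨-w', by linear_combination hw⟩
    have f1 : mu (eo Ux V) =
        psi ((((Ux.natDegree + 1) / 2 + Ux.natDegree * (V.natDegree + 1) : ℕ) : k) +
          res (Ux * V ^ 2) (X * (a0 + B1 * z) ^ 6) + res V (w * H z)) :=
      hFORM k Ux V _ _ V0 b w eUx eV hm hV0 (hdx ▸ hd) hw2
    have f2 := hSPLIT k V V1 w1 (w * H z) s hV1 hV
      (fun P hP => ⟨(hs P hP).1, (hs P hP).2.1, (hs P hP).2.2.1⟩) hw1'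
    have f3 : ∏ P ∈ s, lp P (w * H z) (derivative V) =
        ∏ P ∈ s, e P * χ P z * lk P (c P) (u P + b' P * z) := prod_congr rfl fun P hP => by
      rw [hdV]
      exact (hz P hP z).2 w (eUx ▸ (hPV P hP).trans hw2)
    have f4 := DEC2_inf (V := V) (Om := Om) (B1 := B1) (a := a0 + B1 * z) hm.ne_zero hB (by
      rw [eUx, eB, hOm]
      linear_combination (-(a0 * B0 * B1 * U0) - B1 ^ 2 * U0 ^ 2 - B1 ^ 2 * U0 * B0 * z +
        a0 * B1 * z * B0 ^ 2) * h2)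
    have f5 : X * (Om ^ 4 * B1 ^ 2 + Ux * Om ^ 2 * B1 ^ 4 + Ux ^ 2 * B1 ^ 6) =
        X * (Om ^ 4 * B1 ^ 2 + U * Om ^ 2 * B1 ^ 4 + U ^ 2 * B1 ^ 6) + A z := by
      simp only [hA]
      rw [hUx]
      linear_combination (X * U * Bt * z ^ 2 * B1 ^ 6) * h2
    have f6 := DEC2_eq ((hV ▸ dvd_mul_right V1 _ : V1 ∣ V).trans hw2) (H z * w1)
    rw [f5, res_add] at f4
    rw [f1, f4, hdx, f6, hκ, ← mul_assoc w]
    simp only [psi_add]
    rw [f2, f3, prod_mul_distrib, prod_mul_distrib]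
    ring
  · rw [mu_eo_eq_zero hco]
    by_cases h1 : ∃ w, V1 ∣ w * Ux - 1
    · obtain ⟨w, w', hw⟩ := h1
      by_cases h3 : ∃ P ∈ s, P ∣ Ux
      · obtain ⟨P, hP, h3⟩ := h3
        rw [prod_eq_zero hP (f := fun P => lk P (c P) (u P + b' P * z))
          (by rw [lk, if_pos ((hz P hP z).1.2 (eUx ▸ h3))])]
        simp
      · push Not at h3
        refine absurd ?_ hco
        rw [hV]
        exact IsCoprime.mul_right ⟨w, -w', by linear_combination hw⟩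
          (IsCoprime.prod_right fun P hP =>
            ((hs P hP).2.1.coprime_iff_not_dvd.2 (h3 P hP)).symm)
    · rw [DEC2_a, dif_neg h1]
      simp

end Pool.Agent.P.MP_8be758_nt.C2
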