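import Mathlib

/-! The parity of the number of irreducible factors in characteristic two. -/

set_option linter.unusedSectionVars false

namespace Pool.Agent.P.MP_8be758_nt.C2

open Polynomial Finset Lagrange UniqueFactorizationMonoid

namespace Swan

section Ring

variable {R : Type} [CommRing R] [IsDomain R] {ι : Type} [Fintype ι] [DecidableEq ι]

theorem eq_nodal {y : ι → R} (hy : Function.Injective y) {f : R[X]} (hf : f.Monic)
    (hd : f.natDegree = Fintype.card ι) (h : ∀ i, f.eval (y i) = 0) : f = nodal univ y := by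
  have h1 : f.degree = (univ : Finset ι).card := by rw [degree_eq_natDegree hf.ne_zero, hd]; rfl
  exact eq_of_degree_le_of_eval_index_eq univ hy.injOn h1.le (by rw [h1, degree_nodal])
    (by rw [hf.leadingCoeff, nodal_monic.leadingCoeff])
    fun i hi => by rw [h, eval_nodal_at_node hi]

theorem euler {y : ι → R} (hy : Function.Injective y) {m : ℕ} (hm : Fintype.card ι = m + 1)
    {G : R[X]} (hG : G.natDegree ≤ m) (c : ι → R)
    (hc : ∀ i, c i * (derivative (nodal univ y)).eval (y i) = G.eval (y i)) :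
    ∑ i, c i = G.coeff m := by
  have hd : ∀ i, (nodal (univ.erase i) y).natDegree = m := fun i => by
    rw [natDegree_nodal, card_erase_of_mem (mem_univ i), card_univ, hm]; rfl
  have h1 : G = ∑ i, C (c i) * nodal (univ.erase i) y := by
    refine eq_of_degrees_lt_of_eval_index_eq univ hy.injOn ?_ ?_ fun i hi => ?_
    · rw [card_univ, hm]
      exact (degree_le_of_natDegree_le hG).trans_lt (by exact_mod_cast Nat.lt_succ_self m)
    · rw [card_univ, hm]
      exact (degree_le_of_natDegree_le (natDegree_sum_le_of_forall_le _ _ fun i _ =>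
        (natDegree_C_mul_le _ _).trans (hd i).le)).trans_lt (by exact_mod_cast Nat.lt_succ_self m)
    · rw [← hc, eval_nodal_derivative_eval_node_eq hi, eval_finsetSum, sum_eq_single i]
      · simp
      · intro j _ hj
        rw [eval_mul, eval_nodal_at_node (mem_erase.2 ⟨hj.symm, hi⟩), mul_zero]
      · simp
  rw [h1, finsetSum_coeff]
  refine sum_congr rfl fun i _ => ?_
  rw [coeff_C_mul, ← hd i, nodal_monic.coeff_natDegree, mul_one]

theorem prod_mod (s : Finset ι) (γ : ι → R) : ∃ K, ∏ i ∈ s, (1 + 2 * γ i) =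
    1 + 2 * ∑ i ∈ s, γ i + 2 * ((∑ i ∈ s, γ i) ^ 2 - ∑ i ∈ s, γ i ^ 2) + 8 * K := by
  have : ∃ E K, (∑ i ∈ s, γ i) ^ 2 - ∑ i ∈ s, γ i ^ 2 = 2 * E ∧ ∏ i ∈ s, (1 + 2 * γ i) =
      1 + 2 * ∑ i ∈ s, γ i + 4 * E + 8 * K := by
    induction s using Finset.induction_on with
    | empty => exact ⟨0, 0, by simp, by simp⟩
    | insert a s ha ih =>
      obtain ⟨E, K, h1, h2⟩ := ih
      refine ⟨E + γ a * ∑ i ∈ s, γ i, K + γ a * E + 2 * γ a * K, ?_, ?_⟩
      · rw [sum_insert ha, sum_insert ha]; linear_combination h1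
      · rw [prod_insert ha, sum_insert ha, h2]; ring
  obtain ⟨E, K, h1, h2⟩ := this
  exact ⟨K, by rw [h1, h2]; ring⟩

theorem vand_sq (n : ℕ) (Y : Fin (2 * n) → R) : (Matrix.vandermonde Y).det ^ 2 =
    (-1) ^ n * ∏ i, (derivative (nodal univ Y)).eval (Y i) := by
  have h1 : ∑ i : Fin (2 * n), (Ioi i).card = n * (2 * n - 1) := by
    simp only [Fin.card_Ioi]
    rw [Fin.sum_univ_eq_sum_range (fun i => 2 * n - 1 - i), sum_range_reflect (fun i => i)]
    have := sum_range_id_mul_two (2 * n)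
    nlinarith
  have h2 : (-1 : R) ^ (n * (2 * n - 1)) = (-1) ^ n := by
    rcases n with _ | n
    · simp
    · rw [mul_comm, pow_mul, Odd.neg_one_pow ⟨n, by omega⟩]
  have h3 := prod_prod_Ioi_mul_eq_prod_prod_off_diag fun j i => Y i - Y j
  simp only [eval_nodal_derivative_eval_node_eq (mem_univ _), eval_nodal, ← compl_singleton]
  rw [← h3, Matrix.det_vandermonde, ← h2, ← h1, ← prod_pow_eq_pow_sum, ← prod_mul_distrib,
    ← prod_pow]
  refine prod_congr rfl fun i _ => ?_
  rw [← prod_const, ← prod_mul_distrib, ← prod_pow]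
  exact prod_congr rfl fun j _ => by ring

theorem lifted {L : Type} [Field L] [CharP L 2] (π : R →+* L) (φ : R →+* R)
    (hker : ∀ x, π x = 0 → ∃ z, x = 2 * z) (h2 : (2 : R) ≠ 0) (hu : ∀ x, π x ≠ 0 → IsUnit x)
    {m : ℕ} {P Q : R[X]} (hP : P.natDegree ≤ m + 1) (hP1 : P.coeff (m + 1) = 1)
    (hQ : Q.natDegree ≤ m) (hφQ : Q.map φ = Q) {Y : Fin (2 * (m + 1)) → R}
    (hY : Function.Injective Y) (hN : P ^ 2 - X * Q ^ 2 = nodal univ Y)
    (hQY : ∀ i, π (Q.eval (Y i)) ≠ 0) (σ : Equiv.Perm (Fin (2 * (m + 1))))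
    (hσ : ∀ i, φ (Y i) = Y (σ i)) :
    ∃ T : R, π T ^ 2 + π T = (((m + 2) / 2 : ℕ) : L) +
      ∑ i, (π ((X * derivative Q * P * derivative P).eval (Y i)) / π (Q.eval (Y i)) ^ 3 +
        π ((X * Q * derivative Q - P * derivative P).eval (Y i)) ^ 3 / π (Q.eval (Y i)) ^ 6) ∧
      π (φ T) = π T + if Equiv.Perm.sign σ = 1 then 0 else 1 := by
  have hL : (2 : L) = 0 := CharTwo.two_eq_zero
  choose b hb using fun i => (hu _ (hQY i)).exists_right_inv
  set G := X * Q * derivative Q - P * derivative P with hG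
  set γ := fun i => G.eval (Y i) * b i ^ 2 with hγ
  choose μ hμ using fun i => (hu (1 + 2 * γ i) (by simp [map_ofNat, hL])).exists_right_inv
  have hE : ∀ i, (derivative (nodal univ Y)).eval (Y i) = -Q.eval (Y i) ^ 2 * (1 + 2 * γ i) := by
    intro i
    rw [← hN, hγ, hG]
    simp only [derivative_sub, derivative_mul, derivative_sq, derivative_X, eval_sub, eval_mul,
      eval_add, eval_pow, eval_X, eval_C, eval_one]
    linear_combination 2 * (Y i * Q.eval (Y i) * (derivative Q).eval (Y i) -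
      P.eval (Y i) * (derivative P).eval (Y i)) * (Q.eval (Y i) * b i + 1) * hb i
  have hR : ∀ i, P.eval (Y i) ^ 2 = Y i * Q.eval (Y i) ^ 2 := fun i => by
    have := congrArg (eval (Y i)) hN
    rw [eval_nodal_at_node (mem_univ i)] at this
    simpa [sub_eq_zero] using this
  have dP : (derivative P).natDegree ≤ m := (natDegree_derivative_le P).trans (by omega)
  have dW : (X * derivative Q).natDegree ≤ m := natDegree_le_iff_coeff_eq_zero.2 fun j hj => by
    obtain ⟨j, rfl⟩ : ∃ i, j = i + 1 := ⟨j - 1, by omega⟩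
    rw [coeff_X_mul, coeff_derivative, coeff_eq_zero_of_natDegree_lt (by omega), zero_mul]
  have cP : (derivative P).coeff m = m + 1 := by
    rw [coeff_derivative, hP1]; ring
  have d1 : (X * Q * derivative Q).natDegree ≤ m + m := by
    rw [mul_right_comm]; exact natDegree_mul_le_of_le dW hQ
  have d2 : (X ^ 2 * derivative Q ^ 2).natDegree ≤ 2 * m := by
    rw [← mul_pow]; exact natDegree_pow_le_of_le 2 dW
  have e1 := euler hY (m := m + 1 + m) (by simp; ring) (G := G)
    ((natDegree_sub_le _ _).trans (max_le (by omega) (natDegree_mul_le_of_le hP dP)))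
    (fun i => -(γ i * μ i)) fun i => by
      rw [hE]
      linear_combination γ i * Q.eval (Y i) ^ 2 * hμ i +
        G.eval (Y i) * (Q.eval (Y i) * b i + 1) * hb i
  rw [hG, coeff_sub, coeff_mul_add_eq_of_natDegree_le hP dP, hP1, cP,
    coeff_eq_zero_of_natDegree_lt (by omega), sum_neg_distrib] at e1
  have e2 := euler hY (m := 2 * m + 1) (by simp; ring)
    (G := X ^ 2 * derivative Q ^ 2 + X * derivative P ^ 2)
    ((natDegree_add_le _ _).trans (max_le (by omega) ((natDegree_mul_le_of_le natDegree_X_le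
      (natDegree_pow_le_of_le 2 dP)).trans (by omega))))
    (fun i => -((X ^ 2 * derivative Q ^ 2 + X * derivative P ^ 2).eval (Y i) * b i ^ 2 * μ i))
    fun i => by
      rw [hE]
      linear_combination (X ^ 2 * derivative Q ^ 2 + X * derivative P ^ 2).eval (Y i) *
        ((Q.eval (Y i) * b i) ^ 2 * hμ i + (Q.eval (Y i) * b i + 1) * hb i)
  rw [coeff_add, coeff_X_mul, coeff_pow_of_natDegree_le dP, cP,
    coeff_eq_zero_of_natDegree_lt (by omega), sum_neg_distrib] at e2
  set S := ∑ i, (X * derivative Q * P * derivative P).eval (Y i) * b i ^ 3 * μ i with hS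
  set R3 := ∑ i, γ i ^ 3 * μ i with hR3
  have e3 : ∑ i, γ i ^ 2 * μ i = -(m + 1) ^ 2 - 2 * S := by
    rw [← zero_add ((m + 1 : R) ^ 2), ← e2, neg_neg, hS, mul_sum, ← sum_sub_distrib]
    refine sum_congr rfl fun i _ => ?_
    simp only [hγ, hG, eval_sub, eval_mul, eval_add, eval_pow, eval_X]
    linear_combination (derivative P).eval (Y i) ^ 2 * b i ^ 4 * μ i * hR i + b i ^ 2 * μ i *
      ((Y i ^ 2 * (derivative Q).eval (Y i) ^ 2 + Y i * (derivative P).eval (Y i) ^ 2) *
      (Q.eval (Y i) * b i + 1) - 2 * Y i * (derivative Q).eval (Y i) * P.eval (Y i) *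
      (derivative P).eval (Y i) * b i) * hb i
  have e4 : ∑ i, γ i = ∑ i, γ i * μ i + 2 * ∑ i, γ i ^ 2 * μ i := by
    rw [mul_sum, ← sum_add_distrib]
    exact sum_congr rfl fun i _ => by linear_combination -γ i * hμ i
  have e5 : ∑ i, γ i ^ 2 = ∑ i, γ i ^ 2 * μ i + 2 * R3 := by
    rw [hR3, mul_sum, ← sum_add_distrib]
    exact sum_congr rfl fun i _ => by linear_combination -γ i ^ 2 * hμ i
  obtain ⟨K, hK⟩ := prod_mod univ γ
  set z := (Matrix.vandermonde Y).det * ∏ i, b i with hz
  have z1 : z ^ 2 = (-1) ^ (m + 1) * ∏ i, (1 + 2 * γ i) := by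
    rw [hz, mul_pow, vand_sq, mul_assoc, ← prod_pow, ← prod_mul_distrib,
      prod_congr rfl (g := fun i => -1 * (1 + 2 * γ i)) fun i _ => by
        rw [hE]; linear_combination -(1 + 2 * γ i) * (Q.eval (Y i) * b i + 1) * hb i,
      prod_mul_distrib]
    simp
  obtain ⟨K', z2⟩ : ∃ K', z ^ 2 = 1 + 4 * ((((m + 2) / 2 : ℕ) : R) + S + R3 + 2 * K') := by
    rw [z1, hK, e5, e4, e3, neg_eq_iff_eq_neg.1 e1]
    set W := (m + 1 : R) ^ 2 + 2 * S
    rcases Nat.even_or_odd' m with ⟨k, rfl | rfl⟩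
    · rw [show (2 * k + 2) / 2 = k + 1 by omega, Odd.neg_one_pow ⟨k, by ring⟩]
      exact ⟨-(K + W ^ 2 - (2 * k + 1) * W) - (k + 1), by simp only [W]; push_cast; ring⟩
    · rw [show (2 * k + 1 + 2) / 2 = k + 1 by omega, Even.neg_one_pow ⟨k + 1, by ring⟩]
      exact ⟨K + W ^ 2 - (2 * k + 2) * W - S - R3, by simp only [W]; push_cast; ring⟩
  obtain ⟨T, hT⟩ := hker (z - 1) (by
    have h3 : (π z - 1) ^ 2 = 0 := by
      have := congrArg π z2
      simp only [map_pow, map_add, map_mul, map_one, map_ofNat] at this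
      linear_combination this + (1 - π z + 2 * (π ((m + 2) / 2 : ℕ) + π S + π R3 + 2 * π K')) * hL
    simpa using pow_eq_zero_iff two_ne_zero |>.1 h3)
  have hμ1 : ∀ i, π (μ i) = 1 := fun i => by simpa [map_ofNat, hL] using congrArg π (hμ i)
  have hb1 : ∀ i, π (b i) = (π (Q.eval (Y i)))⁻¹ := fun i =>
    eq_inv_of_mul_eq_one_right (by rw [← map_mul, hb, map_one])
  refine ⟨T, ?_, ?_⟩
  · have h3 : T ^ 2 + T = (((m + 2) / 2 : ℕ) : R) + S + R3 + 2 * K' :=
      mul_left_cancel₀ (pow_ne_zero 2 h2) (by linear_combination z2 - (z + 1 + 2 * T) * hT)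
    rw [← map_pow, ← map_add, h3, sum_add_distrib, hS, hR3]
    simp only [map_add, map_mul, map_natCast, map_ofNat, hL, zero_mul, add_zero, map_sum, map_pow,
      hμ1, hb1, hγ, add_assoc, mul_one, div_eq_mul_inv, inv_pow, mul_pow, ← pow_mul]
  · have h3 : ∀ i, φ (b i) = b (σ i) := fun i => by
      have h4 : Q.eval (Y (σ i)) * φ (b i) = 1 := by
        rw [← hσ, ← hφQ, eval_map_apply, ← map_mul, hb, map_one]
      linear_combination b (σ i) * h4 - φ (b i) * hb (σ i)
    have h4 : φ z = Equiv.Perm.sign σ * z := by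
      rw [hz, map_mul, map_prod, RingHom.map_det, ← mul_assoc, ← Matrix.det_permute]
      simp only [h3, Equiv.prod_comp σ b]
      congr 2
      ext i j
      simp [hσ]
    rw [show z = 1 + 2 * T by linear_combination hT, map_add, map_one, map_mul, map_ofNat] at h4
    rcases Int.units_eq_one_or (Equiv.Perm.sign σ) with h | h
    · rw [h] at h4
      rw [if_pos h, add_zero, mul_left_cancel₀ h2 (show 2 * φ T = 2 * T by simpa using h4)]
    · rw [h] at h4
      rw [if_neg (by rw [h]; decide), mul_left_cancel₀ h2 (show 2 * φ T = 2 * (-1 - T) by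
        push_cast at h4; linear_combination h4), map_sub, map_neg, map_one]
      linear_combination (-1 - π T) * hL

end Ring

end Swan

end Pool.Agent.P.MP_8be758_nt.C2
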