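import Mathlib

/-! The sign of the Frobenius permutation of the roots. -/

namespace Pool.Agent.P.MP_8be758_nt.C2

open Polynomial Finset UniqueFactorizationMonoid

namespace Swan

variable {k L : Type} [Field k] [Fintype k] [Field L] [Algebra k L]

theorem frob_irr {p : k[X]} (hp : Irreducible p) {d : ℕ} (hd : p.natDegree = d + 1)
    (hs : (p.map (algebraMap k L)).Splits) : ∃ y : Fin (d + 1) → L, Function.Injective y ∧
      (∀ i, aeval (y i) p = 0) ∧ ∀ i, y (finRotate _ i) = y i ^ Fintype.card k := by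
  have := Fact.mk hp
  have hfr : Module.finrank k (AdjoinRoot p) = d + 1 := by
    rw [(AdjoinRoot.powerBasis hp.ne_zero).finrank, AdjoinRoot.powerBasis_dim, hd]
  have : Module.Finite k (AdjoinRoot p) := (AdjoinRoot.powerBasis hp.ne_zero).finite
  have : Finite (AdjoinRoot p) := Module.finite_of_finite k
  obtain ⟨α, hα⟩ := hs.exists_eval_eq_zero (by
    rw [degree_map, degree_eq_natDegree hp.ne_zero, hd]; exact_mod_cast d.succ_ne_zero)
  rw [eval_map_algebraMap] at hα
  let ψ : AdjoinRoot p →ₐ[k] L := AdjoinRoot.liftAlgHom p (Algebra.ofId k L) α hα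
  set F := FiniteField.frobeniusAlgHom k (AdjoinRoot p) with hF
  refine ⟨fun i => ψ ((F ^ i.1) (AdjoinRoot.root p)), fun i j h => ?_, fun i => ?_, fun i => ?_⟩
  · have h1 : F ^ i.1 = F ^ j.1 := AdjoinRoot.algHom_ext (ψ.injective h)
    have := (FiniteField.bijective_frobeniusAlgHom_pow k (AdjoinRoot p)).1
      (a₁ := i.cast hfr.symm) (a₂ := j.cast hfr.symm) h1
    simpa using this
  · rw [aeval_algHom_apply, aeval_algHom_apply, AdjoinRoot.aeval_eq, AdjoinRoot.mk_self, map_zero,
      map_zero]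
  · have h1 : F ^ (finRotate _ i).1 = F ^ (i.1 + 1) := by
      rw [finRotate_apply, Fin.val_add, ← pow_mod_orderOf F (i.1 + 1), hF,
        FiniteField.orderOf_frobeniusAlgHom, hfr]
      simp
    simp only [h1, pow_succ', AlgHom.mul_apply]
    rw [← map_pow]
    rfl

theorem frob_enum (n : ℕ) : ∀ f : k[X], f.natDegree = n → f.Monic → Squarefree f →
    (f.map (algebraMap k L)).Splits → ∃ (y : Fin n → L) (σ : Equiv.Perm (Fin n)),
      Function.Injective y ∧ (∀ i, aeval (y i) f = 0) ∧ (∀ i, y (σ i) = y i ^ Fintype.card k) ∧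
      ((Equiv.Perm.sign σ : ℤˣ) : ℤ) = (-1) ^ n * moebius f := by
  induction n using Nat.strong_induction_on with
  | _ n ih =>
  intro f hn hm hsq hs
  by_cases hu : IsUnit f
  · obtain rfl : 0 = n := by rw [← hn, natDegree_eq_zero_of_isUnit hu]
    exact ⟨Fin.elim0, 1, fun i => i.elim0, fun i => i.elim0, fun i => i.elim0, by
      simp [hu.moebius_eq]⟩
  obtain ⟨p, hpm, hp, g, rfl⟩ := exists_monic_irreducible_factor f hu
  have hg := hpm.of_mul_monic_left hm
  obtain ⟨hc, -, hgs⟩ := squarefree_mul_iff.1 hsq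
  obtain ⟨d, hd⟩ : ∃ d, p.natDegree = d + 1 := ⟨p.natDegree - 1, by
    have := hp.natDegree_pos; omega⟩
  rw [hpm.natDegree_mul hg, hd] at hn
  subst hn
  rw [Polynomial.map_mul] at hs
  have h0 := mul_ne_zero (hpm.map (algebraMap k L)).ne_zero (hg.map (algebraMap k L)).ne_zero
  obtain ⟨y1, a1, a2, a3⟩ := frob_irr hp hd (hs.of_dvd h0 (dvd_mul_right _ _))
  obtain ⟨y2, σ, b1, b2, b3, b4⟩ := ih _ (by omega) g rfl hg hgs (hs.of_dvd h0 (dvd_mul_left _ _))
  have hne : ∀ i j, y1 i ≠ y2 j := fun i j h => by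
    obtain ⟨a, b, hab⟩ := hc.isCoprime
    simpa [a2, h ▸ a2 i, b2] using congrArg (aeval (y2 j)) hab
  refine ⟨Sum.elim y1 y2 ∘ finSumFinEquiv.symm,
    finSumFinEquiv.permCongr (Equiv.Perm.sumCongr (finRotate _) σ),
    (a1.sumElim b1 hne).comp finSumFinEquiv.symm.injective, fun i => ?_, fun i => ?_, ?_⟩
  · obtain ⟨j, rfl⟩ := finSumFinEquiv.surjective i
    rcases j with j | j <;> simp [a2, b2]
  · obtain ⟨j, rfl⟩ := finSumFinEquiv.surjective i
    rcases j with j | j <;> simp [-finRotate_apply, a3, b3]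
  · rw [Equiv.Perm.sign_permCongr, Equiv.Perm.sign_sumCongr, sign_finRotate, hc.moebius_mul,
      hp.moebius_eq, Units.val_mul, b4]
    push_cast
    ring

end Swan

end Pool.Agent.P.MP_8be758_nt.C2
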