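import Pool.Agent.P.MP_8be758_nt.C2.Basic
import Pool.Agent.P.MP_8be758_nt.C2.FORMaux1
import Pool.Agent.P.MP_8be758_nt.C2.FORMaux2

/-! The Moebius function as a sum over the roots. -/

namespace Pool.Agent.P.MP_8be758_nt.C2

open Polynomial Finset Lagrange UniqueFactorizationMonoid

namespace Swan

theorem monic_aux {R : Type} [CommRing R] [Nontrivial R] {m : ℕ} {P Q : R[X]} (hP : P.Monic)
    (hn : P.natDegree = m + 1) (hQ : Q.natDegree ≤ m) :
    (P ^ 2 - X * Q ^ 2).Monic ∧ (P ^ 2 - X * Q ^ 2).natDegree = 2 * (m + 1) := by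
  have h1 : (P ^ 2).natDegree = 2 * (m + 1) := by rw [hP.natDegree_pow, hn]
  have h2 : (X * Q ^ 2).natDegree < (P ^ 2).natDegree :=
    (natDegree_mul_le_of_le natDegree_X_le (natDegree_pow_le_of_le 2 hQ)).trans_lt (by omega)
  exact ⟨(hP.pow 2).sub_of_left (degree_lt_degree h2), by
    rw [natDegree_sub_eq_left_of_natDegree_lt h2, h1]⟩

theorem tele {k L : Type} [Field k] [Finite k] [CharP k 2] [Field L] [CharP L 2] [Algebra k L]
    {δ : k} {t : L} (h : t ^ 2 + t = algebraMap k L δ) :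
    algebraMap k L (trs δ) = t ^ Nat.card k - t := by
  conv_rhs => rw [card_eq_two_pow]
  rw [trs, map_sum]
  simp only [map_pow, ← h, add_pow_char_pow]
  have := sum_range_sub (fun i => t ^ 2 ^ i) (Nat.log 2 (Nat.card k))
  simp only [pow_zero, pow_one] at this
  rw [← this]
  exact sum_congr rfl fun i _ => by rw [CharTwo.sub_eq_add, ← pow_mul, pow_succ']

theorem swan {k L : Type} [Field k] [Finite k] [CharP k 2] [Field L] [Finite L] [Algebra k L]
    {m : ℕ} {U V : k[X]} (hU : U.Monic) (hn : U.natDegree = m + 1) (hV : V.natDegree ≤ m)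
    (hc : IsCoprime U V) (hs : ((U ^ 2 + X * V ^ 2).map (algebraMap k L)).Splits) :
    ∃ t : Fin (2 * (m + 1)) → L, Function.Injective t ∧
      (U ^ 2 + X * V ^ 2).map (algebraMap k L) = ∏ i, (X - C (t i)) ∧
      ∀ δ : k, algebraMap k L δ = (((m + 2) / 2 : ℕ) : L) +
        ∑ i, aeval (t i) (Hn U V) / aeval (t i) V ^ 4 → mu (U ^ 2 + X * V ^ 2) = psi δ := by
  have := Fintype.ofFinite k
  have : CharP L 2 := charP_of_injective_algebraMap (algebraMap k L).injective 2
  have hL : (2 : L) = 0 := CharTwo.two_eq_zero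
  obtain ⟨f1, f2⟩ := monic_aux hU hn hV
  rw [CharTwo.sub_eq_add] at f1 f2
  have hsep : (U ^ 2 + X * V ^ 2).Separable := by
    rw [separable_def, derivative_sq_add]
    exact (hc.pow (m := 2) (n := 2)).add_mul_right_left X
  obtain ⟨y, σ, y1, y2, y3, y4⟩ := frob_enum _ _ f2 f1 hsep.squarefree hs
  have hv : ∀ i, aeval (y i) V ≠ 0 := fun i h => by
    have := hsep.aeval_derivative_ne_zero (y2 i)
    rw [derivative_sq_add] at this
    simp [h] at this
  refine ⟨y, y1, eq_nodal y1 (f1.map _) (by rw [natDegree_map, f2]; simp) fun i => by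
    rw [eval_map_algebraMap, y2], fun δ hδ => ?_⟩
  let π : WittVector 2 L →+* L := WittVector.constantCoeff
  let ι : WittVector 2 k →+* WittVector 2 L := WittVector.map (algebraMap k L)
  let φ : WittVector 2 L →+* WittVector 2 L :=
    WittVector.map (FiniteField.frobeniusAlgHom k L).toRingHom
  have c1 : π.comp ι = (algebraMap k L).comp WittVector.constantCoeff := rfl
  have c2 : φ.comp ι = ι := by
    ext x j
    simp [φ, ι]
  have c3 : ∀ x, π (φ x) = π x ^ Fintype.card k := fun x => rfl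
  have hl := fun A : k[X] => (mem_lifts A).2
    (map_surjective _ (WittVector.constantCoeff_surjective (p := 2) (R := k)) A)
  obtain ⟨P0, p1, p2, p3⟩ := lifts_and_natDegree_eq_and_monic (hl U) hU
  obtain ⟨Q0, q1, q2⟩ := exists_degree_eq_of_mem_lifts (hl V)
  set P := P0.map ι with hP
  set Q := Q0.map ι with hQ
  have pn : P.natDegree = m + 1 := by rw [hP, p3.natDegree_map, p2, hn]
  have qn : Q.natDegree ≤ m := natDegree_map_le.trans ((natDegree_eq_of_degree_eq q2).trans_le hV)
  have pπ : P.map π = U.map (algebraMap k L) := by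
    rw [hP, Polynomial.map_map, c1, ← Polynomial.map_map, p1]
  have qπ : Q.map π = V.map (algebraMap k L) := by
    rw [hQ, Polynomial.map_map, c1, ← Polynomial.map_map, q1]
  have pφ : P.map φ = P := by rw [hP, Polynomial.map_map, c2]
  have qφ : Q.map φ = Q := by rw [hQ, Polynomial.map_map, c2]
  obtain ⟨n1, n2⟩ := monic_aux (p3.map ι) pn qn
  rw [← hP] at n1 n2
  have nπ : (P ^ 2 - X * Q ^ 2).map π = (U ^ 2 + X * V ^ 2).map (algebraMap k L) := by
    simp [pπ, qπ, CharTwo.sub_eq_add]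
  have hI : ∀ x, x ∈ Ideal.span {((2 : ℕ) : WittVector 2 L)} ↔ π x = 0 :=
    WittVector.mem_span_p_iff_coeff_zero_eq_zero
  have hY : ∀ i, ∃ a, (P ^ 2 - X * Q ^ 2).eval a = 0 ∧ π a = y i := fun i => by
    obtain ⟨a0, h0⟩ := WittVector.constantCoeff_surjective (p := 2) (y i)
    change π a0 = _ at h0
    obtain ⟨a, a1, a2⟩ := HenselianRing.is_henselian (I := Ideal.span {((2 : ℕ) : WittVector 2 L)})
      _ n1 a0 (by rw [hI, ← eval_map_apply, nπ, h0, eval_map_algebraMap, y2])
      ((WittVector.isUnit_of_coeff_zero_ne_zero _ (by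
        change π _ ≠ 0
        rw [← eval_map_apply, ← derivative_map, nπ, h0, derivative_map, eval_map_algebraMap]
        exact hsep.aeval_derivative_ne_zero (y2 i))).map _)
    exact ⟨a, a1, by rw [hI, map_sub, sub_eq_zero] at a2; rw [a2, h0]⟩
  choose Y Y1 Y2 using hY
  have Y3 : Function.Injective Y := fun i j h => y1 (by rw [← Y2, ← Y2, h])
  have hN := eq_nodal Y3 n1 (by rw [n2]; simp) Y1
  have hσ : ∀ i, φ (Y i) = Y (σ i) := fun i => by
    have h1 : (nodal univ Y).eval (φ (Y i)) = 0 := by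
      rw [← hN, show P ^ 2 - X * Q ^ 2 = (P ^ 2 - X * Q ^ 2).map φ by simp [pφ, qφ],
        eval_map_apply, Y1, map_zero]
    rw [eval_nodal, prod_eq_zero_iff] at h1
    obtain ⟨j, -, hj⟩ := h1
    rw [sub_eq_zero] at hj
    rw [hj, y1 (show y j = y (σ i) by rw [y3, ← Y2, ← hj, c3, Y2])]
  have ev : ∀ (A : (WittVector 2 L)[X]) i, π (A.eval (Y i)) = (A.map π).eval (y i) := fun A i => by
    rw [← Y2, eval_map_apply]
  obtain ⟨T, t1, t2⟩ := lifted π φ (fun x hx => by
      obtain ⟨z, hz⟩ := Ideal.mem_span_singleton.1 ((hI x).2 hx)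
      exact ⟨z, by exact_mod_cast hz⟩) (by exact_mod_cast WittVector.p_nonzero 2 L)
    (fun x hx => WittVector.isUnit_of_coeff_zero_ne_zero x hx) pn.le
    (by rw [← pn]; exact (p3.map ι).coeff_natDegree) qn qφ Y3 hN
    (fun i => by rw [ev, qπ, eval_map_algebraMap]; exact hv i) σ hσ
  have t3 : π T ^ 2 + π T = algebraMap k L δ := by
    rw [t1, hδ]
    congr 1
    refine sum_congr rfl fun i _ => ?_
    have h1 := y2 i
    have h2 := hv i
    simp only [ev, Polynomial.map_mul, Polynomial.map_sub, ← derivative_map, pπ, qπ, map_X]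
    simp only [derivative_map, eval_mul, eval_sub, eval_X, eval_map_algebraMap, Hn, map_add,
      map_mul, map_pow, aeval_X] at h1 ⊢
    generalize aeval (y i) U = u, aeval (y i) V = v, aeval (y i) (derivative U) = a,
      aeval (y i) (derivative V) = b at h1 h2
    generalize y i = x at h1
    have h3 : (x * v * b + u * a) ^ 2 = v ^ 2 * (x * (a ^ 2 + x * b ^ 2)) := by
      linear_combination a ^ 2 * h1 + (x * v * b * u * a - x * v ^ 2 * a ^ 2) * hL
    rw [CharTwo.sub_eq_add, pow_succ (x * v * b + u * a) 2, h3]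
    field_simp
    ring
  have t4 := tele t3
  rw [Nat.card_eq_fintype_card, ← c3, t2, add_sub_cancel_left] at t4
  rw [Even.neg_one_pow ⟨m + 1, by ring⟩, one_mul] at y4
  rw [mu, ← y4, psi, ← map_eq_zero (algebraMap k L), t4]
  rcases Int.units_eq_one_or (Equiv.Perm.sign σ) with h | h <;> simp [h]

end Swan

end Pool.Agent.P.MP_8be758_nt.C2
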