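import Pool.Agent.P.MP_8be758_nt.C2.If
import Pool.Agent.P.MP_8be758_nt.C2.FORMaux3

/-! Step FORM. -/

namespace Pool.Agent.P.MP_8be758_nt.C2

open Polynomial Finset Filter UniqueFactorizationMonoid
open scoped Classical Topology

theorem mu_equiv {k : Type} [Field k] (e : k[X] ≃* k[X]) (f : k[X]) : mu (e f) = mu f := by
  have hs : ∀ (e : k[X] ≃* k[X]) (f : k[X]), Squarefree (e f) → Squarefree f := fun e f h x hx =>
    by simpa using (h (e x) (by rw [← map_mul]; exact _root_.map_dvd e hx)).map e.symm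
  by_cases h : Squarefree f
  · have h' : Squarefree (e f) := hs e.symm _ (by simpa using h)
    have := factors_unique (f := (factors f).map e) (g := factors (e f))
      (fun x hx => by
        obtain ⟨y, hy, rfl⟩ := Multiset.mem_map.1 hx
        exact (MulEquiv.irreducible_iff e).2 (irreducible_of_factor y hy))
      irreducible_of_factor (by
        rw [← map_multiset_prod]
        exact ((factors_prod h.ne_zero).map e).trans (factors_prod h'.ne_zero).symm)
    rw [mu, mu, h.moebius_eq, h'.moebius_eq, ← Multiset.card_eq_card_of_rel this,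
      Multiset.card_map]
  · rw [mu, mu, moebius_of_not_squarefree h, moebius_of_not_squarefree (mt (hs e f) h)]

theorem p_FORM (hPF : S_PF) (hINFY : S_INFY) :
    S_FORM := by
  intro k _ _ _ U V U0 a V0 b w hU0 hV0 hU hV hd hw
  have h2 : (2 : k[X]) = 0 := CharTwo.two_eq_zero
  obtain ⟨m, hm⟩ : ∃ m, U.natDegree = m + 1 := ⟨U.natDegree - 1, by omega⟩
  obtain ⟨c, hc⟩ := hw
  have : Finite (U ^ 2 + X * V ^ 2).SplittingField := Module.finite_of_finite k
  obtain ⟨t, t1, t2, t3⟩ := Swan.swan hU hm (by omega) ⟨w, -c, by linear_combination hc⟩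
    (SplittingField.splits (U ^ 2 + X * V ^ 2))
  have e1 : mu (eo U V) = mu (U ^ 2 + X * V ^ 2) := by
    rw [← mu_equiv (mapEquiv (frobeniusEquiv k 2)).toMulEquiv, ← expand_fr U, ← expand_fr V]
    exact congrArg mu (map_eo (frobenius k 2) U V)
  have dU : derivative U = a ^ 2 := by rw [hU0, derivative_sq_add]
  have dV : derivative V = b ^ 2 := by rw [hV0, derivative_sq_add]
  have e2 : res (V ^ 2) (Hn U V * w ^ 2) = (res V (w * a * b * (U0 * V0 + X * a * b)) +
      res V (w * (a ^ 3 * U0 + X * b ^ 3 * V0))) ^ 2 := by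
    rw [← res_add, ← res_sq V (X * w * ((U0 * b + a * V0) * a * b + a ^ 4 + V0 * a ^ 2 * b +
      U0 * a * b ^ 2 + X * b ^ 4)), Hn, dU, dV, hU0]
    congr 1
    simp only [hV0, CharTwo.add_sq, mul_pow]
    linear_combination X ^ 3 * a ^ 4 * b ^ 4 * w ^ 2 * h2
  have e3 : res V (w * a * b * (U0 * V0 + X * a * b)) ^ 2 = res V (w * (X * a ^ 2 * b ^ 2)) := by
    rw [← res_sq V (X * a * b * w * (U0 * b + a * V0)), ← res_mul_mul V _ hV, ← sq]
    refine res_congr ⟨w * c * X * a ^ 2 * b ^ 2, ?_⟩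
    simp only [CharTwo.add_sq, mul_pow]
    linear_combination w * X * a ^ 2 * b ^ 2 * V * hc - X * a ^ 2 * b ^ 2 * w ^ 2 * V * hU0 -
      X * a ^ 2 * b ^ 2 * w ^ 2 * (U0 ^ 2 + X * a ^ 2) * hV0
  rw [e1, t3 _ (by rw [hPF k _ U V w _ t _ hV ⟨c, hc⟩ t1 t2, ← map_natCast (algebraMap k _),
    ← map_add]), hINFY k U V hU hV hd, e2, dU, hm, add_assoc (X * a ^ 2 * b ^ 2),
    mul_add w (X * a ^ 2 * b ^ 2), res_add, ← e3, ← pow_mul]
  simp only [Nat.cast_add, psi_add, psi_sq]
  ring

end Pool.Agent.P.MP_8be758_nt.C2
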