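import Pool.Agent.P.MP_8be758_nt.C2.If

/-! Step INFY. -/

namespace Pool.Agent.P.MP_8be758_nt.C2

open Polynomial Finset Filter
open scoped Classical Topology

/-- degree at most `d` and coefficient `c` there -/
def INFY_Top {k : Type} [Field k] (p : k[X]) (d : ℕ) (c : k) : Prop :=
  p.natDegree ≤ d ∧ p.coeff d = c

theorem INFY_mul {k : Type} [Field k] {p q : k[X]} {d e : ℕ} {c c' : k} (h : INFY_Top p d c)
    (h' : INFY_Top q e c') : INFY_Top (p * q) (d + e) (c * c') :=
  ⟨natDegree_mul_le.trans (Nat.add_le_add h.1 h'.1), by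
    rw [coeff_mul_add_eq_of_natDegree_le h.1 h'.1, h.2, h'.2]⟩

theorem INFY_self {k : Type} [Field k] (p : k[X]) : INFY_Top p p.natDegree p.leadingCoeff :=
  ⟨le_rfl, rfl⟩

theorem INFY_xd {k : Type} [Field k] (p : k[X]) :
    INFY_Top (X * derivative p) p.natDegree (p.natDegree * p.leadingCoeff) := by
  have h : ∀ j, (X * derivative p).coeff j = j * p.coeff j := by
    intro j
    rcases j with _ | j
    · simp
    · rw [coeff_X_mul, coeff_derivative, mul_comm]
      simp
  refine ⟨natDegree_le_iff_coeff_eq_zero.2 fun j hj => ?_, h _⟩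
  rw [h, coeff_eq_zero_of_natDegree_lt hj, mul_zero]

theorem INFY_d {k : Type} [Field k] {p : k[X]} {m : ℕ} (h : p.natDegree = m + 1) :
    INFY_Top (derivative p) m (p.natDegree * p.leadingCoeff) := by
  refine ⟨(natDegree_derivative_le p).trans (by omega), ?_⟩
  rw [coeff_derivative, leadingCoeff, h, mul_comm]
  simp

theorem INFY_res {k : Type} [Field k] {M p : k[X]} {d : ℕ} {c : k} (h : INFY_Top p d c)
    (hM : M.natDegree = d + 1) : res M p = c / M.leadingCoeff := by
  rw [res_of_lt (degree_lt_degree (by have := h.1; omega)), hM, Nat.add_sub_cancel, h.2]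

theorem INFY_cast {k : Type} [Field k] [CharP k 2] (n : ℕ) : (n : k) * n = n := by
  rcases Nat.even_or_odd' n with ⟨j, rfl | rfl⟩ <;> simp [CharTwo.two_eq_zero]

theorem p_INFY :
    S_INFY := by
  intro k _ _ U V hU hV hd
  have h2 : (2 : k[X]) = 0 := CharTwo.two_eq_zero
  have h2k : (2 : k) = 0 := CharTwo.two_eq_zero
  obtain ⟨m, hm⟩ : ∃ m, U.natDegree = m + 1 := ⟨U.natDegree - 1, by omega⟩
  have hv : V.leadingCoeff ≠ 0 := leadingCoeff_ne_zero.2 hV
  have hlt : (X * V ^ 2).natDegree < (U ^ 2).natDegree := by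
    rw [natDegree_mul X_ne_zero (pow_ne_zero 2 hV), natDegree_pow, natDegree_pow, natDegree_X]
    omega
  have hNm : (U ^ 2 + X * V ^ 2).Monic := (hU.pow 2).add_of_left (degree_lt_degree hlt)
  have hNd : (U ^ 2 + X * V ^ 2).natDegree = 2 * (m + 1) := by
    rw [natDegree_add_eq_left_of_natDegree_lt hlt, natDegree_pow, hm]
  set N := U ^ 2 + X * V ^ 2 with hN
  have hMd : (V ^ 2 * N).natDegree = 2 * V.natDegree + 2 * (m + 1) := by
    rw [natDegree_mul (pow_ne_zero 2 hV) hNm.ne_zero, natDegree_pow, hNd]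
  have hMl : (V ^ 2 * N).leadingCoeff = V.leadingCoeff ^ 2 := by
    rw [leadingCoeff_mul, hNm.leadingCoeff, leadingCoeff_pow, mul_one]
  have tU := INFY_self U
  have tV := INFY_self V
  have tA := INFY_xd U
  have tB := INFY_xd V
  have ta := INFY_d hm
  rw [hU.leadingCoeff] at tU tA ta
  have r1 := INFY_res (M := V ^ 2 * N) (INFY_mul (INFY_mul (INFY_mul tU ta) tB) tV)
    (by rw [hMd, hm]; ring)
  have r2 := INFY_res (M := V ^ 2 * N) (INFY_mul (INFY_mul (INFY_mul tA ta) tB) tV)
    (by rw [hMd, hm]; ring)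
  have r3 : res (V ^ 2 * N) (X * derivative V * (X * derivative V) * (X * derivative V) * V) = 0 :=
    res_eq_zero (by
      have := (INFY_mul (INFY_mul (INFY_mul tB tB) tB) tV).1
      omega)
  have r4 := INFY_res (M := V ^ 2 * N) (INFY_mul (INFY_mul (INFY_mul tB tB) tU) ta)
    (by rw [hMd, hm]; ring)
  have r5 := INFY_res (M := U * N) (INFY_mul (INFY_mul tA tA) ta)
    (by rw [natDegree_mul hU.ne_zero hNm.ne_zero, hNd, hm]; ring)
  rw [(hU.mul hNm).leadingCoeff] at r5
  have r6 : res (V ^ 2 * N) (X * derivative U ^ 3 * U) =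
      res (U * V ^ 2) (X * derivative U ^ 3) +
        res (U * N) (X * derivative U * (X * derivative U) * derivative U) := by
    rw [← res_mul_mul _ _ hU.ne_zero, ← res_mul_mul (U * V ^ 2) _ hNm.ne_zero,
      ← res_mul_mul (U * N) _ (pow_ne_zero 2 hV), show V ^ 2 * N * U = U * V ^ 2 * N by ring,
      show U * N * V ^ 2 = U * V ^ 2 * N by ring, ← res_add]
    congr 1
    rw [hN]
    linear_combination (-(X ^ 2 * derivative U ^ 3 * V ^ 2)) * h2
  have e : Hn U V = U * derivative U * (X * derivative V) * V +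
      X * derivative U * derivative U * (X * derivative V) * V +
      X * derivative V * (X * derivative V) * (X * derivative V) * V +
      X * derivative V * (X * derivative V) * U * derivative U + X * derivative U ^ 3 * U := by
    unfold Hn
    ring
  rw [e, res_add, res_add, res_add, res_add, r1, r2, r3, r4, r6, r5, hMl]
  have c1 := INFY_cast (k := k) U.natDegree
  have c2 := INFY_cast (k := k) V.natDegree
  push_cast
  field_simp
  linear_combination ((V.natDegree : k) + U.natDegree + 1) * c1 + (U.natDegree : k) * c2 +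
    ((U.natDegree : k) * V.natDegree) * h2k

end Pool.Agent.P.MP_8be758_nt.C2
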