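import Pool.Agent.P.MP_8be758_nt.C2.If

/-! Step LOC. -/

namespace Pool.Agent.P.MP_8be758_nt.C2

open Polynomial Finset Filter
open scoped Classical Topology

theorem LOC_sum {F : Type} [AddCommMonoid F] (f : ℕ → F) (m d : ℕ) :
    ∑ n ∈ range (m * d), f n = ∑ j ∈ range d, ∑ i ∈ range m, f (m * j + i) := by
  induction d with
  | zero => simp
  | succ d ih => rw [Nat.mul_succ, sum_range_add, ih, sum_range_succ]

theorem p_LOC :
    S_LOC := by
  intro k _ _ _ P H hm hP
  have : Fact (Irreducible P) := ⟨hP⟩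
  have := Fintype.ofFinite k
  have := finite_adjoinRoot hP.ne_zero
  have := charP_adjoinRoot (P := P)
  have hd : Module.finrank k (AdjoinRoot P) = P.natDegree := by
    rw [(AdjoinRoot.powerBasis hP.ne_zero).finrank, AdjoinRoot.powerBasis_dim]
  set φ := FiniteField.frobeniusAlgHom k (AdjoinRoot P)
  let t : Fin (Module.finrank k (AdjoinRoot P)) → AdjoinRoot P := fun j =>
    (φ ^ j.1) (AdjoinRoot.root P)
  have ht : Function.Injective t := fun i j e =>
    (FiniteField.bijective_frobeniusAlgHom_pow k (AdjoinRoot P)).1 (AdjoinRoot.algHom_ext e)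
  have ha : ∀ j (G : k[X]), aeval (t j) G = (φ ^ j.1) (AdjoinRoot.mk P G) := fun j G => by
    rw [aeval_algHom_apply, AdjoinRoot.aeval_eq]
  have hN : P.map (algebraMap k (AdjoinRoot P)) = ∏ j, (X - C (t j)) := by
    refine eq_of_monic_of_dvd_of_natDegree_le (monic_prod_X_sub_C _ _) (hm.map _)
      (prod_dvd_of_coprime (fun i _ j _ e => pairwise_coprime_X_sub_C ht e) fun j _ => ?_) ?_
    · rw [dvd_iff_isRoot, IsRoot, eval_map, ← aeval_def, ha, AdjoinRoot.mk_self, map_zero]
    · rw [natDegree_map, natDegree_finsetProd_X_sub_C_eq_card, card_univ, Fintype.card_fin, hd]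
  have hq := card_eq_two_pow (K := k)
  set m := Nat.log 2 (Nat.card k) with hm'
  set y := AdjoinRoot.mk P H / AdjoinRoot.mk P (derivative P) with hy
  have hφ : ∀ (j : ℕ) (x : AdjoinRoot P), (φ ^ j) x = x ^ 2 ^ (m * j) := fun j x => by
    rw [AlgHom.coe_pow, FiniteField.coe_frobeniusAlgHom, pow_iterate, ← Nat.card_eq_fintype_card,
      hq, pow_mul]
  have h1 : algebraMap k (AdjoinRoot P) (res P H) = ∑ j ∈ range P.natDegree, y ^ 2 ^ (m * j) := by
    rw [res_roots t ht hN, ← hd, ← Fin.sum_univ_eq_sum_range (fun j => y ^ 2 ^ (m * j))]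
    exact sum_congr rfl fun j _ => by rw [ha, ha, ← map_div₀, hφ]
  have h2 : algebraMap k (AdjoinRoot P) (trs (res P H)) = trs y := by
    have e : Nat.log 2 (Nat.card (AdjoinRoot P)) = m * P.natDegree := by
      rw [card_adjoinRoot hP.ne_zero, hq, ← pow_mul, Nat.log_pow (by norm_num)]
    rw [trs, trs, e, LOC_sum, sum_comm, map_sum]
    refine sum_congr rfl fun i _ => ?_
    rw [map_pow, h1, sum_pow_char_pow]
    exact sum_congr rfl fun j _ => by rw [← pow_mul, pow_add]
  rw [lp_eq, psi, psi, ← hy, ← h2]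
  simp only [map_eq_zero]

end Pool.Agent.P.MP_8be758_nt.C2
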