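import Pool.Agent.P.MP_8be758_nt.C2.If

/-! Step PF. -/

namespace Pool.Agent.P.MP_8be758_nt.C2

open Polynomial Finset Filter
open scoped Classical Topology

theorem p_PF :
    S_PF := by
  intro k K _ _ _ _ U V w d t H hV hw ht hN
  obtain ⟨c, hc⟩ := hw
  have h2 : (2 : k[X]) = 0 := CharTwo.two_eq_zero
  have hN0 : U ^ 2 + X * V ^ 2 ≠ 0 := by
    intro h
    rw [h, Polynomial.map_zero] at hN
    exact (monic_prod_X_sub_C t univ).ne_zero hN.symm
  have e1 : w ^ 2 * (U ^ 2 + X * V ^ 2) + (c ^ 2 + X * w ^ 2) * V ^ 2 = 1 := by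
    linear_combination (w * U + 1 + V * c) * hc +
      (V * c + V ^ 2 * c ^ 2 + X * w ^ 2 * V ^ 2) * h2
  have e2 : H = H * w ^ 2 * (U ^ 2 + X * V ^ 2) + H * (c ^ 2 + X * w ^ 2) * V ^ 2 := by
    linear_combination (-H) * e1
  have e3 : res (V ^ 2 * (U ^ 2 + X * V ^ 2)) H + res (V ^ 2) (H * w ^ 2) =
      res (U ^ 2 + X * V ^ 2) (H * (c ^ 2 + X * w ^ 2)) := by
    have := res_split (pow_ne_zero 2 hV) hN0 (H * w ^ 2) (H * (c ^ 2 + X * w ^ 2))
    rw [← e2] at this
    rw [this, add_right_comm, CharTwo.add_self_eq_zero, zero_add]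
  rw [e3, res_roots t ht hN, derivative_sq_add]
  refine sum_congr rfl fun i _ => ?_
  have hr : aeval (t i) (U ^ 2 + X * V ^ 2) = 0 := by
    rw [aeval_def, ← eval_map, hN, eval_prod]
    exact prod_eq_zero (mem_univ i) (by simp)
  have e4 := congrArg (aeval (t i)) e1
  rw [map_add, map_mul, hr, mul_zero, zero_add, map_mul, map_pow, map_one] at e4
  have hv : aeval (t i) V ≠ 0 := by
    intro h
    rw [h] at e4
    simp at e4
  rw [map_mul, map_pow, div_eq_div_iff (pow_ne_zero 4 hv) (pow_ne_zero 2 hv)]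
  linear_combination (-(aeval (t i) H) * aeval (t i) V ^ 2) * e4

end Pool.Agent.P.MP_8be758_nt.C2
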