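import Pool.Agent.P.MP_8be758_nt.C2.If

/-! Step VDC. -/

namespace Pool.Agent.P.MP_8be758_nt.C2

open Polynomial Finset Filter
open scoped Classical Topology

theorem p_VDC :
    S_VDC := by
  intro k _ _ _ a b V1 L0 H h h1 h2
  have hG : ∀ t ∈ low k H, ∀ g ∈ low k L0, g + V1 * t ∈ low k L0 := fun t ht g hg =>
    add_mem_low hg (mul_mem_low ht h)
  have e1 := sum_avg _ _ _ hG fun x => a x * b x
  have e2 : ∑ g ∈ low k L0, (∑ t ∈ low k H, b (g + V1 * t)) ^ 2 =
      (low k H).card * ∑ y ∈ low k H, ∑ x ∈ low k L0, b x * b (x + V1 * y) := by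
    simp only [sq, sum_mul_sum]
    rw [sum_comm, ← nsmul_eq_mul, ← sum_const]
    refine sum_congr rfl fun t ht => ?_
    rw [sum_comm, ← sum_shift _ t fun _ hg => add_mem_low hg ht]
    refine sum_congr rfl fun y _ => ?_
    rw [← sum_shift _ _ (hG t ht) fun x => b x * b (x + V1 * y)]
    exact sum_congr rfl fun x _ => by rw [mul_add, add_comm (V1 * y), add_assoc]
  have e3 := sq_sum_le_card_mul_sum_sq (s := low k L0)
    (f := fun g => a g * ∑ t ∈ low k H, b (g + V1 * t))
  have e4 : ∑ g ∈ low k L0, (a g * ∑ t ∈ low k H, b (g + V1 * t)) ^ 2 ≤ _ :=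
    (sum_le_sum fun g _ => (mul_pow _ _ _).trans_le (mul_le_of_le_one_left (sq_nonneg _)
      ((sq_le_one_iff_abs_le_one _).2 (h1 g)))).trans_eq e2
  simp only [h2, ← mul_sum] at e1
  rw [← e1] at e3
  simp only [card_low, Nat.cast_pow] at e3 e4
  have q0 : (0 : ℝ) < Nat.card k := by exact_mod_cast Nat.card_pos
  refine le_of_mul_le_mul_left ?_ (pow_pos q0 H)
  calc _ ≤ _ := le_of_eq_of_le (by ring) e3
    _ ≤ _ := mul_le_mul_of_nonneg_left e4 (by positivity)
    _ ≤ _ := by
      rw [mul_left_comm]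
      gcongr
      exact le_abs_self _

end Pool.Agent.P.MP_8be758_nt.C2
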