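import Pool.Agent.P.MP_8be758_nt.C2.If2

/-! Step BAD2b. -/

namespace Pool.Agent.P.MP_8be758_nt.C2

open Polynomial Finset Filter
open scoped Classical Topology

theorem BAD2b_eo {k : Type} [Field k] [CharP k 2] (A B Cc g w : k[X]) :
    Cc ^ 2 * (g + B * expand k 2 w) ^ 2 + B * (g + B * expand k 2 w) + A =
      eo (evp (Cc ^ 2 * g ^ 2 + B * g + A) + fr B * (w + fr Cc * w ^ 2))
        (odp (Cc ^ 2 * g ^ 2 + B * g + A)) := by
  have h2 : (2 : k[X]) = 0 := CharTwo.two_eq_zero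
  have h := eo_evp_odp (Cc ^ 2 * g ^ 2 + B * g + A)
  simp only [eo, map_add, map_mul, map_pow, expand_fr] at h ⊢
  linear_combination (Cc ^ 2 * g * B * expand k 2 w) * h2 - h

theorem BAD2b_kap {k : Type} [Field k] [CharP k 2] (Bt Ct U V s : k[X]) :
    kap (Bt * Ct) (U + Bt * (Ct * X * s ^ 2 + Ct * (Ct * X * s ^ 2) ^ 2)) V =
      kap (Bt * Ct) U V + (Bt * Ct * s) ^ 4 := by
  have h2 : (2 : k[X]) = 0 := CharTwo.two_eq_zero
  have e : (U + Bt * (Ct * X * s ^ 2 + Ct * (Ct * X * s ^ 2) ^ 2)) * (Bt * Ct) =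
      U * (Bt * Ct) + ((Bt * Ct * (Ct * X * s ^ 2)) ^ 2 + X * (Bt * Ct * s) ^ 2) := by ring
  rw [kap, kap, e, derivative_add, derivative_sq_add]
  linear_combination (derivative (U * (Bt * Ct)) * (Bt * Ct * s) ^ 2) * h2

theorem p_BAD2b :
    S_BAD2b := by
  intro k _ _ _ A B Cc K D n S hB hC hBD hCD hn hS
  have h2 : (2 : k[X]) = 0 := CharTwo.two_eq_zero
  set bad : k[X] → Prop := fun g => ∃ P ∈ S (odp (Cc ^ 2 * g ^ 2 + B * g + A)),
    P ∣ kap (fr B * fr Cc) (evp (Cc ^ 2 * g ^ 2 + B * g + A))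
      (odp (Cc ^ 2 * g ^ 2 + B * g + A)) with hbad
  set v : k[X] → k[X] := fun x => B * expand k 2 (fr Cc * X * x ^ 2) with hv
  have hG : ∀ x ∈ low k D, ∀ g ∈ Gs (1 : k[X]) 0 n, g + v x ∈ Gs (1 : k[X]) 0 n := by
    intro x hx g hg
    refine add_mem_Gs hg (mem_low_of_natDegree_lt ?_) (one_dvd _)
    have a1 := natDegree_le_of_mem_low hx
    have a2 := natDegree_mul_le (p := fr Cc) (q := X)
    have a3 := natDegree_pow_le (p := x) (n := 2)
    have a4 := natDegree_mul_le (p := fr Cc * X) (q := x ^ 2)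
    have a5 := natDegree_expand 2 (fr Cc * X * x ^ 2)
    have a6 := natDegree_mul_le (p := B) (q := expand k 2 (fr Cc * X * x ^ 2))
    rw [natDegree_fr, natDegree_X] at a2
    simp only [hv]
    omega
  have hK : ∀ g, ((low k D).filter fun x => bad (g + v x)).card ≤ K := by
    intro g
    set U := evp (Cc ^ 2 * g ^ 2 + B * g + A)
    set V := odp (Cc ^ 2 * g ^ 2 + B * g + A)
    have hx : ∀ x ∈ (low k D).filter fun x => bad (g + v x),
        ∃ P ∈ S V, P ∣ kap (fr B * fr Cc) U V + (fr B * fr Cc * x) ^ 4 := by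
      intro x hx
      have h := (mem_filter.1 hx).2
      simp only [hbad, hv] at h
      rwa [BAD2b_eo, odp_eo, evp_eo, BAD2b_kap] at h
    choose! f hf1 hf2 using hx
    refine le_trans (card_le_card_of_injOn f (fun x hx => hf1 x hx) fun x hx y hy e => ?_) (hS V).1
    obtain ⟨hP, hD⟩ := (hS V).2 _ (hf1 x hx)
    have d1 := hf2 x hx
    have d2 := hf2 y hy
    rw [← e] at d2
    have d3 : f x ∣ (fr B * fr Cc * (x - y)) ^ 4 := by
      have : (fr B * fr Cc * (x - y)) ^ 4 = (kap (fr B * fr Cc) U V + (fr B * fr Cc * x) ^ 4) -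
          (kap (fr B * fr Cc) U V + (fr B * fr Cc * y) ^ 4) := by
        linear_combination ((fr B * fr Cc) ^ 4 *
          (-2 * x ^ 3 * y + 3 * x ^ 2 * y ^ 2 - 2 * x * y ^ 3 + y ^ 4)) * h2
      rw [this]
      exact dvd_sub d1 d2
    have nd : ∀ c : k[X], c ≠ 0 → c.natDegree < D → ¬f x ∣ fr c := fun c hc hd h => by
      have := natDegree_le_of_dvd h (fr_ne_zero hc)
      rw [natDegree_fr] at this
      omega
    have d4 := (hP.prime.dvd_or_dvd (hP.prime.dvd_of_dvd_pow d3)).resolve_left fun h =>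
      (hP.prime.dvd_or_dvd h).elim (nd B hB hBD) (nd Cc hC hCD)
    exact sub_eq_zero.1 (eq_zero_of_mem_low
      (sub_mem_low (mem_filter.1 hx).1 (mem_filter.1 hy).1) d4 hD)
  have h1 := sum_avg (Gs (1 : k[X]) 0 n) (low k D) v hG fun g => if bad g then 1 else 0
  rw [Finset.sum_boole, card_low,
    sum_congr rfl fun g _ => Finset.sum_boole (fun x => bad (g + v x)) (low k D)] at h1
  have h3 : ∑ g ∈ Gs (1 : k[X]) 0 n, (((low k D).filter fun x => bad (g + v x)).card : ℝ) ≤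
      (Gs (1 : k[X]) 0 n).card * K := by
    rw [← nsmul_eq_mul]
    exact sum_le_card_nsmul _ _ _ fun g _ => by exact_mod_cast hK g
  rw [← h1] at h3
  have h4 : Nat.card k ^ D * ((Gs (1 : k[X]) 0 n).filter bad).card ≤
      (Gs (1 : k[X]) 0 n).card * K := by
    exact_mod_cast h3
  have h5 := h4.trans (Nat.mul_le_mul_right _ (card_Gs_le (1 : k[X]) 0 n))
  rw [mul_comm, mul_comm K]
  refine le_trans (Nat.mul_le_mul_left _ (card_le_card fun g hg => ?_)) h5
  simp only [mem_filter] at hg ⊢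
  exact hg

end Pool.Agent.P.MP_8be758_nt.C2
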