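import Pool.Agent.P.MP_8be758_nt.C2.If

/-! Step COMP. -/

namespace Pool.Agent.P.MP_8be758_nt.C2

open Polynomial Finset Filter
open scoped Classical Topology

section
variable {k : Type} [Field k] [Finite k] [CharP k 2]

/-- a periodic function with bounded Fourier coefficients -/
def COMP_Ok (W : k[X]) (Φ : k[X] → ℝ) (C : ℝ) : Prop :=
  W ≠ 0 ∧ (∀ x y, Φ (x + W * y) = Φ x) ∧
    ∀ l : k[X], |∑ x ∈ low k W.natDegree, Φ x * psi (res W (l * x))| ≤ C

theorem COMP_sign {L : ℕ} {f : k[X] → ℝ} (hf : ∀ x y, f (x + y) = f x * f y) {v : k[X]}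
    (hv : v ∈ low k L) (h : f v = -1) : ∑ x ∈ low k L, f x = 0 := by
  have h1 := sum_shift (low k L) v (fun g hg => add_mem_low hg hv) f
  simp only [hf, h, mul_neg, mul_one, sum_neg_distrib] at h1
  linarith

theorem COMP_orth {W y : k[X]} (hW : W ≠ 0) (hy : y ≠ 0) (hd : y.natDegree < W.natDegree)
    {E : ℕ} (hE : W.natDegree - 1 - y.natDegree < E) :
    ∑ l ∈ low k E, psi (res W (l * y)) = 0 := by
  obtain ⟨z, hz⟩ := exists_psi_neg (K := k)
  have hlW : W.leadingCoeff ≠ 0 := leadingCoeff_ne_zero.2 hW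
  have hly : y.leadingCoeff ≠ 0 := leadingCoeff_ne_zero.2 hy
  set j := W.natDegree - 1 - y.natDegree with hj
  have hv : (C (z * W.leadingCoeff / y.leadingCoeff) * X ^ j : k[X]).natDegree ≤ j :=
    natDegree_C_mul_X_pow_le _ _
  refine COMP_sign (f := fun l => psi (res W (l * y))) (v := C (z * W.leadingCoeff / y.leadingCoeff) * X ^ j)
    (fun a b => by simp only [add_mul, res_add, psi_add])
    (mem_low_of_natDegree_lt (hv.trans_lt hE)) ?_
  have h1 : (C (z * W.leadingCoeff / y.leadingCoeff) * X ^ j * y).degree < W.degree := by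
    refine degree_lt_degree ?_
    have := natDegree_mul_le (p := C (z * W.leadingCoeff / y.leadingCoeff) * X ^ j) (q := y)
    omega
  have h2 : W.natDegree - 1 = y.natDegree + j := by omega
  show psi (res W _) = -1
  rw [res_of_lt h1, mul_assoc, coeff_C_mul, h2, coeff_X_pow_mul, coeff_natDegree, ← hz]
  congr 1
  field_simp

omit [CharP k 2] in
theorem COMP_perm {W c : k[X]} (hW : W ≠ 0) (hc : IsCoprime W c) {F : k[X] → ℝ}
    (hF : ∀ x y, F (x + W * y) = F x) :
    ∑ x ∈ low k W.natDegree, F (x * c) = ∑ x ∈ low k W.natDegree, F x := by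
  have hi : ∀ a ∈ low k W.natDegree, ∀ b ∈ low k W.natDegree,
      a * c % W = b * c % W → a = b := by
    intro a ha b hb h
    have h1 : W ∣ (a - b) * c := by
      refine ⟨a * c / W - b * c / W, ?_⟩
      have e1 := EuclideanDomain.div_add_mod (a * c) W
      have e2 := EuclideanDomain.div_add_mod (b * c) W
      linear_combination h - e1 + e2
    exact sub_eq_zero.1 (eq_zero_of_mem_low (sub_mem_low ha hb) (hc.dvd_of_dvd_mul_right h1) le_rfl)
  refine sum_bij (fun x _ => x * c % W) (fun a _ => mod_mem_low hW _)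
    (fun a ha b hb h => hi a ha b hb h) ?_ ?_
  · intro b hb
    obtain ⟨a, ha, h⟩ := surj_on_of_inj_on_of_card_le (s := low k W.natDegree)
      (t := low k W.natDegree) (fun x _ => x * c % W) (fun a _ => mod_mem_low hW _)
      (fun a b ha hb h => hi a ha b hb h) le_rfl b hb
    exact ⟨a, ha, h.symm⟩
  · intro a _
    rw [← hF (a * c % W) (a * c / W), add_comm, EuclideanDomain.div_add_mod]

omit [CharP k 2] in
theorem COMP_half {W c : k[X]} (hc : IsCoprime W c) {Φ : k[X] → ℝ} {C : ℝ} (h : COMP_Ok W Φ C)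
    (l : k[X]) : |∑ x ∈ low k W.natDegree, Φ (x * c) * psi (res W (l * x))| ≤ C := by
  obtain ⟨a, b, hab⟩ := id hc
  have h1 := COMP_perm h.1 hc (F := fun x => Φ x * psi (res W (l * b * x))) (fun x y => by
    show Φ _ * psi (res W _) = Φ _ * psi (res W _)
    rw [h.2.1, res_congr (H' := l * b * x) ⟨l * b * y, by ring⟩])
  have h2 := h.2.2 (l * b)
  rw [← h1] at h2
  refine le_of_eq_of_le ?_ h2
  congr 1
  refine sum_congr rfl fun x _ => ?_
  rw [res_congr (H := l * x) (H' := l * b * (x * c)) ⟨l * x * a, by linear_combination (-(l * x)) * hab⟩]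

theorem COMP_mul {W1 W2 : k[X]} (hc : IsCoprime W1 W2) {Φ1 Φ2 : k[X] → ℝ} {C1 C2 : ℝ}
    (h1 : COMP_Ok W1 Φ1 C1) (h2 : COMP_Ok W2 Φ2 C2) :
    COMP_Ok (W1 * W2) (fun x => Φ1 x * Φ2 x) (C1 * C2) := by
  refine ⟨mul_ne_zero h1.1 h2.1, fun x y => ?_, fun l => ?_⟩
  · show Φ1 _ * Φ2 _ = Φ1 _ * Φ2 _
    rw [mul_assoc, h1.2.1, mul_left_comm, h2.2.1]
  have hm : ∀ p ∈ low k W1.natDegree ×ˢ low k W2.natDegree,
      p.1 * W2 + p.2 * W1 ∈ low k (W1 * W2).natDegree := by
    intro p hp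
    rw [mem_product] at hp
    rw [natDegree_mul h1.1 h2.1, mul_comm p.1, mul_comm p.2]
    exact add_mem_low (mul_mem_low hp.1 (by omega)) (mul_mem_low hp.2 le_rfl)
  have hi : ∀ p ∈ low k W1.natDegree ×ˢ low k W2.natDegree,
      ∀ p' ∈ low k W1.natDegree ×ˢ low k W2.natDegree,
      p.1 * W2 + p.2 * W1 = p'.1 * W2 + p'.2 * W1 → p = p' := by
    intro p hp p' hp' h
    rw [mem_product] at hp hp'
    have e1 : W1 ∣ (p.1 - p'.1) * W2 := ⟨p'.2 - p.2, by linear_combination h⟩
    have e2 : W2 ∣ (p.2 - p'.2) * W1 := ⟨p'.1 - p.1, by linear_combination h⟩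
    exact Prod.ext
      (sub_eq_zero.1 (eq_zero_of_mem_low (sub_mem_low hp.1 hp'.1) (hc.dvd_of_dvd_mul_right e1)
        le_rfl))
      (sub_eq_zero.1 (eq_zero_of_mem_low (sub_mem_low hp.2 hp'.2)
        (hc.symm.dvd_of_dvd_mul_right e2) le_rfl))
  have hs : ∑ p ∈ low k W1.natDegree ×ˢ low k W2.natDegree,
      (Φ1 (p.1 * W2) * psi (res W1 (l * p.1))) * (Φ2 (p.2 * W1) * psi (res W2 (l * p.2))) =
      ∑ x ∈ low k (W1 * W2).natDegree, Φ1 x * Φ2 x * psi (res (W1 * W2) (l * x)) := by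
    refine sum_bij (fun p _ => p.1 * W2 + p.2 * W1) hm (fun a ha b hb h => hi a ha b hb h) ?_ ?_
    · intro b hb
      obtain ⟨a, ha, h⟩ := surj_on_of_inj_on_of_card_le
        (s := low k W1.natDegree ×ˢ low k W2.natDegree)
        (t := low k (W1 * W2).natDegree) (fun p _ => p.1 * W2 + p.2 * W1) hm
        (fun a b ha hb h => hi a ha b hb h)
        (by rw [card_product, card_low, card_low, card_low, natDegree_mul h1.1 h2.1, pow_add]) b hb
      exact ⟨a, ha, h.symm⟩
    · intro p _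
      have e1 : Φ1 (p.1 * W2 + p.2 * W1) = Φ1 (p.1 * W2) := by rw [mul_comm p.2, h1.2.1]
      have e2 : Φ2 (p.1 * W2 + p.2 * W1) = Φ2 (p.2 * W1) := by
        rw [add_comm, mul_comm p.1, h2.2.1]
      have e3 : l * (p.1 * W2 + p.2 * W1) = l * p.1 * W2 + l * p.2 * W1 := by ring
      rw [e1, e2, e3, res_split h1.1 h2.1, psi_add]
      ring
  have b1 := COMP_half hc h1 l
  have b2 := COMP_half hc.symm h2 l
  show |∑ x ∈ low k (W1 * W2).natDegree, Φ1 x * Φ2 x * psi (res (W1 * W2) (l * x))| ≤ _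
  rw [← hs, sum_product' (f := fun a b =>
    (Φ1 (a * W2) * psi (res W1 (l * a))) * (Φ2 (b * W1) * psi (res W2 (l * b)))),
    ← sum_mul_sum, abs_mul]
  exact mul_le_mul b1 b2 (abs_nonneg _) ((abs_nonneg _).trans b1)

theorem COMP_prod (s : Finset k[X]) (φ : k[X] → k[X] → ℝ) (Cb : k[X] → ℝ)
    (h1 : ∀ P ∈ s, P.Monic ∧ Irreducible P) (h2 : ∀ P ∈ s, COMP_Ok P (φ P) (Cb P)) :
    COMP_Ok (∏ P ∈ s, P) (fun x => ∏ P ∈ s, φ P x) (∏ P ∈ s, Cb P) := by
  induction s using Finset.induction_on with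
  | empty =>
    refine ⟨by simp, fun x y => by simp, fun l => ?_⟩
    refine (abs_sum_le_sum_abs _ _).trans ?_
    simp [abs_psi, card_low]
  | insert P s hP ih =>
    simp only [prod_insert hP]
    have a := h1 P (mem_insert_self _ _)
    refine COMP_mul (IsCoprime.prod_right fun Q hQ => ?_) (h2 P (mem_insert_self _ _))
      (ih (fun Q hQ => h1 Q (mem_insert_of_mem hQ)) fun Q hQ => h2 Q (mem_insert_of_mem hQ))
    have b := h1 Q (mem_insert_of_mem hQ)
    refine a.2.coprime_iff_not_dvd.2 fun h => hP ?_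
    rw [eq_of_monic_of_associated a.1 b.1 (a.2.associated_of_dvd b.2 h)]
    exact hQ

theorem COMP_dual {W : k[X]} (hW : W ≠ 0) {χ : k[X] → ℝ} {L : ℕ}
    (h1 : ∀ x y, χ (x + y) = χ x * χ y) (h2 : ∀ x, χ x = 1 ∨ χ x = -1) (hL : L ≤ W.natDegree) :
    ∃ l0 : k[X], ∀ x ∈ low k L, χ x = psi (res W (l0 * x)) := by
  have h0 : χ 0 = 1 := by
    have := h1 0 0
    rw [add_zero] at this
    rcases h2 0 with h | h
    · exact h
    · rw [h] at this; norm_num at this
  by_contra hne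
  push Not at hne
  have hz : ∀ l ∈ low k W.natDegree, ∑ x ∈ low k L, χ x * psi (res W (l * x)) = 0 := by
    intro l _
    obtain ⟨v, hv, h⟩ := hne l
    refine COMP_sign (f := fun x => χ x * psi (res W (l * x))) (fun a b => ?_) hv ?_
    · simp only [mul_add, res_add, psi_add, h1]
      ring
    · show χ v * psi _ = -1
      rcases h2 v with a | a <;> rcases psi_eq (res W (l * v)) with b | b <;>
        simp only [a, b] at h ⊢ <;> first | exact absurd rfl h | norm_num
  have hs := sum_eq_zero hz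
  rw [sum_comm, sum_eq_single_of_mem 0 (zero_mem_low L)] at hs
  · simp only [mul_zero, res_zero, psi_zero, h0, mul_one, sum_const, card_low, nsmul_eq_mul,
      Nat.cast_eq_zero] at hs
    have := two_le_card (k := k)
    exact absurd hs (pow_ne_zero _ (by omega))
  · intro x hx hx0
    have := natDegree_lt_of_mem_low hx hx0
    rw [← mul_sum, COMP_orth hW hx0 (by omega) (by omega), mul_zero]

theorem COMP_fin {W : k[X]} {Φ : k[X] → ℝ} {C : ℝ} (h : COMP_Ok W Φ C) {χ : k[X] → ℝ} {L : ℕ}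
    (h1 : ∀ x y, χ (x + y) = χ x * χ y) (h2 : ∀ x, χ x = 1 ∨ χ x = -1) (hL : L ≤ W.natDegree) :
    |∑ x ∈ low k L, χ x * Φ x| ≤ C := by
  obtain ⟨l0, hl⟩ := COMP_dual h.1 h1 h2 hL
  have hq : (0 : ℝ) < (low k (W.natDegree - L)).card :=
    Nat.cast_pos.2 (card_pos.2 ⟨0, zero_mem_low _⟩)
  have e : ∑ l ∈ low k (W.natDegree - L), ∑ x ∈ low k W.natDegree,
      Φ x * psi (res W ((l0 + l) * x)) =
      (low k (W.natDegree - L)).card * ∑ x ∈ low k L, χ x * Φ x := by
    rw [sum_comm, mul_sum]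
    symm
    refine sum_subset_zero_on_sdiff (low_mono hL) (fun x hx => ?_) fun x hx => ?_
    · rw [Finset.mem_sdiff] at hx
      have hx0 : x ≠ 0 := fun e => hx.2 (e ▸ zero_mem_low L)
      have a1 := natDegree_lt_of_mem_low hx.1 hx0
      have a2 : ¬ x.natDegree < L := fun e => hx.2 (mem_low_of_natDegree_lt e)
      simp only [add_mul, res_add, psi_add, ← mul_assoc]
      rw [← mul_sum, COMP_orth h.1 hx0 a1 (by omega), mul_zero]
    · rw [hl x hx, ← nsmul_eq_mul, ← sum_const]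
      refine sum_congr rfl fun l hl' => ?_
      have : res W (l * x) = 0 := by
        by_cases a : l = 0
        · rw [a, zero_mul, res_zero]
        by_cases b : x = 0
        · rw [b, mul_zero, res_zero]
        have a1 := natDegree_lt_of_mem_low hl' a
        have b1 := natDegree_lt_of_mem_low hx b
        have := natDegree_mul_le (p := l) (q := x)
        exact res_eq_zero (by omega)
      rw [add_mul, res_add, this, add_zero, mul_comm]
  refine le_of_mul_le_mul_left ?_ hq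
  rw [← abs_of_pos hq, ← abs_mul, ← e, abs_of_pos hq, ← nsmul_eq_mul, ← sum_const]
  exact (abs_sum_le_sum_abs _ _).trans (sum_le_sum fun l _ => h.2.2 _)

end

theorem p_COMP :
    S_COMP := by
  intro k _ _ _ s φ Cb χ L h1 h2 h3 h4 h5 hL
  refine COMP_fin (COMP_prod s φ Cb h1 fun P hP => ⟨(h1 P hP).2.ne_zero, h2 P hP, h3 P hP⟩)
    h4 h5 ?_
  rwa [natDegree_prod _ _ fun P hP => (h1 P hP).2.ne_zero]

end Pool.Agent.P.MP_8be758_nt.C2
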