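import Pool.Agent.P.MP_8be758_nt.C2.If2

/-! Step COR2. -/

namespace Pool.Agent.P.MP_8be758_nt.C2

open Polynomial Finset Filter
open scoped Classical Topology

theorem COR2_deg {k : Type} [Field k] (Bt cc x : k[X]) {L : ℕ} (hx : x.natDegree ≤ L) :
    (Bt * (x + cc * x ^ 2) ^ 2).natDegree ≤ Bt.natDegree + 2 * cc.natDegree + 4 * L := by
  have a1 := natDegree_mul_le (p := Bt) (q := (x + cc * x ^ 2) ^ 2)
  have a2 := natDegree_pow_le (p := x + cc * x ^ 2) (n := 2)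
  have a3 := natDegree_add_le x (cc * x ^ 2)
  have a4 := natDegree_mul_le (p := cc) (q := x ^ 2)
  have a5 := natDegree_pow_le (p := x) (n := 2)
  omega

theorem COR2_prod {k : Type} [Field k] (s : Finset k[X]) (Cs q : ℝ) (hq : 0 ≤ q) :
    ∏ P ∈ s, Cs * √(q ^ P.natDegree) = Cs ^ s.card * √(q ^ (∑ P ∈ s, P.natDegree)) := by
  induction s using Finset.induction_on with
  | empty => simp
  | insert a s ha ih =>
    rw [prod_insert ha, sum_insert ha, card_insert_of_notMem ha, ih, pow_succ Cs, pow_add q,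
      Real.sqrt_mul (pow_nonneg hq _)]
    ring

theorem p_COR2 (hINF : S_INF) (hCOMP : S_COMP) (hLKS2 : S_LKS2) :
    S_COR2 := by
  obtain ⟨Cs, hCs, hL⟩ := hLKS2
  refine ⟨Cs, hCs, ?_⟩
  intro k _ _ _ U V Bt cc Om h s c u b L L0 dh hU hBt hV hOm hs hLL hLs hh hdh hn c1 c2 β hβ
  have h2 : (2 : k[X]) = 0 := CharTwo.two_eq_zero
  obtain ⟨q, hq⟩ : ∃ q : ℝ, q = ((Nat.card k : ℝ)) := ⟨_, rfl⟩
  have hq0 : 0 ≤ q := hq ▸ Nat.cast_nonneg _
  obtain ⟨G, hG⟩ : ∃ G : k[X] → ℝ, G = (fun x => β (x + cc * x ^ 2) * β ((x + h) + cc * (x + h) ^ 2)) := ⟨_, rfl⟩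
  obtain ⟨Bd, hBd⟩ : ∃ Bd : ℝ, Bd = (Cs ^ s.card * √(q ^ (∑ P ∈ s, P.natDegree))) := ⟨_, rfl⟩
  have inner : ∀ x0 ∈ low k L0, |∑ y ∈ low k L, G (x0 + y)| ≤ Bd := by
    intro x0 hx0
    have hx0d : x0.natDegree ≤ L0 := (natDegree_le_of_mem_low hx0).trans (Nat.sub_le _ _)
    obtain ⟨U1, hU1⟩ : ∃ U1, U1 = (U + Bt * (x0 + cc * x0 ^ 2) ^ 2) := ⟨_, rfl⟩
    have hd0 := COR2_deg Bt cc x0 hx0d
    have hlt0 : (Bt * (x0 + cc * x0 ^ 2) ^ 2).natDegree < U.natDegree := by omega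
    have hU1m : U1.Monic := hU1 ▸ hU.add_of_left (degree_lt_degree hlt0)
    have hU1d : U1.natDegree = U.natDegree := hU1 ▸ natDegree_add_eq_left_of_natDegree_lt hlt0
    obtain ⟨W, hW⟩ : ∃ W, W = (Bt ^ 3 * V ^ 2) := ⟨_, rfl⟩
    obtain ⟨Cn, hCn⟩ : ∃ Cn, Cn = (X * Om ^ 6) := ⟨_, rfl⟩
    obtain ⟨Eh, hEh⟩ : ∃ Eh, Eh = (Bt * (h + cc * h ^ 2) ^ 2) := ⟨_, rfl⟩
    obtain ⟨E, hE⟩ : ∃ E : k[X] → k[X], E = (fun y => Bt * (y + cc * y ^ 2) ^ 2) := ⟨_, rfl⟩
    have hW0 : W ≠ 0 := hW ▸ mul_ne_zero (pow_ne_zero _ hBt) (pow_ne_zero _ hV)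
    have hWd : W.natDegree = 3 * Bt.natDegree + 2 * V.natDegree := by
      rw [hW, natDegree_mul (pow_ne_zero _ hBt) (pow_ne_zero _ hV), natDegree_pow, natDegree_pow]
    have hCnd : Cn.natDegree ≤ 1 + 6 * Om.natDegree := by
      have a1 := natDegree_mul_le (p := (X : k[X])) (q := Om ^ 6)
      have a2 := natDegree_pow_le (p := Om) (n := 6)
      rw [natDegree_X, ← hCn] at a1
      omega
    have hEhd : Eh.natDegree ≤ Bt.natDegree + 2 * cc.natDegree + 4 * dh := hEh ▸ COR2_deg Bt cc h hh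
    obtain ⟨χ, hχ⟩ : ∃ χ : k[X] → ℝ, χ = (fun y =>
      psi (res (W * (U1 * (U1 + Eh)) ^ 2) (Cn * Eh * (E y ^ 2 + E y * Eh)))) := ⟨_, rfl⟩
    obtain ⟨φ, hφ⟩ : ∃ φ : k[X] → k[X] → ℝ, φ = (fun P y =>
      lk P (c P) ((u P + b P * (x0 + cc * x0 ^ 2)) + b P * (y + cc * y ^ 2)) *
        lk P (c P) ((u P + b P * (x0 + cc * x0 ^ 2)) + b P * (y + cc * y ^ 2) +
          b P * (h + cc * h ^ 2))) := ⟨_, rfl⟩
    have hEadd : ∀ x y, E (x + y) = E x + E y := fun x y => by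
      simp only [hE]
      have e1 : (x + y) + cc * (x + y) ^ 2 = (x + cc * x ^ 2) + (y + cc * y ^ 2) := by
        linear_combination (cc * x * y) * h2
      rw [e1]
      linear_combination (Bt * (x + cc * x ^ 2) * (y + cc * y ^ 2)) * h2
    have hterm : ∀ y ∈ low k L, G (x0 + y) =
        psi (res (W * (U1 * (U1 + Eh))) (Cn * Eh)) * (χ y * ∏ P ∈ s, φ P y) := by
      intro y hy
      have hyd : y.natDegree ≤ L := (natDegree_le_of_mem_low hy).trans (Nat.sub_le _ _)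
      have hEd : (E y).natDegree ≤ Bt.natDegree + 2 * cc.natDegree + 4 * L := by
        rw [hE]; exact COR2_deg Bt cc y hyd
      have hXd : (E y ^ 2 + E y * Eh).natDegree ≤
          max (2 * (E y).natDegree) ((E y).natDegree + Eh.natDegree) :=
        (natDegree_add_le _ _).trans (max_le_max natDegree_pow_le natDegree_mul_le)
      have hI := hINF k W Cn U1 Eh (E y) hU1m hW0 (by omega) (by omega) (by omega)
      have e1 : (x0 + y) + cc * (x0 + y) ^ 2 = (x0 + cc * x0 ^ 2) + (y + cc * y ^ 2) := by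
        linear_combination (cc * x0 * y) * h2
      have e2 : (x0 + y + h) + cc * (x0 + y + h) ^ 2 =
          (x0 + cc * x0 ^ 2) + (y + cc * y ^ 2) + (h + cc * h ^ 2) := by
        linear_combination (cc * (x0 * y + x0 * h + y * h)) * h2
      have e3 : U + Bt * ((x0 + cc * x0 ^ 2) + (y + cc * y ^ 2)) ^ 2 = U1 + E y := by
        simp only [hU1, hE]
        linear_combination (Bt * (x0 + cc * x0 ^ 2) * (y + cc * y ^ 2)) * h2
      have e4 : U + Bt * ((x0 + cc * x0 ^ 2) + (y + cc * y ^ 2) + (h + cc * h ^ 2)) ^ 2 =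
          U1 + E y + Eh := by
        simp only [hU1, hE, hEh]
        linear_combination (Bt * ((x0 + cc * x0 ^ 2) * (y + cc * y ^ 2) +
          (x0 + cc * x0 ^ 2) * (h + cc * h ^ 2) + (y + cc * y ^ 2) * (h + cc * h ^ 2))) * h2
      simp only [hG]
      rw [hβ, hβ, e1, e2, e3, e4, ← hW, ← hCn, mul_mul_mul_comm, ← psi_add, hI, psi_add, ← prod_mul_distrib,
        mul_assoc]
      simp only [hχ]
      congr 2
      refine prod_congr rfl fun P _ => ?_
      simp only [hφ, mul_add, add_assoc]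
    rw [sum_congr rfl hterm, ← mul_sum, abs_mul, abs_psi, one_mul, hBd, ← COR2_prod s Cs q hq0]
    refine hCOMP k s φ (fun P => Cs * √(q ^ P.natDegree)) χ L (fun P hP => ⟨(hs P hP).1, (hs P hP).2.1⟩)
      ?_ ?_ ?_ (fun y => by rw [hχ]; exact psi_eq _) hLs
    · intro P _ x y
      simp only [hφ]
      refine congrArg₂ (· * ·) ?_ ?_
      · refine lk_congr (by simp) ⟨b P * (y + cc * (2 * x * y + P * y ^ 2)), by ring⟩
      · refine lk_congr (by simp) ⟨b P * (y + cc * (2 * x * y + P * y ^ 2)), by ring⟩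
    · intro P hP l
      obtain ⟨p1, p2, p3, p4, p5⟩ := hs P hP
      simp only [hφ, hq]
      refine hL k P (c P) _ (b P) cc _ l p1 p2 p3 p4 fun hd => ?_
      rcases p2.prime.dvd_or_dvd hd with h' | h'
      · exact p4 h'
      · exact p5 h'
    · intro x y
      simp only [hχ]
      rw [← psi_add, ← res_add, hEadd]
      congr 2
      linear_combination (Cn * Eh * E x * E y) * h2
  have havg := sum_avg (low k L0) (low k L) (fun y => y)
    (fun t ht g hg => add_mem_low hg (low_mono hLL ht)) G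
  rw [card_low, Nat.cast_pow, ← hq] at havg
  rw [← hq, ← hBd]
  have hG' : ∀ x, β (x + cc * x ^ 2) * β ((x + h) + cc * (x + h) ^ 2) = G x := fun x => by rw [hG]
  simp only [hG']
  calc |∑ x ∈ low k L0, G x| * q ^ L = |q ^ L * ∑ x ∈ low k L0, G x| := by
        rw [abs_mul, abs_of_nonneg (pow_nonneg hq0 _), mul_comm]
    _ ≤ ∑ x0 ∈ low k L0, |∑ y ∈ low k L, G (x0 + y)| := by
        rw [havg]; exact abs_sum_le_sum_abs _ _
    _ ≤ ∑ _x0 ∈ low k L0, Bd := sum_le_sum inner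
    _ = q ^ L0 * Bd := by rw [sum_const, card_low, nsmul_eq_mul, Nat.cast_pow, hq]

end Pool.Agent.P.MP_8be758_nt.C2
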