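import Pool.Agent.P.MP_8be758_nt.C2.If2

/-! Step CORE2. -/

namespace Pool.Agent.P.MP_8be758_nt.C2

open Polynomial Finset Filter
open scoped Classical Topology

theorem CORE2_bad {k : Type} [Field k] [Finite k] (cc V1 : k[X]) (s : Finset k[X]) (H : ℕ)
    (hs : ∀ P ∈ s, Irreducible P ∧ ¬ P ∣ V1 ∧ ¬ P ∣ cc ∧ H ≤ P.natDegree) :
    ((low k H).filter (fun y => ∃ P ∈ s, P ∣ V1 * y + cc * (V1 * y) ^ 2)).card ≤
      s.card + 1 := by
  have hsub : (low k H).filter (fun y => ∃ P ∈ s, P ∣ V1 * y + cc * (V1 * y) ^ 2) ⊆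
      insert 0 (s.biUnion fun P => (low k H).filter (fun y => P ∣ 1 + cc * (V1 * y))) := by
    intro y hy
    obtain ⟨hy1, P, hP, hd⟩ := mem_filter.1 hy
    obtain ⟨h1, h2, h3, h4⟩ := hs P hP
    have hp := h1.prime
    have e : V1 * y + cc * (V1 * y) ^ 2 = (V1 * y) * (1 + cc * (V1 * y)) := by ring
    rw [e] at hd
    rcases hp.dvd_or_dvd hd with h | h
    · have hy0 : P ∣ y := (hp.dvd_or_dvd h).resolve_left h2
      rw [eq_zero_of_mem_low hy1 hy0 h4]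
      exact mem_insert_self _ _
    · exact mem_insert_of_mem (mem_biUnion.2 ⟨P, hP, mem_filter.2 ⟨hy1, h⟩⟩)
  refine (card_le_card hsub).trans ((card_insert_le _ _).trans ?_)
  refine Nat.succ_le_succ ?_
  refine (card_biUnion_le_card_mul _ _ 1 fun P hP => ?_).trans (by simp)
  obtain ⟨h1, h2, h3, h4⟩ := hs P hP
  have hp := h1.prime
  refine card_le_one.2 fun y hy y' hy' => ?_
  obtain ⟨a1, a2⟩ := mem_filter.1 hy
  obtain ⟨b1, b2⟩ := mem_filter.1 hy'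
  have h := dvd_sub a2 b2
  have e : 1 + cc * (V1 * y) - (1 + cc * (V1 * y')) = cc * (V1 * (y - y')) := by ring
  rw [e] at h
  have hy0 : P ∣ y - y' := (hp.dvd_or_dvd ((hp.dvd_or_dvd h).resolve_left h3)).resolve_left h2
  exact sub_eq_zero.1 (eq_zero_of_mem_low (sub_mem_low a1 b1) hy0 h4)

theorem CORE2_num (q T c Q : ℝ) (d D1 : ℕ) (hq : 2 ≤ q) (hT : 0 ≤ T) (hc : 0 ≤ c) (hQ : 0 ≤ Q)
    (h : T * q ^ ((d + 1) / 2 + D1) ≤ Q * (c * √(q ^ d))) : T ≤ Q * (c / 2 ^ D1) := by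
  have hq0 : (0 : ℝ) < q := by linarith
  have h1 : √(q ^ d) ≤ q ^ ((d + 1) / 2) := by
    refine Real.sqrt_le_iff.2 ⟨by positivity, ?_⟩
    rw [← pow_mul]
    exact pow_le_pow_right₀ (by linarith) (by omega)
  have h2 : T * q ^ D1 ≤ Q * c := by
    have hp : (0 : ℝ) < q ^ ((d + 1) / 2) := by positivity
    refine le_of_mul_le_mul_right ?_ hp
    calc T * q ^ D1 * q ^ ((d + 1) / 2) = T * q ^ ((d + 1) / 2 + D1) := by rw [pow_add]; ring
      _ ≤ Q * (c * √(q ^ d)) := h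
      _ ≤ Q * (c * q ^ ((d + 1) / 2)) := by gcongr
      _ = _ := by ring
  have h3 : (2 : ℝ) ^ D1 ≤ q ^ D1 := pow_le_pow_left₀ (by norm_num) hq _
  rw [← mul_div_assoc, le_div_iff₀ (by positivity)]
  exact (mul_le_mul_of_nonneg_left h3 hT).trans h2

theorem p_CORE2 (hDEC2 : S_DEC2) (hVDC : S_VDC) (hCOR2 : S_COR2) :
    S_CORE2 := by
  obtain ⟨Cs, hCs, hC⟩ := hCOR2
  refine ⟨Cs, hCs, ?_⟩
  intro k _ _ _ U V Bt cc V1 s K H D1 L0 hU hBt hV1 hV hVU hK hne hs n1 n2 n3 n4 n5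
  have htwo : (2 : k[X]) = 0 := CharTwo.two_eq_zero
  have hq : (2 : ℝ) ≤ (Nat.card k : ℝ) := by exact_mod_cast two_le_card (k := k)
  have hq0 : (0 : ℝ) < (Nat.card k : ℝ) := by linarith
  obtain ⟨a, χ, Om, c, u, b, ha1, ha2, hχ1, hχ2, hOm, hcb, hdec⟩ :=
    hDEC2 k U V Bt V1 s hU hBt hV1 hV hVU
      (fun P hP => ⟨(hs P hP).1, (hs P hP).2.1, (hs P hP).2.2.1, (hs P hP).2.2.2.1,
        (hs P hP).2.2.2.2.2.1⟩)
  obtain ⟨β, hβ⟩ : ∃ β : k[X] → ℝ, ∀ z, β z =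
      psi (res ((U + Bt * z ^ 2) * (Bt ^ 3 * V ^ 2)) (X * Om ^ 6)) *
        ∏ P ∈ s, lk P (c P) (u P + b P * z) := ⟨_, fun _ => rfl⟩
  have hβ1 : ∀ x, |β x| ≤ 1 := by
    intro x
    rw [hβ, abs_mul, abs_psi, one_mul, Finset.abs_prod]
    exact prod_le_one (fun _ _ => abs_nonneg _) (fun _ _ => abs_lk_le _ _ _)
  have hpm : (∏ P ∈ s, P).Monic := monic_prod_of_monic _ _ fun P hP => (hs P hP).1
  have hV0 : V ≠ 0 := by rw [hV]; exact mul_ne_zero hV1 hpm.ne_zero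
  have hdV : V.natDegree = V1.natDegree + ∑ P ∈ s, P.natDegree := by
    rw [hV, natDegree_mul hV1 hpm.ne_zero, natDegree_prod_of_monic _ _ fun P hP => (hs P hP).1]
  have hd2 : 2 * D1 + 1 ≤ ∑ P ∈ s, P.natDegree := by
    obtain ⟨P, hP⟩ := hne
    exact (hs P hP).2.2.2.2.2.2.2.trans
      (single_le_sum (f := fun P : k[X] => P.natDegree) (fun _ _ => Nat.zero_le _) hP)
  have hterm : ∑ x ∈ low k L0, mu (eo (U + Bt * (x + cc * x ^ 2) ^ 2) V) =
      ∑ x ∈ low k L0, a (x + cc * x ^ 2) * (χ (x + cc * x ^ 2) * β (x + cc * x ^ 2)) := by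
    refine sum_congr rfl fun x hx => ?_
    have h1 := natDegree_le_of_mem_low hx
    have h2 := natDegree_mul_le (p := cc) (q := x ^ 2)
    have h3 := natDegree_pow_le (p := x) (n := 2)
    have h4 := natDegree_add_le x (cc * x ^ 2)
    rw [hdec (x + cc * x ^ 2) (by omega), hβ, mul_assoc (χ (x + cc * x ^ 2))]
  have hv := hVDC k (fun x => a (x + cc * x ^ 2))
    (fun x => χ (x + cc * x ^ 2) * β (x + cc * x ^ 2)) V1 L0 H n1
    (fun x => ha1 _) (fun x y => by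
      have e : x + V1 * y + cc * (x + V1 * y) ^ 2 =
          x + cc * x ^ 2 + V1 * (y + cc * V1 * y ^ 2) := by
        linear_combination (cc * x * V1 * y) * htwo
      simp only [e, ha2])
  have habs : ∀ h : k[X], |∑ x ∈ low k L0, χ (x + cc * x ^ 2) * β (x + cc * x ^ 2) *
      (χ (x + h + cc * (x + h) ^ 2) * β (x + h + cc * (x + h) ^ 2))| =
      |∑ x ∈ low k L0, β (x + cc * x ^ 2) * β (x + h + cc * (x + h) ^ 2)| := by
    intro h
    have e : ∑ x ∈ low k L0, χ (x + cc * x ^ 2) * β (x + cc * x ^ 2) *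
        (χ (x + h + cc * (x + h) ^ 2) * β (x + h + cc * (x + h) ^ 2)) =
        χ (h + cc * h ^ 2) *
          ∑ x ∈ low k L0, β (x + cc * x ^ 2) * β (x + h + cc * (x + h) ^ 2) := by
      rw [mul_sum]
      refine sum_congr rfl fun x _ => ?_
      have e0 : x + h + cc * (x + h) ^ 2 = x + cc * x ^ 2 + (h + cc * h ^ 2) := by
        linear_combination (cc * x * h) * htwo
      have e1 : χ (x + h + cc * (x + h) ^ 2) = χ (x + cc * x ^ 2) * χ (h + cc * h ^ 2) := by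
        rw [e0, hχ1]
      have e2 : χ (x + cc * x ^ 2) * χ (x + cc * x ^ 2) = 1 := by
        rcases hχ2 (x + cc * x ^ 2) with h | h <;> simp [h]
      rw [e1]
      linear_combination (χ (h + cc * h ^ 2) *
        (β (x + cc * x ^ 2) * β (x + h + cc * (x + h) ^ 2))) * e2
    have e3 : |χ (h + cc * h ^ 2)| = 1 := by
      rcases hχ2 (h + cc * h ^ 2) with h | h <;> simp [h]
    rw [e, abs_mul, e3, one_mul]
  set Q : ℝ := (Nat.card k : ℝ) ^ L0 with hQ
  have hQ0 : 0 < Q := by positivity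
  have hc0 : (0 : ℝ) ≤ Cs ^ K / 2 ^ D1 := by
    have : (0 : ℝ) ≤ Cs := by linarith
    positivity
  have hone : ∀ y ∈ low k H,
      |∑ x ∈ low k L0, β (x + cc * x ^ 2) * β (x + V1 * y + cc * (x + V1 * y) ^ 2)| ≤
      Q * (if ∃ P ∈ s, P ∣ V1 * y + cc * (V1 * y) ^ 2 then 1 else 0) +
        Q * (Cs ^ K / 2 ^ D1) := by
    intro y hy
    split_ifs with hbad
    · have h1 : |∑ x ∈ low k L0,
          β (x + cc * x ^ 2) * β (x + V1 * y + cc * (x + V1 * y) ^ 2)| ≤ Q := by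
        refine (abs_sum_le_sum_abs _ _).trans ?_
        refine (sum_le_card_nsmul _ _ (1 : ℝ) fun x _ => ?_).trans ?_
        · rw [abs_mul]
          exact mul_le_one₀ (hβ1 _) (abs_nonneg _) (hβ1 _)
        · rw [card_low, nsmul_eq_mul, mul_one, hQ]
          push_cast
          exact le_rfl
      have h2 := mul_nonneg hQ0.le hc0
      linarith
    · push Not at hbad
      have h1 := natDegree_le_of_mem_low hy
      have h2 := natDegree_mul_le (p := V1) (q := y)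
      have h3 := hC k U V Bt cc Om (V1 * y) s c u b ((∑ P ∈ s, P.natDegree + 1) / 2 + D1) L0
        (V1.natDegree + H) hU hBt hV0 hOm
        (fun P hP => ⟨(hs P hP).1, (hs P hP).2.1, (hcb P hP).1, (hcb P hP).2, hbad P hP⟩)
        (by omega) (by omega) (by omega) n1 n2 (by omega) (by omega) β hβ
      have h4 := CORE2_num _ _ (Cs ^ s.card) Q _ D1 hq (abs_nonneg _)
        (pow_nonneg (by linarith) _) hQ0.le h3
      have h5 : Cs ^ s.card ≤ Cs ^ K := pow_le_pow_right₀ hCs hK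
      rw [mul_zero, zero_add]
      refine h4.trans ?_
      gcongr
  have hbadc := CORE2_bad cc V1 s H (fun P hP => ⟨(hs P hP).2.1, (hs P hP).2.2.1,
    (hs P hP).2.2.2.2.1, (hs P hP).2.2.2.2.2.2.1⟩)
  have hsum : ∑ y ∈ low k H,
      |∑ x ∈ low k L0, β (x + cc * x ^ 2) * β (x + V1 * y + cc * (x + V1 * y) ^ 2)| ≤
      Q * (K + 1) + (Nat.card k : ℝ) ^ H * (Q * (Cs ^ K / 2 ^ D1)) := by
    refine (sum_le_sum hone).trans ?_
    rw [sum_add_distrib, ← mul_sum, sum_boole, sum_const, card_low, nsmul_eq_mul]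
    push_cast
    have : (((low k H).filter (fun y => ∃ P ∈ s,
        P ∣ V1 * y + cc * (V1 * y) ^ 2)).card : ℝ) ≤ K + 1 := by
      exact_mod_cast hbadc.trans (Nat.succ_le_succ hK)
    gcongr
  simp only [habs] at hv
  rw [hterm]
  have hH : (0 : ℝ) < (Nat.card k : ℝ) ^ H := by positivity
  have h2H : (2 : ℝ) ^ H ≤ (Nat.card k : ℝ) ^ H := pow_le_pow_left₀ (by norm_num) hq _
  have hK1 : ((K : ℝ) + 1) ≤ (K + 1) / 2 ^ H * (Nat.card k : ℝ) ^ H := by
    rw [div_mul_eq_mul_div, le_div_iff₀ (by positivity)]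
    gcongr
  refine le_of_mul_le_mul_right (hv.trans ?_) hH
  calc Q * ∑ y ∈ low k H,
        |∑ x ∈ low k L0, β (x + cc * x ^ 2) * β (x + V1 * y + cc * (x + V1 * y) ^ 2)|
      ≤ Q * (Q * (K + 1) + (Nat.card k : ℝ) ^ H * (Q * (Cs ^ K / 2 ^ D1))) := by gcongr
    _ ≤ Q * (Q * ((K + 1) / 2 ^ H * (Nat.card k : ℝ) ^ H) +
          (Nat.card k : ℝ) ^ H * (Q * (Cs ^ K / 2 ^ D1))) := by gcongr
    _ = _ := by ring

end Pool.Agent.P.MP_8be758_nt.C2
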