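import Pool.Agent.P.MP_8be758_nt.C2.If

/-! Step DLOC. -/

namespace Pool.Agent.P.MP_8be758_nt.C2

open Polynomial Finset Filter
open scoped Classical Topology

theorem p_DLOC (hLAL : S_LAL) :
    S_DLOC := by
  intro k _ _ _ P U0 a V0 b B0 B1 _ hP h1 h2 h3 h4
  have := Fact.mk hP
  have := finite_adjoinRoot hP.ne_zero
  have := charP_adjoinRoot (P := P)
  have t2 : (2 : AdjoinRoot P) = 0 := CharTwo.two_eq_zero
  have t3 : (2 : k[X]) = 0 := CharTwo.two_eq_zero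
  obtain ⟨r2, e2⟩ := exists_sqrt (AdjoinRoot.mk P X)
  obtain ⟨r, rfl⟩ := exists_sqrt r2
  rw [kap, show (U0 ^ 2 + X * a ^ 2) * (B0 ^ 2 + X * B1 ^ 2) = (U0 * B0 + X * a * B1) ^ 2 +
    X * (a * B0 + B1 * U0) ^ 2 by linear_combination (-2 * X * U0 * B0 * a * B1) * t3,
    derivative_sq_add, derivative_sq_add] at h4
  simp only [← AdjoinRoot.mk_eq_zero (f := P), lk, lp_eq] at h1 h2 h3 h4 ⊢
  generalize hm : AdjoinRoot.mk P = m at *
  have hs : Function.Surjective m := hm ▸ AdjoinRoot.mk_surjective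
  simp only [map_add, map_mul, map_pow, map_sub, map_one, ← e2] at h1 h3 h4 ⊢
  have sq : ∀ x y : AdjoinRoot P, (x + r ^ 2 * y) ^ 2 = x ^ 2 + (r ^ 2) ^ 2 * y ^ 2 := fun x y => by
    rw [CharTwo.add_sq, mul_pow]
  have v0 : m V0 = r ^ 2 * m b := by
    rw [← sq, pow_eq_zero_iff two_ne_zero] at h1
    linear_combination h1 - r ^ 2 * m b * t2
  rw [← sq] at h3 h4
  have b0 : m B0 + r ^ 2 * m B1 ≠ 0 := fun e => h3 (by rw [e, zero_pow two_ne_zero])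
  have k0 : m a * m B0 + m B1 * m U0 + r * m b * (m B0 + r ^ 2 * m B1) ≠ 0 := fun e => h4 (by
    have := congrArg (fun x => (x ^ 2) ^ 2) e
    simp only [CharTwo.add_sq (m a * m B0 + m B1 * m U0), CharTwo.add_sq (_ ^ 2)] at this
    linear_combination this)
  have hL := fun z => hLAL (AdjoinRoot P) r (m a) (m b) (m U0) (m B0) (m B1) z h2 b0
  generalize m a * m B0 + m B1 * m U0 + r * m b * (m B0 + r ^ 2 * m B1) = ka at k0 hL
  obtain ⟨c, hc⟩ := hs (ka ^ 3 / (m b ^ 2 * (m B0 + r ^ 2 * m B1) ^ 3))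
  obtain ⟨u, hu⟩ := hs (m U0 + r ^ 2 * m a)
  obtain ⟨b', hb⟩ := hs (m B0 + r ^ 2 * m B1)
  refine ⟨c, u, b', _, fun z => psi ((ka * m B1 ^ 2 * m z + m B1 ^ 3 * (m B0 + r ^ 2 * m B1) *
    m z ^ 2) / (m b ^ 2 * (m B0 + r ^ 2 * m B1) ^ 2)), by rw [hc]; positivity, hb ▸ b0,
    psi_eq ((ka ^ 2 * m B1 + ka * m B1 ^ 2 * (m U0 + r ^ 2 * m a) + m B1 ^ 3 *
      (m U0 + r ^ 2 * m a) ^ 2) / (m b ^ 2 * (m B0 + r ^ 2 * m B1) ^ 3)),
    fun x y => ?_, fun x => psi_eq _, fun z => ?_⟩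
  · simp only [← psi_add, map_add, CharTwo.add_sq (m x)]
    congr 1
    ring
  have e : m U0 + r ^ 2 * m a + (m B0 + r ^ 2 * m B1) * m z =
    m U0 + m B0 * m z + r ^ 2 * (m a + m B1 * m z) := by ring
  rw [hc, hu, hb, ← sq, ← e]
  refine ⟨(pow_eq_zero_iff two_ne_zero).symm, fun w hw => ?_⟩
  have n : m U0 + r ^ 2 * m a + (m B0 + r ^ 2 * m B1) * m z ≠ 0 := fun e => by simp [e] at hw
  rw [if_neg n, mul_comm _ (psi (_ / _ / _)), ← mul_assoc, ← hL _ n, v0,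
    eq_div_of_mul_eq (pow_ne_zero 2 n) (sub_eq_zero.1 hw), e, sq, div_mul_eq_mul_div, div_div]
  congr 2 <;> ring

end Pool.Agent.P.MP_8be758_nt.C2
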