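import Pool.Agent.P.MP_8be758_nt.C2.If2

/-! Step GEN. -/

namespace Pool.Agent.P.MP_8be758_nt.C2

open Polynomial Finset Filter UniqueFactorizationMonoid
open scoped Classical Topology

namespace Gen

variable {k : Type} [Field k]

theorem sq_free (n : ℕ) : ∀ a : k[X], a ≠ 0 → a.natDegree = n →
    ∃ s a0 : k[X], a = s ^ 2 * a0 ∧ Squarefree a0 := by
  induction n using Nat.strong_induction_on with
  | _ n ih =>
  intro a ha hn
  by_cases h : Squarefree a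
  · exact ⟨1, a, by simp, h⟩
  obtain ⟨x, ⟨y, rfl⟩, hx⟩ : ∃ x, x * x ∣ a ∧ ¬ IsUnit x := by simpa [Squarefree] using h
  have h0 : x ≠ 0 := fun h => by simp [h] at ha
  have h1 := right_ne_zero_of_mul ha
  have h2 := natDegree_pos_iff_degree_pos.2 (degree_pos_of_ne_zero_of_nonunit h0 hx)
  rw [natDegree_mul (mul_ne_zero h0 h0) h1, natDegree_mul h0 h0] at hn
  obtain ⟨s, a0, rfl, h3⟩ := ih _ (by omega) y h1 rfl
  exact ⟨x * s, a0, by ring, h3⟩

theorem mu_C_mul {z : k} (hz : z ≠ 0) (f : k[X]) : mu (C z * f) = mu f := by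
  rw [mu, mu, (associated_unit_mul_left f _ (isUnit_C.2 hz.isUnit)).moebius_eq]

theorem mu_split {a0 : k[X]} (h : Squarefree a0) (c : k[X]) : ∃ (ε : ℝ) (d e c1 : k[X]),
    a0 = d * e ∧ ∀ Z, mu (c + a0 ^ 2 * Z) = ε * mu (e * c1 + d * e ^ 3 * Z) := by
  obtain ⟨e, c1, d, h1, rfl, rfl⟩ := exists_reduced_factors a0 h.ne_zero c
  obtain ⟨-, -, h2⟩ := squarefree_mul_iff.1 h
  have h3 : ∀ Z, mu (e * c1 + d * e ^ 3 * Z) = mu e * mu (c1 + d * e ^ 2 * Z) := fun Z => by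
    have := (h1.isCoprime.add_mul_left_right (d * e * Z)).isRelPrime.moebius_mul
    rw [mu, mu, mu, ← Int.cast_mul, show d * e ^ 2 * Z = e * (d * e * Z) by ring, ← this]
    congr 2; ring
  have h4 : mu e * mu e = 1 := by
    rw [mu, h2.moebius_eq, ← Int.cast_mul, ← mul_pow]; simp
  refine ⟨if IsCoprime d c1 then mu d * mu e else 0, d, e, c1, rfl, fun Z => ?_⟩
  rw [show d * c1 + (d * e) ^ 2 * Z = d * (c1 + d * (e ^ 2 * Z)) by ring, h3, ← mul_assoc d]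
  split_ifs with h5
  · have := (h5.add_mul_left_right (e ^ 2 * Z)).isRelPrime.moebius_mul
    rw [← mul_assoc] at this
    rw [mul_assoc (mu d), ← mul_assoc (mu e), h4, one_mul, mu, this, Int.cast_mul, mu, mu]
  · rw [zero_mul, mu, moebius_of_not_squarefree, Int.cast_zero]
    exact fun hs => h5 (by
      rw [mul_assoc] at hs
      exact (squarefree_mul_iff.1 hs).1.isCoprime.of_add_mul_left_right)

theorem sum_Gs [Finite k] {W M : k[X]} (hW : W.Monic) (hM : M ∣ W) (r : k[X]) {n : ℕ}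
    (hn : W.natDegree ≤ n) (φ : k[X] → ℝ) : ∑ g ∈ Gs M r n, φ g =
      ∑ ρ ∈ (low k W.natDegree).filter (fun ρ => M ∣ ρ - r),
        ∑ h ∈ Gs (1 : k[X]) 0 (n - W.natDegree), φ (ρ + W * h) := by
  have key : ∀ ρ ∈ low k W.natDegree, ∀ h : k[X], h ≠ 0 → (ρ + W * h).leadingCoeff =
      h.leadingCoeff ∧ (ρ + W * h).natDegree = W.natDegree + h.natDegree := fun ρ hρ h h0 => by
    have h1 : ρ.degree < (W * h).degree := by
      rw [mem_low, ← degree_eq_natDegree hW.ne_zero] at hρ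
      exact hρ.trans_le (degree_le_mul_left W h0)
    rw [leadingCoeff_add_of_degree_lt h1, natDegree_add_eq_right_of_degree_lt h1,
      leadingCoeff_monic_mul hW, natDegree_mul hW.ne_zero h0]
    exact ⟨rfl, rfl⟩
  rw [sum_sigma']
  refine (sum_bij (fun x _ => x.1 + W * x.2) ?_ ?_ ?_ fun _ _ => rfl).symm
  · rintro ⟨ρ, h⟩ hx
    simp only [mem_sigma, mem_filter, mem_Gs] at hx ⊢
    obtain ⟨⟨a1, a2⟩, a3, a4, -⟩ := hx
    obtain ⟨b1, b2⟩ := key ρ a1 h a3.ne_zero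
    exact ⟨b1.trans a3, by omega, by rw [add_sub_right_comm]; exact a2.add (hM.mul_right h)⟩
  · rintro ⟨ρ, h⟩ hx ⟨ρ', h'⟩ hx' e
    simp only [mem_sigma, mem_filter] at hx hx' e
    obtain rfl : ρ = ρ' := sub_eq_zero.1 (eq_zero_of_mem_low (sub_mem_low hx.1.1 hx'.1.1)
      ⟨h' - h, by linear_combination e⟩ le_rfl)
    rw [mul_left_cancel₀ hW.ne_zero (add_left_cancel e)]
  · intro g hg
    obtain ⟨a1, a2, a3⟩ := mem_Gs.1 hg
    have e := EuclideanDomain.mod_add_div g W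
    have b0 := mod_mem_low hW.ne_zero g
    have h0 : g / W ≠ 0 := fun h => by
      rw [h, mul_zero, add_zero] at e
      have := natDegree_lt_of_mem_low (e ▸ b0) a1.ne_zero
      omega
    obtain ⟨b1, b2⟩ := key _ b0 _ h0
    rw [e] at b1 b2
    refine ⟨⟨g % W, g / W⟩, ?_, e⟩
    simp only [mem_sigma, mem_filter, mem_Gs]
    refine ⟨⟨b0, ?_⟩, b1.symm.trans a1, by omega, one_dvd _⟩
    rw [show g % W - r = g - r - W * (g / W) by linear_combination e]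
    exact a3.sub (hM.mul_right _)

end Gen

open Gen

theorem gen_prog (hMAIN2 : S_MAIN2) (k : Type) [Field k] [Finite k] [CharP k 2]
    (a b c M r : k[X]) (ha : a ≠ 0) (hb : b ≠ 0) (hM : M ≠ 0) :
    Tendsto (fun n : ℕ => (∑ g ∈ Gs M r n, mu (a * g ^ 2 + b * g + c)) / (Nat.card k : ℝ) ^ n)
      atTop (𝓝 0) := by
  have main : ∀ A B Cc : k[X], B ≠ 0 → Cc ≠ 0 → Tendsto (fun n : ℕ => (∑ g ∈ Gs (1 : k[X]) 0 n,
      mu (Cc ^ 2 * g ^ 2 + B * g + A)) / (Nat.card k : ℝ) ^ n) atTop (𝓝 0) := fun A B Cc hB hC => by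
    have hz := pow_ne_zero 2 (inv_ne_zero (leadingCoeff_ne_zero.2 hC))
    refine (hMAIN2 k (C (Cc.leadingCoeff⁻¹ ^ 2) * A) (C (Cc.leadingCoeff⁻¹ ^ 2) * B) _
      (mul_ne_zero (C_ne_zero.2 hz) hB) (monic_mul_leadingCoeff_inv hC)).congr fun n => ?_
    congr 1
    refine sum_congr rfl fun g _ => ?_
    rw [← mu_C_mul hz (Cc ^ 2 * _ + _ + _), C_pow]
    congr 1; ring
  obtain ⟨s, a0, rfl, h0⟩ := sq_free _ a ha rfl
  have hs : s ≠ 0 := fun h => by simp [h] at ha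
  have h1 := mul_ne_zero (pow_ne_zero 2 h0.ne_zero) hM
  have hz := C_ne_zero.2 (inv_ne_zero (leadingCoeff_ne_zero.2 h1))
  have hW := monic_mul_leadingCoeff_inv h1
  generalize C (a0 ^ 2 * M).leadingCoeff⁻¹ = z at hz hW
  have hq : (Nat.card k : ℝ) ≠ 0 := by exact_mod_cast Nat.card_pos.ne'
  set w := (a0 ^ 2 * M * z).natDegree
  have key : ∀ ρ : k[X], Tendsto (fun n : ℕ => (∑ h ∈ Gs (1 : k[X]) 0 (n - w),
      mu (s ^ 2 * a0 * (ρ + a0 ^ 2 * M * z * h) ^ 2 + b * (ρ + a0 ^ 2 * M * z * h) + c)) /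
      (Nat.card k : ℝ) ^ n) atTop (𝓝 0) := fun ρ => by
    obtain ⟨ε, d, e, c1, e1, e2⟩ := mu_split h0 (s ^ 2 * a0 * ρ ^ 2 + b * ρ + c)
    have hd : d ≠ 0 := left_ne_zero_of_mul (e1 ▸ h0.ne_zero)
    have he : e ≠ 0 := right_ne_zero_of_mul (e1 ▸ h0.ne_zero)
    have := ((main (e * c1) (d * e ^ 3 * b * M * z) (d * e ^ 2 * s * a0 * M * z)
      (by simp [hd, he, hb, hM, hz]) (by simp [hd, he, hs, h0.ne_zero, hM, hz])).comp
      (tendsto_sub_atTop_nat w)).const_mul (ε / (Nat.card k : ℝ) ^ w)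
    rw [mul_zero] at this
    refine this.congr' ((eventually_ge_atTop w).mono fun n hn => ?_)
    obtain ⟨n, rfl⟩ := Nat.exists_eq_add_of_le hn
    simp only [Function.comp, Nat.add_sub_cancel_left]
    rw [div_mul_div_comm, ← pow_add, mul_sum]
    congr 1
    refine sum_congr rfl fun h _ => ?_
    have h2 : (2 : k[X]) = 0 := CharTwo.two_eq_zero
    rw [show s ^ 2 * a0 * (ρ + a0 ^ 2 * M * z * h) ^ 2 + b * (ρ + a0 ^ 2 * M * z * h) + c =
      s ^ 2 * a0 * ρ ^ 2 + b * ρ + c + a0 ^ 2 * (s ^ 2 * a0 ^ 3 * (M * z * h) ^ 2 + b * M * z * h)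
      by linear_combination s ^ 2 * a0 ^ 3 * ρ * M * z * h * h2, e2]
    congr 2
    rw [e1]; ring
  have := tendsto_finsetSum ((low k w).filter (fun ρ => M ∣ ρ - r)) fun ρ _ => key ρ
  rw [sum_const_zero] at this
  refine this.congr' ((eventually_ge_atTop w).mono fun n hn => ?_)
  simp only
  rw [sum_Gs hW ((dvd_mul_left M _).mul_right z) r hn, sum_div]

theorem p_GEN (hMAIN2 : S_MAIN2) :
    S_GEN := fun k _ _ _ a b c ha hb => gen_prog hMAIN2 k a b c 1 0 ha hb one_ne_zero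

end Pool.Agent.P.MP_8be758_nt.C2
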