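import Pool.Agent.P.MP_8be758_nt.C2.If

/-! Step LAL. -/

namespace Pool.Agent.P.MP_8be758_nt.C2

open Polynomial Finset Filter
open scoped Classical Topology

theorem LAL_one {F : Type} [Field F] (h2 : (2 : F) = 0) {r a b u y : F} (hb : b ≠ 0) (hy : y ≠ 0)
    (e : y = u + r ^ 2 * a) :
    (r ^ 4 * a ^ 2 * b ^ 2 + a ^ 3 * u + r ^ 6 * b ^ 4) / ((u ^ 2 + r ^ 4 * a ^ 2) * b ^ 2) =
      a ^ 3 / (b ^ 2 * y) + ((r ^ 2 * a * b + r * a ^ 2 + r ^ 3 * b ^ 2) / (b * y)) ^ 2 := by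
  have e1 : u ^ 2 + r ^ 4 * a ^ 2 = y ^ 2 := by
    rw [e]
    linear_combination (-(r ^ 2 * u * a)) * h2
  have e2 : r ^ 4 * a ^ 2 * b ^ 2 + a ^ 3 * u + r ^ 6 * b ^ 4 =
      a ^ 3 * y + (r ^ 2 * a * b + r * a ^ 2 + r ^ 3 * b ^ 2) ^ 2 := by
    rw [e]
    linear_combination (-(r ^ 2 * a ^ 4 + r ^ 3 * a ^ 3 * b + r ^ 5 * a * b ^ 3 +
      r ^ 4 * a ^ 2 * b ^ 2)) * h2
  rw [e1, e2]
  field_simp

theorem LAL_two {F : Type} [Field F] (h2 : (2 : F) = 0) {r a b y : F} (hb : b ≠ 0) (hy : y ≠ 0) :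
    a ^ 3 / (b ^ 2 * y) + (r ^ 2 * a * b + r * a ^ 2 + r ^ 3 * b ^ 2) / (b * y) =
      (a + r * b) ^ 3 / (b ^ 2 * y) := by
  have e : (a + r * b) ^ 3 = a ^ 3 + b * (r ^ 2 * a * b + r * a ^ 2 + r ^ 3 * b ^ 2) := by
    linear_combination (a ^ 2 * r * b + a * r ^ 2 * b ^ 2) * h2
  rw [e]
  field_simp

theorem LAL_three {F : Type} [Field F] (h2 : (2 : F) = 0) {x b β k B c z y : F} (hb : b ≠ 0)
    (hβ : β ≠ 0) (hy : y ≠ 0) (e : y = c + β * z) (e' : β * x = k + B * y) :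
    x ^ 3 / (b ^ 2 * y) = k ^ 3 / (b ^ 2 * β ^ 3) / y +
      (k ^ 2 * B + k * B ^ 2 * c + B ^ 3 * c ^ 2) / (b ^ 2 * β ^ 3) +
        (k * B ^ 2 * z + B ^ 3 * β * z ^ 2) / (b ^ 2 * β ^ 2) := by
  have e1 : x = (k + B * y) / β := by
    rw [← e']
    field_simp
  have e2 : (k + B * y) ^ 3 = k ^ 3 + y * ((k ^ 2 * B + k * B ^ 2 * c + B ^ 3 * c ^ 2) +
      β * (k * B ^ 2 * z + B ^ 3 * β * z ^ 2)) := by
    rw [e]
    linear_combination ((c + β * z) * (k ^ 2 * B + k * B ^ 2 * (c + β * z) + B ^ 3 * c * β * z)) * h2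
  rw [e1, div_pow, e2]
  field_simp
  ring

theorem p_LAL :
    S_LAL := by
  intro F _ _ _ r a b u0 B0 B1 z hb hβ hy
  have h2 : (2 : F) = 0 := CharTwo.two_eq_zero
  rw [LAL_one h2 hb hy (by ring), psi_add, psi_sq, ← psi_add, LAL_two h2 hb hy, ← psi_add,
    ← psi_add]
  exact congrArg psi (LAL_three h2 hb hβ hy rfl (by linear_combination (-(B1 * u0)) * h2))

end Pool.Agent.P.MP_8be758_nt.C2
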