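import Pool.Agent.P.MP_8be758_nt.C2.If2

/-! Step LKS2. -/

namespace Pool.Agent.P.MP_8be758_nt.C2

open Polynomial Finset Filter
open scoped Classical Topology

theorem LKS2_cop {F : Type} [Field F] {a : F} (ha : a ≠ 0) (p : F[X]) : IsCoprime (C a) p :=
  ⟨C a⁻¹, 0, by rw [← C_mul, inv_mul_cancel₀ ha, C_1, zero_mul, add_zero]⟩

theorem LKS2_field {Cs : ℝ} {F : Type} [Field F] [Fintype F] [CharP F 2]
    (h : ∀ N D : F[X], N.natDegree ≤ 5 → D.natDegree ≤ 5 → 1 ≤ D.natDegree → D.Separable →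
      IsCoprime N D → |∑ x : F, if D.eval x = 0 then 0 else psi (N.eval x / D.eval x)| ≤
        Cs * √(Nat.card F : ℝ))
    {c u b e : F} (m l : F) (hc : c ≠ 0) (hb : b ≠ 0) (he : e ≠ 0) :
    |∑ y : F, (if u + b * (y + m * y ^ 2) = 0 then 0 else psi (c / (u + b * (y + m * y ^ 2)))) *
      (if u + b * (y + m * y ^ 2) + e = 0 then 0 else
        psi (c / (u + b * (y + m * y ^ 2) + e))) * psi (l * y)| ≤
      Cs * √(Nat.card F : ℝ) := by
  have h2 : (2 : F[X]) = 0 := CharTwo.two_eq_zero
  have h2' : (2 : F) = 0 := CharTwo.two_eq_zero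
  obtain ⟨Y, hY⟩ : ∃ Y : F[X], Y = C u + C b * (X + C m * X ^ 2) := ⟨_, rfl⟩
  have dY : derivative Y = C b := by
    rw [hY]
    simp only [derivative_add, derivative_mul, derivative_C, derivative_X, sq]
    linear_combination (C b * C m * X) * h2
  have nY : Y.natDegree ≤ 2 := by rw [hY]; compute_degree
  have eY : ∀ y, Y.eval y = u + b * (y + m * y ^ 2) := fun y => by rw [hY]; simp
  have dD : derivative (Y * (Y + C e)) = C (b * e) := by
    simp only [derivative_add, derivative_mul, derivative_C, dY, C_mul]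
    linear_combination (C b * Y) * h2
  have hu : b * e ≠ 0 := mul_ne_zero hb he
  have nD : (Y * (Y + C e)).natDegree ≤ 4 := by
    have a1 := natDegree_mul_le (p := Y) (q := Y + C e)
    rw [natDegree_add_C] at a1
    omega
  have key := h (C (c * e) + C l * X * (Y * (Y + C e))) (Y * (Y + C e)) ?_ (by omega) ?_ ?_ ?_
  · refine le_of_eq_of_le (congrArg _ (sum_congr rfl fun y _ => ?_)) key
    simp only [eval_add, eval_mul, eval_C, eval_X, eY]
    generalize u + b * (y + m * y ^ 2) = z
    by_cases z0 : z = 0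
    · simp [z0]
    by_cases z1 : z + e = 0
    · simp [z1]
    rw [if_neg z0, if_neg z1, if_neg (mul_ne_zero z0 z1), ← psi_add, ← psi_add]
    congr 1
    field_simp
    linear_combination (c * z) * h2'
  · rw [add_comm, natDegree_add_C]
    have a1 := natDegree_mul_le (p := C l * X) (q := Y * (Y + C e))
    have a2 : (C l * X : F[X]).natDegree ≤ 1 := by compute_degree
    omega
  · by_contra h0
    have := derivative_of_natDegree_zero (p := Y * (Y + C e)) (by omega)
    rw [dD, C_eq_zero] at this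
    exact hu this
  · rw [separable_def, dD]
    exact (LKS2_cop hu _).symm
  · exact (LKS2_cop (mul_ne_zero hc he) _).add_mul_right_left _

theorem p_LKS2 (hSTEP : S_STEP) (hLOC : S_LOC) :
    S_LKS2 := by
  obtain ⟨Cs, h1, h⟩ := hSTEP
  refine ⟨Cs, h1, fun k _ _ _ P c u b cc e l hm hP hc hb he => ?_⟩
  have : Fact (Irreducible P) := ⟨hP⟩
  have : Finite (AdjoinRoot P) := finite_adjoinRoot hP.ne_zero
  have : Fintype (AdjoinRoot P) := Fintype.ofFinite _
  have : CharP (AdjoinRoot P) 2 := charP_adjoinRoot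
  have key := LKS2_field (h (AdjoinRoot P)) (u := AdjoinRoot.mk P u) (AdjoinRoot.mk P cc)
    (AdjoinRoot.mk P l / AdjoinRoot.mk P (derivative P))
    (fun q => hc (AdjoinRoot.mk_eq_zero.1 q)) (fun q => hb (AdjoinRoot.mk_eq_zero.1 q))
    (fun q => he (AdjoinRoot.mk_eq_zero.1 q))
  rw [← sum_low_mk hP.ne_zero, card_adjoinRoot hP.ne_zero, Nat.cast_pow] at key
  refine le_of_eq_of_le (congrArg _ (sum_congr rfl fun x _ => ?_)) key
  rw [hLOC k P (l * x) hm hP]
  simp only [lk, lp_eq, ← AdjoinRoot.mk_eq_zero, map_add, map_mul, map_pow]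
  rw [mul_div_right_comm]

end Pool.Agent.P.MP_8be758_nt.C2
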