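import Pool.Agent.P.MP_8be758_nt.C2.If2

/-! Step MAIN2. -/

namespace Pool.Agent.P.MP_8be758_nt.C2

open Polynomial Finset Filter
open scoped Classical Topology

theorem MAIN2_ex (c : ℝ) {η : ℝ} (hη : 0 < η) : ∃ H : ℕ, ∀ H' : ℕ, H ≤ H' → c / 2 ^ H' ≤ η := by
  obtain ⟨H, hH⟩ := pow_unbounded_of_one_lt (c / η) (one_lt_two (α := ℝ))
  refine ⟨H, fun H' h => ?_⟩
  rw [div_le_iff₀' (by positivity), ← div_le_iff₀ hη]
  exact hH.le.trans (pow_le_pow_right₀ one_le_two h)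

variable {k : Type} [Field k] [CharP k 2]

theorem MAIN2_shift (A B Cc g x : k[X]) :
    Cc ^ 2 * (g + B * expand k 2 (fr Cc * x ^ 2)) ^ 2 + B * (g + B * expand k 2 (fr Cc * x ^ 2)) + A =
      eo (evp (Cc ^ 2 * g ^ 2 + B * g + A) + fr B * fr Cc * (x + fr Cc * x ^ 2) ^ 2)
        (odp (Cc ^ 2 * g ^ 2 + B * g + A)) := by
  have h := eo_evp_odp (Cc ^ 2 * g ^ 2 + B * g + A)
  have h2 : (2 : k[X]) = 0 := CharTwo.two_eq_zero
  simp only [eo, map_add, map_mul, map_pow, expand_fr] at h ⊢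
  linear_combination (Cc ^ 4 * g * B * expand k 2 x ^ 2 - B ^ 2 * Cc ^ 4 * expand k 2 x ^ 3) * h2 - h

theorem MAIN2_deg {G R : k[X]} {m d : ℕ} (hg : G.Monic) (hn : G.natDegree = m)
    (d1 : R.natDegree ≤ d) (hd : d < 2 * m) :
    (evp (G ^ 2 + R)).Monic ∧ (evp (G ^ 2 + R)).natDegree = m ∧
      2 * (odp (G ^ 2 + R)).natDegree ≤ d := by
  have h := eo_evp_odp (G ^ 2 + R)
  have d2 : (G ^ 2).natDegree = 2 * m := by rw [hg.natDegree_pow, hn]
  have e : ∀ j, m ≤ j → (evp (G ^ 2 + R)).coeff j = (G ^ 2).coeff (2 * j) := by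
    intro j hj
    rw [← coeff_eo_even _ (odp (G ^ 2 + R)), h, coeff_add,
      coeff_eq_zero_of_natDegree_lt (p := R) (by omega), add_zero]
  have c1 : (evp (G ^ 2 + R)).coeff m = 1 := by
    rw [e m le_rfl, ← d2]; exact (hg.pow 2).coeff_natDegree
  have c2 : (evp (G ^ 2 + R)).natDegree ≤ m := natDegree_le_iff_coeff_eq_zero.2 fun j hj => by
    rw [e j hj.le, coeff_eq_zero_of_natDegree_lt (by omega)]
  refine ⟨monic_of_natDegree_le_of_coeff_eq_one m c2 c1,
    natDegree_eq_of_le_of_coeff_ne_zero c2 (by rw [c1]; exact one_ne_zero), ?_⟩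
  have h3 := derivative_eo (evp (G ^ 2 + R)) (odp (G ^ 2 + R))
  have h4 : derivative (G ^ 2) = 0 := by
    rw [sq, derivative_mul, mul_comm, add_self']
  rw [h, derivative_add, h4, zero_add] at h3
  have h5 := natDegree_derivative_le R
  rw [h3, natDegree_expand] at h5
  omega

theorem p_MAIN2 (hCORE2 : S_CORE2) (hBAD1b : S_BAD1b) (hBAD2b : S_BAD2b) :
    S_MAIN2 := by
  intro k _ _ _ A B M hB hM1
  have hM := hM1.ne_zero
  obtain ⟨Cs, -, hC⟩ := hCORE2
  refine Metric.tendsto_atTop.2 fun ε hε => ?_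
  obtain ⟨δ, hδ, rfl⟩ : ∃ δ : ℝ, 0 < δ ∧ ε = 4 * δ := ⟨ε / 4, by positivity, by ring⟩
  obtain ⟨K, hK⟩ := hBAD1b k A B M δ hB hδ
  obtain ⟨H, hH⟩ := MAIN2_ex (K + 1) (η := δ ^ 2 / 2) (by positivity)
  obtain ⟨D1, hD1⟩ := MAIN2_ex (Cs ^ K) (η := δ ^ 2 / 2) (by positivity)
  obtain ⟨D0, hD0⟩ := MAIN2_ex K hδ
  obtain ⟨D, hD, hD'⟩ : ∃ D : ℕ, 2 * B.natDegree + 5 * M.natDegree + H + 4 * D1 + 10 ≤ D ∧
      (K : ℝ) / 2 ^ D ≤ δ := ⟨_, Nat.le_add_right _ D0, hD0 _ (Nat.le_add_left _ _)⟩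
  obtain ⟨n0, hn0⟩ := hK D
  refine ⟨n0 + A.natDegree + 100 * D, fun n hn => ?_⟩
  have b1 := hn0 n (by omega)
  obtain ⟨N, hN⟩ : ∃ N, N = (n + B.natDegree) / 2 + 1 := ⟨_, rfl⟩
  obtain ⟨L0, hL⟩ : ∃ L0, L0 = (n - B.natDegree - 2 * M.natDegree - 1) / 4 := ⟨_, rfl⟩
  rw [← hN] at b1
  have hS : ∀ V : k[X], ∃ s : Finset k[X], (s.card ≤ K ∧ ∀ P ∈ s, Irreducible P ∧
      D ≤ P.natDegree) ∧ ((∃ V1 s, Good K D N V V1 s) → ∃ V1, Good K D N V V1 s) := by
    intro V
    by_cases h : ∃ V1 s, Good K D N V V1 s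
    · obtain ⟨V1, s, h⟩ := h
      exact ⟨s, ⟨h.2.1, fun P hP => ⟨(h.2.2.2.1 P hP).2.1, (h.2.2.2.1 P hP).2.2.1⟩⟩,
        fun _ => ⟨V1, h⟩⟩
    · exact ⟨∅, by simp, fun h' => absurd h' h⟩
  choose S hS1 hS2 using hS
  have b2 := hBAD2b k A B M K D n S hB hM (by omega) (by omega) (by omega) hS1
  have hq : (2 : ℝ) ≤ Nat.card k := by exact_mod_cast two_le_card (k := k)
  have av := sum_avg (Gs (1 : k[X]) 0 n) (low k L0) (fun x => B * expand k 2 (fr M * x ^ 2))
    (fun x hx g hg => add_mem_Gs hg (mem_low_of_natDegree_lt (by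
      have h1 := natDegree_le_of_mem_low hx
      have h2 : (fr M * x ^ 2).natDegree ≤ M.natDegree + (x ^ 2).natDegree :=
        natDegree_mul_le.trans (by rw [natDegree_fr])
      have h3 : (x ^ 2).natDegree ≤ 2 * x.natDegree := natDegree_pow_le
      refine natDegree_mul_le.trans_lt ?_
      rw [natDegree_expand]
      omega)) (one_dvd _)) fun g => mu (M ^ 2 * g ^ 2 + B * g + A)
  simp only [MAIN2_shift, card_low] at av
  push_cast at av
  have hQ : (0 : ℝ) < (Nat.card k : ℝ) ^ L0 := by positivity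
  have hQn : (0 : ℝ) < (Nat.card k : ℝ) ^ n := by positivity
  have inner : ∀ g ∈ Gs (1 : k[X]) 0 n, |∑ x ∈ low k L0, mu (eo (evp (M ^ 2 * g ^ 2 + B * g + A) +
      fr B * fr M * (x + fr M * x ^ 2) ^ 2) (odp (M ^ 2 * g ^ 2 + B * g + A)))| ≤
      (Nat.card k : ℝ) ^ L0 * (δ +
        (if ¬ ∃ V1 s, Good K D N (odp (M ^ 2 * g ^ 2 + B * g + A)) V1 s then 1 else 0) +
        (if ∃ P ∈ S (odp (M ^ 2 * g ^ 2 + B * g + A)),
          P ∣ kap (fr B * fr M) (evp (M ^ 2 * g ^ 2 + B * g + A))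
            (odp (M ^ 2 * g ^ 2 + B * g + A)) then 1 else 0)) := by
    intro g hg
    obtain ⟨g1, g2, -⟩ := mem_Gs.1 hg
    obtain ⟨u1, u2, u3⟩ := MAIN2_deg (R := B * g + A) (d := n + B.natDegree) (hM1.mul g1)
      (hM1.natDegree_mul g1)
      ((natDegree_add_le _ _).trans (max_le (natDegree_mul_le.trans (by omega)) (by omega)))
      (by omega)
    rw [mul_pow, ← add_assoc] at u1 u2 u3
    have hBt : fr B * fr M ≠ 0 := mul_ne_zero (fr_ne_zero hB) (fr_ne_zero hM)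
    have dBt : (fr B * fr M).natDegree = B.natDegree + M.natDegree := by
      rw [natDegree_mul (fr_ne_zero hB) (fr_ne_zero hM), natDegree_fr, natDegree_fr]
    generalize evp (M ^ 2 * g ^ 2 + B * g + A) = U at *
    generalize odp (M ^ 2 * g ^ 2 + B * g + A) = V at *
    have triv : |∑ x ∈ low k L0, mu (eo (U + fr B * fr M * (x + fr M * x ^ 2) ^ 2) V)| ≤
        (Nat.card k : ℝ) ^ L0 * 1 := by
      refine (abs_sum_le_sum_abs _ _).trans ((sum_le_sum fun x _ => abs_mu_le _).trans ?_)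
      simp [card_low]
    split_ifs with c1 c2 c2
    · exact triv.trans (mul_le_mul_of_nonneg_left (by linarith) hQ.le)
    · obtain ⟨V1, a1, a2, a3, a4, a5, a6⟩ := hS2 V c1
      have := hC k U V (fr B * fr M) (fr M) V1 (S V) K H D1 L0 u1 hBt
        (fun e => a3.elim fun P hP => (a4 P hP).2.2.2 (e ▸ dvd_zero P)) a1 (by omega) a2 a3
        (fun P hP => by
          obtain ⟨p1, p2, p3, p4⟩ := a4 P hP
          refine ⟨p1, p2, p4, fun h => ?_, fun h => ?_, fun h => c2 ⟨P, hP, h⟩, by omega, by omega⟩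
          · have := natDegree_le_of_dvd h hBt
            omega
          · have := natDegree_le_of_dvd h (fr_ne_zero hM)
            rw [natDegree_fr] at this
            omega)
        (by omega) (by simp only [dBt, natDegree_fr]; omega) (by omega)
        (by simp only [dBt, natDegree_fr]; omega) (by simp only [dBt, natDegree_fr]; omega)
      refine abs_le_of_sq_le_sq' ?_ (by positivity) |> abs_le.2
      refine this.trans ?_
      rw [mul_pow]
      refine mul_le_mul_of_nonneg_left ?_ (by positivity)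
      have := hH H le_rfl
      have := hD1 D1 le_rfl
      linarith
    · exact triv.trans (mul_le_mul_of_nonneg_left (by linarith) hQ.le)
    · exact triv.trans (mul_le_mul_of_nonneg_left (by linarith) hQ.le)
  have tot := (abs_sum_le_sum_abs _ _).trans (sum_le_sum inner)
  rw [← av, abs_mul, abs_of_pos hQ, ← mul_sum, sum_add_distrib, sum_add_distrib,
    sum_const, nsmul_eq_mul] at tot
  simp only [sum_boole] at tot
  have tot := le_of_mul_le_mul_left tot hQ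
  have b0 : ((Gs (1 : k[X]) 0 n).card : ℝ) ≤ (Nat.card k : ℝ) ^ n := by exact_mod_cast card_Gs_le _ _ n
  have b3 := (Nat.cast_le (α := ℝ)).2 b2
  push_cast at b3
  have b4 : (2 : ℝ) ^ D ≤ (Nat.card k : ℝ) ^ D := pow_le_pow_left₀ (by norm_num) hq D
  have b5 := (mul_le_mul_of_nonneg_left b4 (Nat.cast_nonneg _)).trans b3
  rw [div_le_iff₀ (by positivity)] at hD'
  have b6 := le_of_mul_le_mul_right (b5.trans ((mul_le_mul_of_nonneg_right hD' hQn.le).trans_eq
    (mul_right_comm _ _ _))) (by positivity)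
  rw [Real.dist_eq, sub_zero, abs_div, abs_of_pos hQn, div_lt_iff₀ hQn]
  have t : _ ≤ (Nat.card k : ℝ) ^ n * δ + δ * (Nat.card k : ℝ) ^ n + δ * (Nat.card k : ℝ) ^ n :=
    tot.trans (add_le_add (add_le_add (mul_le_mul_of_nonneg_right b0 hδ.le) b1)
      (by rw [← sum_boole] at b6; convert b6))
  have := mul_pos hδ hQn
  linarith

end Pool.Agent.P.MP_8be758_nt.C2
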