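import Pool.Agent.P.MP_8be758_nt.C2.If

/-! Step ROUGH. -/

namespace Pool.Agent.P.MP_8be758_nt.C2

open Polynomial Finset Filter
open scoped Classical Topology

theorem ROUGH_monic {k : Type} [Field k] [Finite k] {j : ℕ} {a : k[X]} (ha : a ∈ low k j) :
    (X ^ j + a : k[X]).Monic ∧ (X ^ j + a : k[X]).natDegree = j := by
  have hd : a.degree < (X ^ j : k[X]).degree := by
    rw [degree_X_pow]; exact mem_low.1 ha
  refine ⟨(monic_X_pow j).add_of_left hd, ?_⟩
  rw [natDegree_eq_of_degree_eq (degree_add_eq_left_of_degree_lt hd), natDegree_X_pow]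

theorem ROUGH_sub {k : Type} [Field k] [Finite k] {n : ℕ} {V W : k[X]} (hV : V.Monic)
    (hW : W.Monic) (h1 : V.natDegree = n) (h2 : W.natDegree = n) : V - W ∈ low k n := by
  have hd : V.degree = n := by rw [degree_eq_natDegree hV.ne_zero, h1]
  have hd' : W.degree = n := by rw [degree_eq_natDegree hW.ne_zero, h2]
  have := degree_sub_lt_left (p := V) (q := W) (by rw [hd, hd']) hV.ne_zero
    (by rw [hV.leadingCoeff, hW.leadingCoeff])
  rw [mem_low]
  rwa [hd] at this

theorem ROUGH_cop {k : Type} [Field k] {Y : ℕ} {A V : k[X]} (hA : A ≠ 0)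
    (hd : A.natDegree ≤ Y) (hV : ∀ P : k[X], Irreducible P → P ∣ V → Y < P.natDegree) :
    IsCoprime A V := by
  refine isRelPrime_iff_isCoprime.1 ?_
  refine (UniqueFactorizationMonoid.isRelPrime_iff_no_prime_factors hA).2 ?_
  intro P h1 h2 hP
  have := hV P hP.irreducible h2
  have := natDegree_le_of_dvd h1 hA
  omega

theorem p_ROUGH :
    S_ROUGH := by
  intro k _ _ Y
  set W0 : k[X] := ∏ p ∈ (low k (Y + 1)).erase 0, p with hW0
  have hW0ne : W0 ≠ 0 := prod_ne_zero_iff.2 fun p hp => (mem_erase.1 hp).1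
  refine ⟨W0.natDegree, fun n hn => ?_⟩
  set W : k[X] := W0 * C (W0.leadingCoeff)⁻¹ * X ^ (n - W0.natDegree) with hW
  have hWm : W.Monic := (monic_mul_leadingCoeff_inv hW0ne).mul (monic_X_pow _)
  have hWd : W.natDegree = n := by
    rw [hW, (monic_mul_leadingCoeff_inv hW0ne).natDegree_mul (monic_X_pow _),
      natDegree_mul_leadingCoeff_inv _ hW0ne, natDegree_X_pow]
    omega
  have hdv : ∀ P : k[X], Irreducible P → P.natDegree ≤ Y → P ∣ W := by
    intro P hP hd
    have : P ∣ W0 := dvd_prod_of_mem (fun p => p)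
      (mem_erase.2 ⟨hP.ne_zero, mem_low_of_natDegree_lt (by omega)⟩)
    exact (this.mul_right _).mul_right _
  set R := (low k (n + 1)).filter (fun V => V.Monic ∧ V.natDegree = n ∧
      ∀ P : k[X], Irreducible P → P ∣ V → Y < P.natDegree) with hR
  set S : Finset (Σ _ : ℕ, k[X] × k[X] × k[X]) :=
    (range (Y + 1)).sigma (fun j => low k j ×ˢ low k (Y - j) ×ˢ R) with hS
  have hq : 0 < Nat.card k := by have := two_le_card (k := k); omega
  have hcard : S.card = (Y + 1) * (Nat.card k ^ Y * R.card) := by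
    rw [hS, card_sigma]
    rw [sum_congr rfl (g := fun _ => Nat.card k ^ Y * R.card)]
    · simp
    · intro j hj
      have hj' : j ≤ Y := by simpa [Nat.lt_succ_iff] using hj
      rw [card_product, card_product, card_low, card_low, ← mul_assoc, ← pow_add,
        Nat.add_sub_cancel' hj']
  have hlift : ∀ (i : ℕ) (t V : k[X]), t ∈ low k i → V ∈ R →
      (W * (X ^ i + t) + (V - W)).Monic ∧ (W * (X ^ i + t) + (V - W)).natDegree = n + i ∧
      ∀ P : k[X], Irreducible P → P ∣ W * (X ^ i + t) + (V - W) → Y < P.natDegree := by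
    intro i t V ht hV
    obtain ⟨-, h1, h2, h3⟩ := mem_filter.1 hV
    obtain ⟨m1, m2⟩ := ROUGH_monic ht
    have hm : (W * (X ^ i + t)).Monic := hWm.mul m1
    have hdm : (W * (X ^ i + t)).natDegree = n + i := by
      rw [hWm.natDegree_mul m1, hWd, m2]
    have hlt : (V - W).degree < (W * (X ^ i + t)).degree := by
      rw [degree_eq_natDegree hm.ne_zero, hdm]
      exact mem_low.1 (low_mono (Nat.le_add_right n i) (ROUGH_sub h1 hWm h2 hWd))
    refine ⟨hm.add_of_left hlt, ?_, ?_⟩
    · rw [natDegree_eq_of_degree_eq (degree_add_eq_left_of_degree_lt hlt), hdm]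
    · intro P hP hd
      by_contra hc
      have hw := hdv P hP (by omega)
      apply hc
      refine h3 P hP ?_
      have e : V = (W * (X ^ i + t) + (V - W)) - W * (X ^ i + t - 1) := by ring
      rw [e]
      exact dvd_sub hd (hw.mul_right _)
  have hle : S.card ≤ (Gs (1 : k[X]) 0 (n + Y)).card := by
    refine card_le_card_of_injOn
      (fun z => (X ^ z.1 + z.2.1) * (W * (X ^ (Y - z.1) + z.2.2.1) + (z.2.2.2 - W))) ?_ ?_
    · rintro ⟨j, a, t, V⟩ hz
      simp only [hS, mem_coe, mem_sigma, mem_product, mem_range] at hz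
      obtain ⟨hj, ha, ht, hV⟩ := hz
      obtain ⟨m1, m2⟩ := ROUGH_monic ha
      obtain ⟨l1, l2, -⟩ := hlift _ t V ht hV
      refine mem_coe.2 (mem_Gs.2 ⟨m1.mul l1, ?_, one_dvd _⟩)
      rw [m1.natDegree_mul l1, m2, l2]
      omega
    · rintro ⟨j, a, t, V⟩ hz ⟨j', a', t', V'⟩ hz' h
      simp only [hS, mem_coe, mem_sigma, mem_product, mem_range] at hz hz'
      obtain ⟨hj, ha, ht, hV⟩ := hz
      obtain ⟨hj', ha', ht', hV'⟩ := hz'
      obtain ⟨m1, m2⟩ := ROUGH_monic ha
      obtain ⟨l1, l2, l3⟩ := hlift _ t V ht hV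
      obtain ⟨m1', m2'⟩ := ROUGH_monic ha'
      obtain ⟨l1', l2', l3'⟩ := hlift _ t' V' ht' hV'
      simp only at h
      have c1 := ROUGH_cop m1.ne_zero (by omega) l3'
      have c2 := ROUGH_cop m1'.ne_zero (by omega) l3
      have d1 : X ^ j + a ∣ X ^ j' + a' := c1.dvd_of_dvd_mul_right ⟨_, h.symm⟩
      have d2 : X ^ j' + a' ∣ X ^ j + a := c2.dvd_of_dvd_mul_right ⟨_, h⟩
      have e1 : X ^ j + a = X ^ j' + a' := eq_of_monic_of_associated m1 m1'
        (associated_of_dvd_dvd d1 d2)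
      have ej : j = j' := by rw [← m2, ← m2', e1]
      subst ej
      have ea : a = a' := add_left_cancel e1
      subst ea
      have e2 := mul_left_cancel₀ m1.ne_zero h
      obtain ⟨-, h1, h2, -⟩ := mem_filter.1 hV
      obtain ⟨-, h1', h2', -⟩ := mem_filter.1 hV'
      have e3 : V - V' = W * (t' - t) := by linear_combination e2
      have e4 : V - V' = 0 :=
        eq_zero_of_mem_low (ROUGH_sub h1 h1' h2 h2') ⟨_, e3⟩ hWd.ge
      have e5 : t' - t = 0 := by
        rw [e4] at e3
        exact (mul_eq_zero.1 e3.symm).resolve_left hWm.ne_zero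
      rw [sub_eq_zero.1 e4, sub_eq_zero.1 e5]
  have h2 := hle.trans (card_Gs_le _ _ _)
  rw [hcard, pow_add] at h2
  have hp : 0 < Nat.card k ^ Y := pow_pos hq _
  refine Nat.le_of_mul_le_mul_right ?_ hp
  calc (Y + 1) * R.card * Nat.card k ^ Y = (Y + 1) * (Nat.card k ^ Y * R.card) := by ring
    _ ≤ _ := h2

end Pool.Agent.P.MP_8be758_nt.C2
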