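import Pool.Agent.P.MP_8be758_nt.C2.If

/-! Step SPLIT. -/

namespace Pool.Agent.P.MP_8be758_nt.C2

open Polynomial Finset Filter
open scoped Classical Topology

theorem SPLIT_lp {k : Type} [Field k] {P G a c D D' : k[X]} (hP : Irreducible P)
    (h1 : P ∣ a * c - 1) (h2 : P ∣ D' - c * D) : lp P (G * a) D = lp P G D' := by
  have : Fact (Irreducible P) := ⟨hP⟩
  rw [lp_eq, lp_eq]
  congr 1
  have e1 : AdjoinRoot.mk P a * AdjoinRoot.mk P c = 1 := by
    have := AdjoinRoot.mk_eq_mk.2 h1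
    simpa using this
  have e2 : AdjoinRoot.mk P D' = AdjoinRoot.mk P c * AdjoinRoot.mk P D := by
    have := AdjoinRoot.mk_eq_mk.2 h2
    simpa using this
  have e3 : AdjoinRoot.mk P a = (AdjoinRoot.mk P c)⁻¹ := eq_inv_of_mul_eq_one_left e1
  rw [e2, map_mul, e3, div_eq_mul_inv, div_eq_mul_inv, mul_inv, mul_assoc]

theorem SPLIT_prod (hLOC : S_LOC) {k : Type} [Field k] [Finite k] [CharP k 2]
    (s : Finset k[X]) : (∀ P ∈ s, P.Monic ∧ Irreducible P) → ∀ G : k[X],
      psi (res (∏ P ∈ s, P) G) = ∏ P ∈ s, lp P G (derivative (∏ P ∈ s, P)) := by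
  induction s using Finset.induction_on with
  | empty =>
    intro _ G
    rw [prod_empty, prod_empty, res_of_dvd (one_dvd G), psi_zero]
  | insert P s hPs ih =>
    intro hs G
    have hP := hs P (mem_insert_self _ _)
    have hs' : ∀ Q ∈ s, Q.Monic ∧ Irreducible Q := fun Q hQ => hs Q (mem_insert_of_mem hQ)
    rw [prod_insert hPs, prod_insert hPs]
    set W := ∏ Q ∈ s, Q with hW
    have hW0 : W ≠ 0 := prod_ne_zero_iff.2 fun Q hQ => (hs' Q hQ).1.ne_zero
    have hcop : IsCoprime P W := by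
      refine IsCoprime.prod_right fun Q hQ => ?_
      refine (hP.2.coprime_iff_not_dvd).2 fun hd => hPs ?_
      have := eq_of_monic_of_associated hP.1 (hs' Q hQ).1
        (hP.2.associated_of_dvd (hs' Q hQ).2 hd)
      rw [this]; exact hQ
    obtain ⟨a, b, hab⟩ := hcop
    have hG : G = (G * b) * W + (G * a) * P := by linear_combination (-G) * hab
    have h1 : res (P * W) G = res P (G * b) + res W (G * a) := by
      rw [← res_split hP.1.ne_zero hW0, ← hG]
    rw [h1, psi_add, hLOC k P (G * b) hP.1 hP.2, ih hs' (G * a)]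
    congr 1
    · refine SPLIT_lp (c := W) hP.2 ⟨-a, by linear_combination hab⟩ ⟨derivative W, ?_⟩
      rw [derivative_mul]; ring
    · refine prod_congr rfl fun Q hQ => ?_
      obtain ⟨u, hu⟩ : Q ∣ W := dvd_prod_of_mem _ hQ
      refine SPLIT_lp (c := P) (hs' Q hQ).2 ⟨-b * u, by linear_combination hab - b * hu⟩
        ⟨derivative P * u, ?_⟩
      rw [derivative_mul]; linear_combination (derivative P) * hu

theorem p_SPLIT (hLOC : S_LOC) :
    S_SPLIT := by
  intro k _ _ _ V V1 w1 H s hV1 hV hs hw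
  set W := ∏ P ∈ s, P with hW
  have hW0 : W ≠ 0 := prod_ne_zero_iff.2 fun Q hQ => (hs Q hQ).1.ne_zero
  obtain ⟨z, hz⟩ := hw
  have hH : H = (H * w1) * W + (H * (-z)) * V1 := by linear_combination (-H) * hz
  have h1 : res V H = res V1 (H * w1) + res W (H * (-z)) := by
    rw [hV, ← res_split hV1 hW0, ← hH]
  rw [h1, psi_add, hW, SPLIT_prod hLOC s (fun P hP => ⟨(hs P hP).1, (hs P hP).2.1⟩)]
  congr 1
  refine prod_congr rfl fun Q hQ => ?_
  obtain ⟨u, hu⟩ : Q ∣ W := dvd_prod_of_mem _ hQ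
  refine SPLIT_lp (c := V1) (hs Q hQ).2.1 ⟨-w1 * u, by linear_combination hz - w1 * hu⟩
    ⟨derivative V1 * u, ?_⟩
  rw [hV, derivative_mul, ← hW]; linear_combination (derivative V1) * hu

end Pool.Agent.P.MP_8be758_nt.C2
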