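import Pool.Agent.P.MP_8be758_nt.C2.If

/-! Step STEP. -/

namespace Pool.Agent.P.MP_8be758_nt.C2

open Polynomial Finset Filter
open scoped Classical Topology

theorem STEP_lin {K : Type} [Field K] (h M n r : ℕ) (R S : K[X]) (be : K)
    (hR : R.natDegree ≤ r) (hS : S.natDegree ≤ r)
    (hcount : M * (h + r + n + 1) < n * (2 * h)) :
    ∃ a b : Fin n → K[X], (∀ j, (a j).degree < h) ∧ (∀ j, (b j).degree < h) ∧
      (∃ j, a j ≠ 0 ∨ b j ≠ 0) ∧
      ∀ i < M, ∑ j, (hasseDeriv i (a j) * R + hasseDeriv i (b j) * S) * (X - C be) ^ (j : ℕ) = 0 := by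
  let Φ : (Fin n → degreeLT K h × degreeLT K h) →ₗ[K] (Fin M → Fin (h + r + n + 1) → K) :=
    { toFun := fun v i t =>
        (∑ j, (hasseDeriv i ((v j).1 : K[X]) * R + hasseDeriv i ((v j).2 : K[X]) * S) *
          (X - C be) ^ (j : ℕ)).coeff t
      map_add' := by
        intro v w
        funext i t
        simp only [Pi.add_apply, Prod.fst_add, Prod.snd_add, Submodule.coe_add, map_add,
          ← coeff_add, ← Finset.sum_add_distrib]
        congr 2
        funext j
        ring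
      map_smul' := by
        intro c v
        funext i t
        simp only [Pi.smul_apply, Prod.smul_fst, Prod.smul_snd, Submodule.coe_smul, map_smul,
          RingHom.id_apply, ← coeff_smul, Finset.smul_sum]
        congr 2
        funext j
        simp only [smul_eq_C_mul]
        ring }
  have hd : Module.finrank K (degreeLT K h) = h := by
    rw [Module.finrank_eq_card_basis (degreeLT.basis K h), Fintype.card_fin]
  have hlt : Module.finrank K (Fin M → Fin (h + r + n + 1) → K) <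
      Module.finrank K (Fin n → degreeLT K h × degreeLT K h) := by
    simp only [Module.finrank_pi_fintype, Fintype.card_fin, Finset.sum_const, Finset.card_univ,
      smul_eq_mul, Module.finrank_prod, hd, Module.finrank_self, mul_one]
    calc _ < n * (2 * h) := hcount
      _ = _ := by ring
  have hk := LinearMap.ker_ne_bot_of_finrank_lt (f := Φ) hlt
  obtain ⟨v, hv, hv0⟩ := Submodule.exists_mem_ne_zero_of_ne_bot hk
  have hdeg : ∀ p : degreeLT K h, (p : K[X]).degree < h := fun p => mem_degreeLT.1 p.2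
  have hnat : ∀ (i : ℕ) (p : degreeLT K h), (hasseDeriv i (p : K[X])).natDegree ≤ h := by
    intro i p
    refine (natDegree_hasseDeriv_le _ _).trans ((Nat.sub_le _ _).trans ?_)
    exact natDegree_le_of_degree_le (hdeg p).le
  refine ⟨fun j => (v j).1, fun j => (v j).2, fun j => hdeg _, fun j => hdeg _, ?_, ?_⟩
  · by_contra hc
    push Not at hc
    apply hv0
    funext j
    obtain ⟨h1, h2⟩ := hc j
    exact Prod.ext (Subtype.ext h1) (Subtype.ext h2)
  · intro i hi
    have hG : (∑ j, (hasseDeriv i ((v j).1 : K[X]) * R + hasseDeriv i ((v j).2 : K[X]) * S) *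
          (X - C be) ^ (j : ℕ)).natDegree ≤ h + r + n := by
      refine natDegree_sum_le_of_forall_le _ _ fun j _ => ?_
      refine natDegree_mul_le.trans (add_le_add ?_ ?_)
      · refine (natDegree_add_le _ _).trans (max_le ?_ ?_)
        · exact natDegree_mul_le.trans (add_le_add (hnat _ _) hR)
        · exact natDegree_mul_le.trans (add_le_add (hnat _ _) hS)
      · refine natDegree_pow_le.trans ?_
        rw [natDegree_X_sub_C, mul_one]
        exact j.2.le
    ext t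
    rw [coeff_zero]
    by_cases ht : t < h + r + n + 1
    · exact congrFun (congrFun (LinearMap.mem_ker.1 hv) ⟨i, hi⟩) ⟨t, ht⟩
    · exact coeff_eq_zero_of_natDegree_lt (lt_of_le_of_lt hG (by omega))

theorem STEP_ind {K : Type} [Field K] (Z : K[X]) (hZ : Z ≠ 0) (n : ℕ) :
    ∀ c : Fin n → K[X], (∀ j, Z ∣ c j → c j = 0) → ∑ j, c j * Z ^ (j : ℕ) = 0 → ∀ j, c j = 0 := by
  induction n with
  | zero => intro c _ _ j; exact j.elim0
  | succ n ih =>
    intro c hc hs
    rw [Fin.sum_univ_succ] at hs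
    have e : ∑ j : Fin n, c j.succ * Z ^ ((j.succ : Fin (n + 1)) : ℕ) =
        Z * ∑ j : Fin n, c j.succ * Z ^ (j : ℕ) := by
      rw [Finset.mul_sum]
      refine Finset.sum_congr rfl fun j _ => ?_
      rw [Fin.val_succ]; ring
    rw [e] at hs
    simp only [Fin.val_zero, pow_zero, mul_one] at hs
    have h0 : c 0 = 0 := hc 0 ⟨-∑ j : Fin n, c j.succ * Z ^ (j : ℕ), by linear_combination hs⟩
    rw [h0, zero_add] at hs
    have h1 := ih (fun j => c j.succ) (fun j => hc j.succ) ((mul_eq_zero.1 hs).resolve_left hZ)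
    intro j
    exact Fin.cases h0 h1 j

theorem STEP_small {K : Type} [Field K] (al : K) (h : ℕ) (b V : K[X]) (hb : b.degree < h)
    (hV : V.eval al ≠ 0) (hd : (X - C al) ^ h ∣ b * V) : b = 0 := by
  have hc : IsCoprime (X - C al) V :=
    (irreducible_X_sub_C al).coprime_iff_not_dvd.2 fun hh => hV (dvd_iff_isRoot.1 hh)
  have h1 : (X - C al) ^ h ∣ b := (hc.pow_left (m := h)).dvd_of_dvd_mul_right hd
  refine eq_zero_of_dvd_of_degree_lt h1 ?_
  rw [degree_pow, degree_X_sub_C]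
  simpa using hb

theorem STEP_pair {K : Type} [Field K] (al : K) (h : ℕ) (a b V U1 : K[X]) (ha : a.degree < h)
    (hb : b.degree < h) (hV : V.eval al ≠ 0) (hU : U1.eval al ≠ 0)
    (hd : (X - C al) ^ (2 * h) ∣ a * ((X - C al) ^ h * U1) + b * V) : a = 0 ∧ b = 0 := by
  have hb0 : b = 0 := by
    refine STEP_small al h b V hb hV ?_
    have h1 : (X - C al) ^ h ∣ a * ((X - C al) ^ h * U1) + b * V :=
      (pow_dvd_pow _ (by omega)).trans hd
    have h2 : (X - C al) ^ h ∣ a * ((X - C al) ^ h * U1) := ⟨a * U1, by ring⟩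
    exact (dvd_add_right h2).1 h1
  refine ⟨?_, hb0⟩
  refine STEP_small al h a U1 ha hU ?_
  rw [hb0, zero_mul, add_zero] at hd
  have h3 : (X - C al) ^ h * (X - C al) ^ h ∣ (X - C al) ^ h * (a * U1) := by
    rw [← pow_add, ← two_mul]
    convert hd using 1
    ring
  exact (mul_dvd_mul_iff_left (pow_ne_zero _ (X_sub_C_ne_zero al))).1 h3

theorem STEP_hasse {K : Type} [Field K] (x : K) (M : ℕ) (P : K[X])
    (hP : ∀ i < M, (hasseDeriv i P).eval x = 0) : (X - C x) ^ M ∣ P := by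
  rw [X_sub_C_pow_dvd_iff, X_pow_dvd_iff]
  intro i hi
  rw [← taylor_apply, taylor_coeff]
  exact hP i hi

theorem STEP_core {K : Type} [Field K] (T : Finset K) (h M n r d : ℕ) (V R S U1 : K[X])
    (al be : K)
    (hU : ∀ x ∈ T, ∃ c : K, (X - C x) ^ M ∣ (X - C al) ^ h * U1 - C (c * R.eval x) ∧
      (X - C x) ^ M ∣ V - C (c * S.eval x))
    (hZ : ∀ x ∈ T, (X - C x) ^ M ∣ (X - C al) ^ (2 * h) - C (x - be))
    (hV : V.eval al ≠ 0) (hU1 : U1.eval al ≠ 0)
    (hdU : ((X - C al) ^ h * U1).natDegree ≤ d) (hdV : V.natDegree ≤ d)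
    (hR : R.natDegree ≤ r) (hS : S.natDegree ≤ r)
    (hcount : M * (h + r + n + 1) < n * (2 * h)) :
    T.card * M ≤ h + d + n * (2 * h) := by
  obtain ⟨a, b, ha, hb, ⟨j0, hj0⟩, hG⟩ := STEP_lin h M n r R S be hR hS hcount
  set U := (X - C al) ^ h * U1 with hUdef
  set Z : K[X] := (X - C al) ^ (2 * h) with hZdef
  have hZ0 : Z ≠ 0 := pow_ne_zero _ (X_sub_C_ne_zero al)
  set H : K[X] := ∑ j, (a j * U + b j * V) * Z ^ (j : ℕ) with hH
  have hH0 : H ≠ 0 := by
    intro h0
    have hp : ∀ j, Z ∣ a j * U + b j * V → a j = 0 ∧ b j = 0 := fun j hj =>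
      STEP_pair al h (a j) (b j) V U1 (ha j) (hb j) hV hU1 hj
    have h1 := STEP_ind Z hZ0 n (fun j => a j * U + b j * V)
      (fun j hj => by obtain ⟨h1, h2⟩ := hp j hj; simp only [h1, h2, zero_mul, add_zero]) h0 j0
    have h2 := hp j0 (h1 ▸ dvd_zero _)
    rcases hj0 with h3 | h3
    · exact h3 h2.1
    · exact h3 h2.2
  have hdvd : ∀ x ∈ T, (X - C x) ^ M ∣ H := by
    intro x hx
    obtain ⟨c, h1, h2⟩ := hU x hx
    have h3 := hZ x hx
    set P : K[X] := ∑ j, (a j * C (c * R.eval x) + b j * C (c * S.eval x)) * C (x - be) ^ (j : ℕ)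
      with hP
    have h4 : (X - C x) ^ M ∣ H - P := by
      rw [hH, hP, ← Finset.sum_sub_distrib]
      refine Finset.dvd_sum fun j _ => ?_
      have h5 : (X - C x) ^ M ∣ Z ^ (j : ℕ) - C (x - be) ^ (j : ℕ) :=
        h3.trans (sub_dvd_pow_sub_pow _ _ _)
      have e : (a j * U + b j * V) * Z ^ (j : ℕ) -
          (a j * C (c * R.eval x) + b j * C (c * S.eval x)) * C (x - be) ^ (j : ℕ) =
          (a j * U + b j * V) * (Z ^ (j : ℕ) - C (x - be) ^ (j : ℕ)) +
            (a j * C (x - be) ^ (j : ℕ) * (U - C (c * R.eval x)) +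
              b j * C (x - be) ^ (j : ℕ) * (V - C (c * S.eval x))) := by ring
      rw [e]
      exact dvd_add (h5.mul_left _) (dvd_add (h1.mul_left _) (h2.mul_left _))
    have h6 : (X - C x) ^ M ∣ P := by
      refine STEP_hasse x M P fun i hi => ?_
      have h7 := congrArg (eval x) (hG i hi)
      have e : P = ∑ j : Fin n, ((c * R.eval x * (x - be) ^ (j : ℕ)) • a j +
          (c * S.eval x * (x - be) ^ (j : ℕ)) • b j) := by
        rw [hP]
        refine Finset.sum_congr rfl fun j _ => ?_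
        simp only [smul_eq_C_mul, map_mul, map_pow]
        ring
      rw [e, map_sum, eval_finsetSum]
      rw [eval_finsetSum, eval_zero] at h7
      rw [← mul_zero c, ← h7, Finset.mul_sum]
      refine Finset.sum_congr rfl fun j _ => ?_
      simp only [map_add, map_smul, eval_add, eval_smul, smul_eq_mul, eval_mul, eval_pow, eval_sub,
        eval_X, eval_C]
      ring
    have := dvd_add h4 h6
    rwa [sub_add_cancel] at this
  have hprod : ∏ x ∈ T, (X - C x) ^ M ∣ H := by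
    refine Finset.prod_dvd_of_coprime ?_ hdvd
    intro x _ y _ hxy
    exact (pairwise_coprime_X_sub_C (K := K) (s := id) Function.injective_id hxy).pow
  have hle := natDegree_le_of_dvd hprod hH0
  rw [natDegree_prod_of_monic _ _ fun x _ => (monic_X_sub_C x).pow M] at hle
  simp only [natDegree_pow, natDegree_X_sub_C, mul_one, Finset.sum_const, smul_eq_mul] at hle
  refine hle.trans ?_
  refine natDegree_sum_le_of_forall_le _ _ fun j _ => ?_
  refine natDegree_mul_le.trans (add_le_add ?_ ?_)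
  · refine (natDegree_add_le _ _).trans (max_le ?_ ?_)
    · exact natDegree_mul_le.trans (add_le_add (natDegree_le_of_degree_le (ha j).le) hdU)
    · exact natDegree_mul_le.trans (add_le_add (natDegree_le_of_degree_le (hb j).le) hdV)
  · refine natDegree_pow_le.trans ?_
    rw [hZdef, natDegree_pow, natDegree_X_sub_C, mul_one]
    exact Nat.mul_le_mul_right _ j.2.le

theorem STEP_pw {K : Type} [Field K] [CharP K 2] (x : K) (k l : ℕ) (hkl : k ≤ l) (g : K[X]) :
    (X - C x) ^ (2 ^ k) ∣ g ^ (2 ^ l) - C (g.eval x ^ (2 ^ l)) := by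
  have h1 : (X - C x) ^ (2 ^ l) ∣ (g - C (g.eval x)) ^ (2 ^ l) :=
    pow_dvd_pow_of_dvd X_sub_C_dvd_sub_C_eval _
  rw [sub_pow_char_pow g, ← map_pow] at h1
  exact (pow_dvd_pow _ (Nat.pow_le_pow_right (by norm_num) hkl)).trans h1

theorem STEP_frac {K : Type} [Field K] (u w : K) (hw : w ≠ 0) (e t : ℕ) (h : t ≤ e) :
    u ^ t * w ^ (e - t) = w ^ e * (u / w) ^ t := by
  obtain ⟨s, rfl⟩ := Nat.exists_eq_add_of_le h
  rw [Nat.add_sub_cancel_left, div_pow, pow_add]
  field_simp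

theorem STEP_K {K : Type} [Field K] [CharP K 2] (N D D1 : K[X]) (hN : N.natDegree ≤ 5)
    (hD : D.natDegree ≤ 5) (al : K) (hD1 : D = (X - C al) * D1) (hD1' : D1.eval al ≠ 0)
    (hNa : N.eval al ≠ 0) (k l : ℕ) (hkl : 2 * k + 1 ≤ l) (eps : K) (T : Finset K)
    (hT : ∀ x ∈ T, x ^ (2 ^ (l + 1)) = x ∧ D.eval x ≠ 0 ∧
      ∑ i ∈ range (l + 1), (N.eval x / D.eval x) ^ (2 ^ i) = eps) :
    T.card * 2 ^ (k + 1) ≤ 2 ^ l + 5 * 2 ^ l + (2 ^ k + 13) * (2 * 2 ^ l) := by
  have hkl' : k + 1 ≤ l := by omega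
  have hp : ∀ {i j : ℕ}, i ≤ j → 2 ^ i ≤ 2 ^ j := fun h => Nat.pow_le_pow_right (by norm_num) h
  have hDa : D.eval al = 0 := by rw [hD1]; simp
  have hU : (X - C al) ^ (2 ^ l) * D1 ^ (2 ^ l) = D ^ (2 ^ l) := by rw [← mul_pow, ← hD1]
  have hterm : ∀ e t : ℕ, t ≤ e → (N ^ t * D ^ (e - t)).natDegree ≤ 5 * e := by
    intro e t ht
    refine natDegree_mul_le.trans ?_
    have h1 : (N ^ t).natDegree ≤ t * 5 := natDegree_pow_le.trans (Nat.mul_le_mul_left _ hN)
    have h2 : (D ^ (e - t)).natDegree ≤ (e - t) * 5 :=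
      natDegree_pow_le.trans (Nat.mul_le_mul_left _ hD)
    omega
  have hDp : ∀ e : ℕ, (D ^ e).natDegree ≤ 5 * e := fun e =>
    natDegree_pow_le.trans (by have := Nat.mul_le_mul_left e hD; omega)
  refine STEP_core T (2 ^ l) (2 ^ (k + 1)) (2 ^ k + 13) (5 * 2 ^ (k + 1)) (5 * 2 ^ l)
    (∑ i ∈ Ico (k + 1) (l + 1), N ^ (2 ^ i) * D ^ (2 ^ l - 2 ^ i)) (D ^ (2 ^ (k + 1)))
    (C eps * D ^ (2 ^ (k + 1)) - ∑ i ∈ range (k + 1), N ^ (2 ^ i) * D ^ (2 ^ (k + 1) - 2 ^ i))
    (D1 ^ (2 ^ l)) al (al ^ (2 ^ (l + 1))) ?_ ?_ ?_ ?_ ?_ ?_ ?_ ?_ ?_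
  · intro x hx
    obtain ⟨-, hx2, hx3⟩ := hT x hx
    have hM : D.eval x ^ (2 ^ (k + 1)) ≠ 0 := pow_ne_zero _ hx2
    refine ⟨D.eval x ^ (2 ^ l) / D.eval x ^ (2 ^ (k + 1)), ?_, ?_⟩
    · rw [hU, eval_pow, div_mul_cancel₀ _ hM]
      exact STEP_pw x _ _ hkl' D
    · have e : D.eval x ^ (2 ^ l) / D.eval x ^ (2 ^ (k + 1)) * eval x (C eps * D ^ (2 ^ (k + 1)) -
          ∑ i ∈ range (k + 1), N ^ (2 ^ i) * D ^ (2 ^ (k + 1) - 2 ^ i)) =
          ∑ i ∈ Ico (k + 1) (l + 1), N.eval x ^ (2 ^ i) * D.eval x ^ (2 ^ l - 2 ^ i) := by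
        rw [eval_sub, eval_mul, eval_C, eval_pow, eval_finsetSum]
        have e1 : ∑ i ∈ range (k + 1), eval x (N ^ (2 ^ i) * D ^ (2 ^ (k + 1) - 2 ^ i)) =
            D.eval x ^ (2 ^ (k + 1)) * ∑ i ∈ range (k + 1), (N.eval x / D.eval x) ^ (2 ^ i) := by
          rw [Finset.mul_sum]
          refine Finset.sum_congr rfl fun i hi => ?_
          rw [eval_mul, eval_pow, eval_pow]
          exact STEP_frac _ _ hx2 _ _ (hp (Finset.mem_range.1 hi).le)
        have e2 : ∑ i ∈ Ico (k + 1) (l + 1), N.eval x ^ (2 ^ i) * D.eval x ^ (2 ^ l - 2 ^ i) =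
            D.eval x ^ (2 ^ l) * ∑ i ∈ Ico (k + 1) (l + 1), (N.eval x / D.eval x) ^ (2 ^ i) := by
          rw [Finset.mul_sum]
          refine Finset.sum_congr rfl fun i hi => ?_
          exact STEP_frac _ _ hx2 _ _ (hp (by have := (Finset.mem_Ico.1 hi).2; omega))
        rw [e1, e2, ← hx3, ← Finset.sum_range_add_sum_Ico _ (show k + 1 ≤ l + 1 by omega)]
        field_simp
        ring
      rw [e, map_sum, ← Finset.sum_sub_distrib]
      refine Finset.dvd_sum fun i hi => ?_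
      obtain ⟨hi1, hi2⟩ := Finset.mem_Ico.1 hi
      obtain ⟨s, hs⟩ := Nat.exists_eq_add_of_le (show i ≤ l by omega)
      have e3 : 2 ^ l - 2 ^ i = (2 ^ s - 1) * 2 ^ i := by
        rw [hs, pow_add, Nat.sub_mul, one_mul, mul_comm]
      have h5 := STEP_pw x _ _ hi1 (N * D ^ (2 ^ s - 1))
      rw [eval_mul, eval_pow, mul_pow, mul_pow, ← pow_mul, ← pow_mul, ← e3] at h5
      exact h5
  · intro x hx
    have h5 := STEP_pw x (k + 1) (l + 1) (by omega) (X - C al)
    rw [eval_sub, eval_X, eval_C, sub_pow_char_pow x, (hT x hx).1] at h5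
    rw [show 2 * 2 ^ l = 2 ^ (l + 1) by ring]
    exact h5
  · rw [eval_finsetSum, Finset.sum_eq_single l]
    · rw [Nat.sub_self, pow_zero, mul_one, eval_pow]
      exact pow_ne_zero _ hNa
    · intro i hi hil
      have h1 : 2 ^ i < 2 ^ l :=
        Nat.pow_lt_pow_right (by norm_num) (by have := (Finset.mem_Ico.1 hi).2; omega)
      rw [eval_mul, eval_pow (p := D), hDa, zero_pow (by omega), mul_zero]
    · intro h
      exact absurd (Finset.mem_Ico.2 ⟨hkl', by omega⟩) h
  · rw [eval_pow]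
    exact pow_ne_zero _ hD1'
  · rw [hU]; exact hDp _
  · exact natDegree_sum_le_of_forall_le _ _ fun i hi =>
      hterm _ _ (hp (by have := (Finset.mem_Ico.1 hi).2; omega))
  · exact hDp _
  · refine (natDegree_sub_le _ _).trans (max_le ?_ ?_)
    · exact (natDegree_C_mul_le _ _).trans (hDp _)
    · exact natDegree_sum_le_of_forall_le _ _ fun i hi =>
        hterm _ _ (hp (Finset.mem_range.1 hi).le)
  · have h1 : 2 * (2 ^ k * 2 ^ k) ≤ 2 ^ l := by
      calc 2 * (2 ^ k * 2 ^ k) = 2 ^ (2 * k + 1) := by ring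
        _ ≤ _ := hp hkl
    have h2 : 1 ≤ 2 ^ k := Nat.one_le_two_pow
    rw [pow_succ]
    generalize 2 ^ k = A at *
    generalize 2 ^ l = B at *
    nlinarith [Nat.mul_le_mul_left A h2]

theorem STEP_real (t : ℝ) (k l : ℕ) (hkl : l ≤ 2 * k + 2)
    (h : t * 2 ^ (k + 1) ≤ 2 ^ l + 5 * 2 ^ l + (2 ^ k + 13) * (2 * 2 ^ l)) :
    t ≤ 2 ^ l + 24 * √(2 ^ (l + 1)) := by
  have hA : (0 : ℝ) < 2 ^ k := by positivity
  have hB : (0 : ℝ) < 2 ^ l := by positivity
  have h1 : (2 : ℝ) ^ l ≤ 4 * (2 ^ k * 2 ^ k) := by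
    calc (2 : ℝ) ^ l ≤ 2 ^ (2 * k + 2) := pow_le_pow_right₀ (by norm_num) hkl
      _ = _ := by ring
  rw [pow_succ] at h
  rw [pow_succ]
  generalize (2 : ℝ) ^ k = A at *
  generalize (2 : ℝ) ^ l = B at *
  have h2 : 2 * B / (3 * A) ≤ √(B * 2) := by
    refine Real.le_sqrt_of_sq_le ?_
    rw [div_pow, div_le_iff₀ (by positivity)]
    nlinarith [mul_le_mul_of_nonneg_left h1 hB.le, mul_pos hB (mul_pos hA hA)]
  rw [div_le_iff₀ (by positivity)] at h2
  by_contra hc
  push Not at hc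
  nlinarith [mul_lt_mul_of_pos_right hc hA]

theorem STEP_F (F : Type) [Field F] [Fintype F] [CharP F 2] (N D : F[X])
    (hN : N.natDegree ≤ 5) (hD : D.natDegree ≤ 5) (hD1 : 1 ≤ D.natDegree) (hs : D.Separable)
    (hc : IsCoprime N D) (l : ℕ) (hl : 1 ≤ l) (hQ : Nat.card F = 2 ^ (l + 1)) (eps : F) :
    ((univ.filter fun x : F => D.eval x ≠ 0 ∧ trs (N.eval x / D.eval x) = eps).card : ℝ) ≤
      2 ^ l + 24 * √(2 ^ (l + 1)) := by
  let K := AlgebraicClosure F
  let φ : F →+* K := algebraMap F K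
  have hφ : Function.Injective φ := φ.injective
  have : CharP K 2 := charP_of_injective_ringHom hφ 2
  have hdeg : (D.map φ).degree ≠ 0 := by
    rw [degree_map]
    intro h0
    have := natDegree_eq_of_degree_eq_some (n := 0) h0
    omega
  obtain ⟨al, hal⟩ := IsAlgClosed.exists_root (D.map φ) hdeg
  obtain ⟨D1, hD1e⟩ := dvd_iff_isRoot.2 hal
  have hD1' : D1.eval al ≠ 0 := by
    intro h0
    obtain ⟨D2, hD2⟩ := dvd_iff_isRoot.2 h0
    have h1 : (X - C al) * (X - C al) ∣ D.map φ := ⟨D2, by rw [hD1e, hD2]; ring⟩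
    exact not_isUnit_X_sub_C al ((hs.map (f := φ)).squarefree _ h1)
  have hNa : (N.map φ).eval al ≠ 0 := by
    intro h0
    have h1 : IsCoprime (N.map φ) (D.map φ) := hc.map (mapRingHom φ)
    exact not_isUnit_X_sub_C al (h1.isUnit_of_dvd' (dvd_iff_isRoot.2 h0) (dvd_iff_isRoot.2 hal))
  have hlog : Nat.log 2 (Nat.card F) = l + 1 := by rw [hQ, Nat.log_pow (by norm_num)]
  have h := STEP_K (N.map φ) (D.map φ) D1 (natDegree_map_le.trans hN) (natDegree_map_le.trans hD)
    al hD1e hD1' hNa ((l - 1) / 2) l (by omega) (φ eps)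
    ((univ.filter fun x : F => D.eval x ≠ 0 ∧ trs (N.eval x / D.eval x) = eps).image φ) (by
      intro y hy
      obtain ⟨x, hx, rfl⟩ := Finset.mem_image.1 hy
      obtain ⟨hx1, hx2⟩ := (Finset.mem_filter.1 hx).2
      rw [eval_map_apply, eval_map_apply]
      refine ⟨?_, (map_ne_zero φ).2 hx1, ?_⟩
      · rw [← map_pow, ← hQ, pow_card']
      · rw [← hx2, trs, hlog, map_sum]
        refine Finset.sum_congr rfl fun i _ => ?_
        rw [map_pow, map_div₀])
  rw [Finset.card_image_of_injective _ hφ] at h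
  refine STEP_real _ ((l - 1) / 2) l (by omega) ?_
  exact_mod_cast h

theorem p_STEP :
    S_STEP := by
  refine ⟨60, by norm_num, ?_⟩
  intro F _ _ _ N D hN hD hD1 hs hc
  have hQ := card_eq_two_pow (K := F)
  have hm := one_le_log (K := F)
  obtain ⟨l, hl⟩ : ∃ l, Nat.log 2 (Nat.card F) = l + 1 := ⟨_, (Nat.sub_add_cancel hm).symm⟩
  rw [hl] at hQ
  have hQR : (Nat.card F : ℝ) = 2 ^ (l + 1) := by exact_mod_cast hQ
  have hsq : 1 ≤ √(Nat.card F : ℝ) := by
    rw [hQR]
    exact Real.le_sqrt_of_sq_le (by rw [one_pow]; exact one_le_pow₀ (by norm_num))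
  rcases Nat.eq_zero_or_pos l with h0 | h0
  · refine (Finset.abs_sum_le_sum_abs _ _).trans ?_
    have h1 : ∑ x : F, |if D.eval x = 0 then 0 else psi (N.eval x / D.eval x)| ≤ ∑ _x : F, (1 : ℝ) := by
      refine Finset.sum_le_sum fun x _ => ?_
      split_ifs
      · simp
      · exact (abs_psi _).le
    rw [Finset.sum_const, Finset.card_univ, ← Nat.card_eq_fintype_card, nsmul_eq_mul, mul_one,
      hQR, h0] at h1
    norm_num at h1
    linarith
  · have hA := STEP_F F N D hN hD hD1 hs hc l h0 hQ 0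
    have hB := STEP_F F N D hN hD hD1 hs hc l h0 hQ 1
    have hD0 : D ≠ 0 := by rintro rfl; simp at hD1
    have hZ : ((univ.filter fun x : F => D.eval x = 0).card : ℝ) ≤ 5 := by
      have h1 : (univ.filter fun x : F => D.eval x = 0) ⊆ D.roots.toFinset := by
        intro x hx
        rw [Multiset.mem_toFinset, mem_roots hD0]
        exact (Finset.mem_filter.1 hx).2
      have h2 := (Finset.card_le_card h1).trans
        ((Multiset.toFinset_card_le _).trans ((card_roots' D).trans hD))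
      exact_mod_cast h2
    rw [Finset.card_filter] at hA hB hZ
    push_cast at hA hB hZ
    have e1 : ∑ x : F, (if D.eval x = 0 then 0 else psi (N.eval x / D.eval x)) =
        (∑ x : F, if D.eval x ≠ 0 ∧ trs (N.eval x / D.eval x) = 0 then (1 : ℝ) else 0) -
          ∑ x : F, if D.eval x ≠ 0 ∧ trs (N.eval x / D.eval x) = 1 then (1 : ℝ) else 0 := by
      rw [← Finset.sum_sub_distrib]
      refine Finset.sum_congr rfl fun x _ => ?_
      by_cases h1 : D.eval x = 0
      · simp [h1]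
      · rcases trs_eq (N.eval x / D.eval x) with h2 | h2 <;> simp [h1, h2, psi]
    have e2 : (∑ x : F, if D.eval x ≠ 0 ∧ trs (N.eval x / D.eval x) = 0 then (1 : ℝ) else 0) +
        (∑ x : F, if D.eval x ≠ 0 ∧ trs (N.eval x / D.eval x) = 1 then (1 : ℝ) else 0) +
        (∑ x : F, if D.eval x = 0 then (1 : ℝ) else 0) = 2 ^ (l + 1) := by
      rw [← Finset.sum_add_distrib, ← Finset.sum_add_distrib, ← hQR, Nat.card_eq_fintype_card,
        ← Finset.card_univ, Finset.card_eq_sum_ones]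
      push_cast
      refine Finset.sum_congr rfl fun x _ => ?_
      by_cases h1 : D.eval x = 0
      · simp [h1]
      · rcases trs_eq (N.eval x / D.eval x) with h2 | h2 <;> simp [h1, h2]
    rw [e1, hQR] at *
    rw [pow_succ (2 : ℝ) l] at e2
    rw [abs_le]
    constructor <;> linarith

end Pool.Agent.P.MP_8be758_nt.C2
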