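import Pool.Agent.P.MP_8be758_nt.C2.If

/-! Step TB2. -/

namespace Pool.Agent.P.MP_8be758_nt.C2

open Polynomial Finset Filter
open scoped Classical Topology

theorem p_TB2 :
    S_TB2 := by
  intro k _ _ Z N
  have hs : (low k N).filter (fun V => V ≠ 0 ∧ ∃ P : k[X], P.Monic ∧ Z < P.natDegree ∧ P ^ 2 ∣ V) ⊆
      ((range (N - Z)).filter fun j => 2 * (N - j) ≤ N).biUnion fun j =>
        (Gs (1 : k[X]) 0 (N - j) ×ˢ low k (N - 2 * (N - j))).image fun z => z.1 ^ 2 * z.2 := by
    intro V hV
    obtain ⟨h1, h0, P, hP, hZ, y, rfl⟩ := mem_filter.1 hV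
    have hy : y ≠ 0 := right_ne_zero_of_mul h0
    have hd := natDegree_lt_of_mem_low h1 h0
    rw [natDegree_mul (pow_ne_zero 2 hP.ne_zero) hy, natDegree_pow] at hd
    refine mem_biUnion.2 ⟨N - P.natDegree, mem_filter.2 ⟨mem_range.2 (by omega), by omega⟩,
      mem_image.2 ⟨(P, y), mem_product.2 ⟨mem_Gs.2 ⟨hP, ?_, one_dvd _⟩,
        mem_low_of_natDegree_lt ?_⟩, rfl⟩⟩
    · change P.natDegree = _
      omega
    · change y.natDegree < _
      omega
  have hc := (card_le_card hs).trans (card_biUnion_le.trans (sum_le_sum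
    (g := fun j => Nat.card k ^ j) fun j hj => card_image_le.trans (by
      have h1 := mem_range.1 (mem_filter.1 hj).1
      have h2 := (mem_filter.1 hj).2
      rw [card_product, card_low]
      refine (Nat.mul_le_mul_right _ (card_Gs_le _ _ _)).trans (le_of_eq ?_)
      rw [← pow_add]
      congr 1
      omega)))
  rcases le_total Z N with h | h
  · have h3 := Nat.geomSum_lt (two_le_card (k := k))
      (s := (range (N - Z)).filter fun j => 2 * (N - j) ≤ N) (n := N - Z)
      fun j hj => mem_range.1 (mem_filter.1 hj).1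
    refine (Nat.mul_le_mul_right _ (hc.trans h3.le)).trans (le_of_eq ?_)
    rw [← pow_add, Nat.sub_add_cancel h]
  · rw [Nat.sub_eq_zero_of_le h, range_zero, filter_empty, sum_empty] at hc
    rw [Nat.le_zero.1 hc, zero_mul]
    exact Nat.zero_le _

end Pool.Agent.P.MP_8be758_nt.C2
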