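import Pool.Agent.P.MP_8be758_nt.C2.If

/-! Step TB4. -/

namespace Pool.Agent.P.MP_8be758_nt.C2

open Polynomial Finset Filter
open scoped Classical Topology
open UniqueFactorizationMonoid (normalizedFactors)

section
variable {k : Type} [Field k] [Finite k]

theorem TB4_count {P : k[X]} (hm : P.Monic) (hi : Irreducible P) (N : ℕ) :
    (∑ V ∈ low k N, (normalizedFactors V).count P) * Nat.card k ^ P.natDegree ≤
      2 * Nat.card k ^ N := by
  have hd := hi.natDegree_pos
  have hq : 2 ≤ Nat.card k ^ P.natDegree :=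
    (two_le_card (k := k)).trans (Nat.le_self_pow hd.ne' _)
  induction N using Nat.strong_induction_on with
  | _ N ih =>
  have h0 : ∀ V ∈ low k N, (normalizedFactors V).count P ≠ 0 → V ≠ 0 ∧ P ∣ V := fun V _ h =>
    ⟨by rintro rfl; simp at h, UniqueFactorizationMonoid.dvd_of_mem_normalizedFactors
      (Multiset.count_ne_zero.1 h)⟩
  rcases le_or_gt N P.natDegree with hN | hN
  · rw [sum_eq_zero fun V hV => by_contra fun h =>
      (h0 V hV h).1 (eq_zero_of_mem_low hV (h0 V hV h).2 hN), zero_mul]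
    exact Nat.zero_le _
  obtain ⟨M, rfl⟩ : ∃ M, N = M + P.natDegree := ⟨N - P.natDegree, by omega⟩
  have h1 : ∑ V ∈ low k (M + P.natDegree), (normalizedFactors V).count P ≤
      ∑ y ∈ low k M, (1 + (normalizedFactors y).count P) := by
    rw [← sum_filter_ne_zero]
    refine (sum_le_sum_of_subset (t := (low k M).image fun y => P * y) fun V hV => ?_).trans ?_
    · obtain ⟨h2, h3⟩ := mem_filter.1 hV
      obtain ⟨h4, y, rfl⟩ := h0 V h2 h3
      refine mem_image.2 ⟨y, mem_low_of_natDegree_lt ?_, rfl⟩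
      have := natDegree_lt_of_mem_low h2 h4
      rw [natDegree_mul hi.ne_zero (right_ne_zero_of_mul h4)] at this
      omega
    · rw [sum_image fun a _ b _ e => mul_left_cancel₀ hi.ne_zero e]
      refine sum_le_sum fun y _ => ?_
      rcases eq_or_ne y 0 with rfl | hy
      · simp
      · rw [UniqueFactorizationMonoid.normalizedFactors_mul hi.ne_zero hy,
          UniqueFactorizationMonoid.normalizedFactors_irreducible hi, hm.normalize_eq_self,
          Multiset.count_add, Multiset.count_singleton_self]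
  rw [sum_add_distrib, sum_const, card_low, smul_eq_mul, mul_one] at h1
  have h2 := ih M (by omega)
  have h3 := Nat.mul_le_mul_right (Nat.card k ^ P.natDegree) h1
  have h4 := Nat.mul_le_mul_left (Nat.card k ^ M) hq
  rw [pow_add]
  rw [add_mul] at h3
  omega

theorem TB4_card (I : Finset k[X]) {d : ℕ} (hd : 1 ≤ d)
    (h : ∀ P ∈ I, P.Monic ∧ Irreducible P ∧ P.natDegree = d) : d * I.card ≤ Nat.card k ^ d := by
  have hq : 1 < Nat.card k := two_le_card
  have h1 : ∏ P ∈ I, P ∣ (X ^ Nat.card k ^ d - X : k[X]) := by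
    refine prod_dvd_of_coprime (fun P hP Q hQ e => ?_) fun P hP =>
      (h P hP).2.1.natDegree_dvd_iff_dvd_X_pow_card_pow_sub_X.1 (by rw [(h P hP).2.2])
    exact (h P hP).2.1.coprime_iff_not_dvd.2 fun hd => e (eq_of_monic_of_associated (h P hP).1
      (h Q hQ).1 (((h P hP).2.1.dvd_irreducible_iff_associated (h Q hQ).2.1).1 hd))
  have h2 := natDegree_le_of_dvd h1 (FiniteField.X_pow_card_pow_sub_X_ne_zero k (by omega) hq)
  rw [FiniteField.X_pow_card_pow_sub_X_natDegree_eq k (by omega) hq,
    natDegree_prod_of_monic _ _ fun P hP => (h P hP).1, sum_congr rfl fun P hP => (h P hP).2.2,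
    sum_const, smul_eq_mul, mul_comm] at h2
  exact h2

end

theorem p_TB4 :
    S_TB4 := by
  intro k _ _ Z N
  set I := (low k (Z + 1)).filter fun P => P.Monic ∧ Irreducible P with hI
  have h1 : ∀ V : k[X], smd Z V ≤ ∑ P ∈ I, P.natDegree * (normalizedFactors V).count P := by
    intro V
    rw [smd, sum_multiset_map_count]
    refine (sum_le_sum fun P _ => ?_).trans (sum_le_sum_of_subset fun P hP => ?_)
    · rw [smul_eq_mul, mul_comm]
      exact Nat.mul_le_mul_left _ (Multiset.count_le_of_le _ (Multiset.filter_le _ _))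
    · obtain ⟨h2, h3⟩ := Multiset.mem_filter.1 (Multiset.mem_toFinset.1 hP)
      have h4 : V ≠ 0 := by rintro rfl; simp at h2
      obtain ⟨h5, h6, -⟩ := (Polynomial.mem_normalizedFactors_iff h4).1 h2
      exact mem_filter.2 ⟨mem_low_of_natDegree_lt (by omega), h6, h5⟩
  refine (sum_le_sum fun V _ => h1 V).trans ?_
  rw [sum_comm, ← sum_fiberwise_of_maps_to (g := natDegree) (t := Icc 1 Z) fun P hP => ?_]
  · calc _ ≤ ∑ _d ∈ Icc 1 Z, 2 * Nat.card k ^ N := sum_le_sum fun d hd => ?_
      _ = _ := by rw [sum_const, Nat.card_Icc, smul_eq_mul, Nat.add_sub_cancel]; ring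
    set J := I.filter fun P => P.natDegree = d
    have hJ : ∀ P ∈ J, P.Monic ∧ Irreducible P ∧ P.natDegree = d := fun P hP =>
      ⟨(mem_filter.1 (mem_filter.1 hP).1).2.1, (mem_filter.1 (mem_filter.1 hP).1).2.2,
        (mem_filter.1 hP).2⟩
    have hq : 0 < Nat.card k ^ d := pow_pos Nat.card_pos _
    refine Nat.le_of_mul_le_mul_right ?_ hq
    calc _ = ∑ P ∈ J, d * ((∑ V ∈ low k N, (normalizedFactors V).count P) *
          Nat.card k ^ P.natDegree) := by
          rw [sum_mul]
          exact sum_congr rfl fun P hP => by rw [← mul_sum, (hJ P hP).2.2, mul_assoc]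
      _ ≤ ∑ _P ∈ J, d * (2 * Nat.card k ^ N) := sum_le_sum fun P hP =>
          Nat.mul_le_mul_left _ (TB4_count (hJ P hP).1 (hJ P hP).2.1 N)
      _ = 2 * Nat.card k ^ N * (d * J.card) := by rw [sum_const, smul_eq_mul]; ring
      _ ≤ _ := Nat.mul_le_mul_left _ (TB4_card J (mem_Icc.1 hd).1 hJ)
  · obtain ⟨h2, h3, h4⟩ := mem_filter.1 hP
    have := natDegree_lt_of_mem_low h2 h4.ne_zero
    exact mem_Icc.2 ⟨h4.natDegree_pos, by omega⟩

end Pool.Agent.P.MP_8be758_nt.C2
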