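import Pool.Agent.P.MP_8be758_nt.C2.If

/-! Step TYP. -/

namespace Pool.Agent.P.MP_8be758_nt.C2

open Polynomial Finset Filter
open scoped Classical Topology

theorem TYP_mono {k : Type} [Field k] {Y Z : ℕ} (h : Y ≤ Z) (V : k[X]) : smd Y V ≤ smd Z V := by
  unfold smd
  obtain ⟨u, hu⟩ := Multiset.le_iff_exists_add.1
    (Multiset.monotone_filter_right (UniqueFactorizationMonoid.normalizedFactors V)
      (p := fun P => P.natDegree ≤ Y) (q := fun P => P.natDegree ≤ Z) fun _ hP => hP.trans h)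
  rw [hu, Multiset.map_add, Multiset.sum_add]
  exact Nat.le_add_right _ _

theorem TYP_good {k : Type} [Field k] {K D N Y Z : ℕ} {V : k[X]} (hN : 0 < N)
    (h1 : V.natDegree < N) (h2 : N ≤ 2 * V.natDegree)
    (h3 : ¬∃ P : k[X], P.Monic ∧ Z < P.natDegree ∧ P ^ 2 ∣ V) (h4 : D ≤ smd Y V) (h5 : Y ≤ Z)
    (h6 : D ≤ Z) (h7 : 10 * smd Z V ≤ N) (h8 : N ≤ K * (Z + 1)) :
    ∃ V1 s, Good K D N V V1 s := by
  have h0 : V ≠ 0 := by
    rintro rfl
    simp at h2
    omega
  have h9 := TYP_mono h5 V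
  unfold smd at h7
  rw [show smd Z V = (((UniqueFactorizationMonoid.normalizedFactors V).filter
    (fun P => P.natDegree ≤ Z)).map natDegree).sum from rfl] at h9
  have hV := leadingCoeff_mul_prod_normalizedFactors V
  have hm : ∀ P ∈ UniqueFactorizationMonoid.normalizedFactors V, Irreducible P ∧ P.Monic :=
    fun P hP => ⟨((Polynomial.mem_normalizedFactors_iff h0).1 hP).1,
      ((Polynomial.mem_normalizedFactors_iff h0).1 hP).2.1⟩
  generalize UniqueFactorizationMonoid.normalizedFactors V = F at h7 h9 hV hm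
  have hF := Multiset.filter_add_not (fun P : k[X] => P.natDegree ≤ Z) F
  have m1 : ∀ P ∈ F.filter (fun P : k[X] => P.natDegree ≤ Z), P.Monic :=
    fun P hP => (hm P (Multiset.mem_filter.1 hP).1).2
  have m2 : ∀ P ∈ F.filter (fun P : k[X] => ¬P.natDegree ≤ Z),
      P.Monic ∧ Irreducible P ∧ Z < P.natDegree := fun P hP =>
    ⟨(hm P (Multiset.mem_filter.1 hP).1).2, (hm P (Multiset.mem_filter.1 hP).1).1,
      not_le.1 (Multiset.mem_filter.1 hP).2⟩
  generalize F.filter (fun P : k[X] => P.natDegree ≤ Z) = F1 at h7 h9 hF m1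
  generalize F.filter (fun P : k[X] => ¬P.natDegree ≤ Z) = F2 at hF m2
  subst hF
  rw [Multiset.prod_add, ← mul_assoc] at hV
  have d1 : (C V.leadingCoeff * F1.prod).natDegree = (F1.map natDegree).sum := by
    rw [natDegree_C_mul (leadingCoeff_ne_zero.2 h0), natDegree_multiset_prod_of_monic _ m1]
  generalize C V.leadingCoeff * F1.prod = V1 at hV d1
  rw [← d1] at h7 h9
  have nd : F2.Nodup := by
    rw [Multiset.nodup_iff_count_le_one]
    intro P
    by_contra hc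
    have c2 : 2 ≤ F2.count P := by omega
    have hP : P ∈ F2 := Multiset.count_pos.1 (by omega)
    have dv := Multiset.prod_dvd_prod_of_le (Multiset.le_count_iff_replicate_le.1 c2)
    rw [Multiset.prod_replicate] at dv
    exact h3 ⟨P, (m2 P hP).1, (m2 P hP).2.2, hV ▸ dv.mul_left V1⟩
  have d2 : F2.prod.natDegree = (F2.map natDegree).sum :=
    natDegree_multiset_prod_of_monic _ fun P hP => (m2 P hP).1
  have d3 : F2.prod.natDegree ≤ V.natDegree := natDegree_le_of_dvd ⟨V1, by rw [← hV]; ring⟩ h0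
  have d4 : (F2.map natDegree).card • (Z + 1) ≤ (F2.map natDegree).sum :=
    Multiset.card_nsmul_le_sum fun x hx => by
      obtain ⟨P, hP, rfl⟩ := Multiset.mem_map.1 hx
      exact (m2 P hP).2.2
  rw [Multiset.card_map, smul_eq_mul] at d4
  have pr : ∏ P ∈ (⟨F2, nd⟩ : Finset k[X]), P = F2.prod := by
    rw [Finset.prod_mk, Multiset.map_id']
  refine ⟨V1, ⟨F2, nd⟩, by rw [pr, hV], ?_, ?_, fun P hP => ?_, h4.trans h9, h7⟩
  · rw [Finset.card_mk]
    exact (Nat.lt_of_mul_lt_mul_right (a := Z + 1) (by omega)).le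
  · rw [nonempty_iff_ne_empty]
    intro e
    rw [← pr, e, prod_empty, mul_one] at hV
    rw [hV] at h7
    omega
  · have hP' : P ∈ F2 := hP
    obtain ⟨a1, a2, a3⟩ := m2 P hP'
    refine ⟨a1, a2, by omega, fun hd => h3 ⟨P, a1, a3, ?_⟩⟩
    rw [← hV, sq]
    exact mul_dvd_mul hd (Multiset.dvd_prod hP')

theorem TYP_pow {q δ x : ℝ} {Z0 a N : ℕ} (hq : 2 ≤ q) (hδ : 0 < δ) (h : 4 ≤ δ * 2 ^ Z0)
    (ha : Z0 ≤ a) (hx : 0 ≤ x) (h1 : x * q ^ a ≤ q ^ N) : x ≤ δ / 4 * q ^ N := by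
  have e1 : (2 : ℝ) ^ Z0 ≤ q ^ a :=
    (pow_le_pow_left₀ (by norm_num) hq _).trans (pow_le_pow_right₀ (by linarith) ha)
  have e2 : 4 ≤ δ * q ^ a := h.trans (mul_le_mul_of_nonneg_left e1 hδ.le)
  have e3 := mul_le_mul_of_nonneg_left e2 hx
  have e4 := mul_le_mul_of_nonneg_left h1 hδ.le
  nlinarith

theorem p_TYP (hTB2 : S_TB2) (hTB3 : S_TB3) (hTB4 : S_TB4) :
    S_TYP := by
  intro k _ _ δ hδ
  obtain ⟨K, hK⟩ := exists_nat_ge (80 / δ)
  rw [div_le_iff₀ hδ] at hK
  have hK0 : 0 < K := Nat.pos_of_ne_zero (by rintro rfl; norm_num at hK)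
  refine ⟨K, fun D => ?_⟩
  obtain ⟨Y, N1, h3⟩ := hTB3 k D (δ / 4) (by positivity)
  obtain ⟨Z0, hZ0⟩ := pow_unbounded_of_one_lt (4 / δ) (one_lt_two (α := ℝ))
  rw [div_lt_iff₀' hδ] at hZ0
  refine ⟨N1 + K * (Y + D + Z0 + 1) + 2 * Z0 + 2, fun N hN => ?_⟩
  have hZ : Y + D + Z0 + 1 ≤ N / K := (Nat.le_div_iff_mul_le hK0).2 (by rw [mul_comm]; omega)
  have z1 : N / K * K ≤ N := Nat.div_mul_le_self N K
  have z2 : N ≤ K * (N / K + 1) := (Nat.lt_mul_div_succ N hK0).le
  have h2 := hTB2 k (N / K) N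
  have h4 := hTB4 k (N / K) N
  replace h3 := h3 N (by omega)
  generalize N / K = Z at *
  have hq : (2 : ℝ) ≤ Nat.card k := by exact_mod_cast two_le_card (k := k)
  have sub : (low k N).filter (fun V => ¬ ∃ V1 s, Good K D N V V1 s) ⊆
      low k ((N + 1) / 2) ∪ (low k N).filter (fun V => V ≠ 0 ∧ ∃ P : k[X], P.Monic ∧
        Z < P.natDegree ∧ P ^ 2 ∣ V) ∪
      (low k N).filter (fun V => N ≤ 2 * V.natDegree ∧ smd Y V < D) ∪
      (low k N).filter (fun V => N < 10 * smd Z V) := by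
    intro V hV
    obtain ⟨v1, v2⟩ := mem_filter.1 hV
    by_contra hc
    simp only [mem_union, mem_filter, not_or] at hc
    obtain ⟨⟨⟨c1, c2⟩, c3⟩, c4⟩ := hc
    have a1 : N ≤ 2 * V.natDegree := by
      by_contra a
      exact c1 (mem_low_of_natDegree_lt (by omega))
    have a0 : V ≠ 0 := by
      rintro rfl
      exact c1 (zero_mem_low _)
    exact v2 (TYP_good (Y := Y) (Z := Z) (by omega) (natDegree_lt_of_mem_low v1 a0) a1
      (fun g => c2 ⟨v1, a0, g⟩) (not_lt.1 fun g => c3 ⟨v1, a1, g⟩) (by omega) (by omega)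
      (not_lt.1 fun g => c4 ⟨v1, g⟩) z2)
  have b1 : ((low k ((N + 1) / 2)).card : ℝ) ≤ δ / 4 * (Nat.card k : ℝ) ^ N := by
    refine TYP_pow (a := N - (N + 1) / 2) hq hδ hZ0.le (by omega) (Nat.cast_nonneg _) ?_
    rw [card_low, Nat.cast_pow, ← pow_add, Nat.add_sub_cancel' (by omega)]
  have b2 := TYP_pow (a := Z) (N := N) hq hδ hZ0.le (by omega) (Nat.cast_nonneg _)
    (by exact_mod_cast h2)
  have b4 : (((low k N).filter (fun V => N < 10 * smd Z V)).card : ℝ) ≤
      δ / 4 * (Nat.card k : ℝ) ^ N := by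
    have e1 : ((low k N).filter (fun V => N < 10 * smd Z V)).card * N ≤
        10 * ∑ V ∈ low k N, smd Z V := by
      rw [mul_sum]
      refine le_trans ?_ (sum_le_sum_of_subset (filter_subset (fun V => N < 10 * smd Z V) _))
      rw [← smul_eq_mul]
      exact card_nsmul_le_sum _ _ _ fun V hV => (mem_filter.1 hV).2.le
    generalize ((low k N).filter (fun V => N < 10 * smd Z V)).card = c at *
    have e2 : Z * (c * K) ≤ Z * (20 * Nat.card k ^ N) := by
      calc Z * (c * K) = c * (Z * K) := by ring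
        _ ≤ c * N := Nat.mul_le_mul_left _ z1
        _ ≤ 10 * (2 * Z * Nat.card k ^ N) := e1.trans (Nat.mul_le_mul_left _ h4)
        _ = _ := by ring
    have e3 : (c : ℝ) * K ≤ 20 * (Nat.card k : ℝ) ^ N := by
      exact_mod_cast Nat.le_of_mul_le_mul_left e2 (by omega)
    have e4 := mul_le_mul_of_nonneg_left hK (Nat.cast_nonneg (α := ℝ) c)
    have e5 := mul_le_mul_of_nonneg_left e3 hδ.le
    nlinarith
  have t1 := (card_le_card sub).trans ((card_union_le _ _).trans (Nat.add_le_add_right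
    ((card_union_le _ _).trans (Nat.add_le_add_right (card_union_le _ _) _)) _))
  have t2 := (Nat.cast_le (α := ℝ)).2 t1
  rw [Nat.cast_add, Nat.cast_add, Nat.cast_add] at t2
  linarith

end Pool.Agent.P.MP_8be758_nt.C2
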