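import Pool.Agent.P.MP_8be758_nt.C2.TBAD1b
import Pool.Agent.P.MP_8be758_nt.C2.TBAD2b
import Pool.Agent.P.MP_8be758_nt.C2.TCOMP
import Pool.Agent.P.MP_8be758_nt.C2.TCOR2
import Pool.Agent.P.MP_8be758_nt.C2.TCORE2
import Pool.Agent.P.MP_8be758_nt.C2.TDEC2
import Pool.Agent.P.MP_8be758_nt.C2.TDLOC
import Pool.Agent.P.MP_8be758_nt.C2.TFORM
import Pool.Agent.P.MP_8be758_nt.C2.TGEN
import Pool.Agent.P.MP_8be758_nt.C2.TINF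
import Pool.Agent.P.MP_8be758_nt.C2.TINFY
import Pool.Agent.P.MP_8be758_nt.C2.TLAL
import Pool.Agent.P.MP_8be758_nt.C2.TLKS2
import Pool.Agent.P.MP_8be758_nt.C2.TLOC
import Pool.Agent.P.MP_8be758_nt.C2.TMAIN2
import Pool.Agent.P.MP_8be758_nt.C2.TPF
import Pool.Agent.P.MP_8be758_nt.C2.TROUGH
import Pool.Agent.P.MP_8be758_nt.C2.TSPLIT
import Pool.Agent.P.MP_8be758_nt.C2.TSTEP
import Pool.Agent.P.MP_8be758_nt.C2.TTB2
import Pool.Agent.P.MP_8be758_nt.C2.TTB3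
import Pool.Agent.P.MP_8be758_nt.C2.TTB4
import Pool.Agent.P.MP_8be758_nt.C2.TTYP
import Pool.Agent.P.MP_8be758_nt.C2.TVDC

/-! The steps put together. -/

namespace Pool.Agent.P.MP_8be758_nt.C2

theorem t_MAIN2 : S_MAIN2 :=
  p_MAIN2
    (p_CORE2 (p_DEC2 (p_FORM p_PF p_INFY) (p_SPLIT p_LOC) (p_DLOC p_LAL)) p_VDC
      (p_COR2 p_INF p_COMP (p_LKS2 p_STEP p_LOC)))
    (p_BAD1b (p_TYP p_TB2 (p_TB3 p_ROUGH) p_TB4)) p_BAD2b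

theorem t_GEN : S_GEN := p_GEN t_MAIN2

end Pool.Agent.P.MP_8be758_nt.C2
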