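import Pool.Agent.P.MP_8be758_nt.C2.Defs

/-! Basic lemmas for the characteristic two project. -/

namespace Pool.Agent.P.MP_8be758_nt.C2

open Polynomial Finset

set_option linter.unusedSectionVars false

section low
variable {k : Type} [Field k] [Finite k]

theorem mem_low {L : ℕ} {p : k[X]} : p ∈ low k L ↔ p.degree < (L : WithBot ℕ) := by
  simp [low]

theorem card_low (L : ℕ) : (low k L).card = Nat.card k ^ L := by
  have e : (low k L).card = Nat.card (Polynomial.degreeLT k L) := by
    rw [← Nat.card_eq_finsetCard]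
    exact Nat.card_congr (Equiv.subtypeEquivRight fun p => by
      rw [mem_low, Polynomial.mem_degreeLT])
  rw [e, Nat.card_congr (Polynomial.degreeLTEquiv k L).toEquiv, Nat.card_fun]
  simp

theorem zero_mem_low (L : ℕ) : (0 : k[X]) ∈ low k L := by
  simp [mem_low]

theorem add_mem_low {L : ℕ} {p p' : k[X]} (h : p ∈ low k L) (h' : p' ∈ low k L) :
    p + p' ∈ low k L := by
  rw [mem_low] at *
  exact lt_of_le_of_lt (degree_add_le _ _) (max_lt h h')

theorem sub_mem_low {L : ℕ} {p p' : k[X]} (h : p ∈ low k L) (h' : p' ∈ low k L) :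
    p - p' ∈ low k L := by
  rw [mem_low] at *
  exact lt_of_le_of_lt (degree_sub_le _ _) (max_lt h h')

theorem low_mono {L L' : ℕ} (h : L ≤ L') : low k L ⊆ low k L' := by
  intro p hp
  rw [mem_low] at *
  exact lt_of_lt_of_le hp (by exact_mod_cast h)

theorem mem_low_of_natDegree_lt {L : ℕ} {p : k[X]} (h : p.natDegree < L) : p ∈ low k L := by
  rw [mem_low]
  exact lt_of_le_of_lt degree_le_natDegree (by exact_mod_cast h)

theorem natDegree_le_of_mem_low {L : ℕ} {p : k[X]} (h : p ∈ low k L) : p.natDegree ≤ L - 1 := by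
  by_cases h0 : p = 0
  · simp [h0]
  · rw [mem_low, degree_eq_natDegree h0] at h
    have : p.natDegree < L := by exact_mod_cast h
    omega

theorem natDegree_lt_of_mem_low {L : ℕ} {p : k[X]} (h : p ∈ low k L) (h0 : p ≠ 0) :
    p.natDegree < L := by
  rw [mem_low, degree_eq_natDegree h0] at h
  exact_mod_cast h

theorem mul_mem_low {L L' : ℕ} {c p : k[X]} (h : p ∈ low k L) (hc : c.natDegree + L ≤ L') :
    c * p ∈ low k L' := by
  by_cases h0 : p = 0
  · simp [h0, zero_mem_low]
  · apply mem_low_of_natDegree_lt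
    have := natDegree_lt_of_mem_low h h0
    have := natDegree_mul_le (p := c) (q := p)
    omega

theorem eq_zero_of_mem_low {L : ℕ} {P p : k[X]} (h : p ∈ low k L) (hd : P ∣ p)
    (hL : L ≤ P.natDegree) : p = 0 := by
  by_contra h0
  have := natDegree_lt_of_mem_low h h0
  have := natDegree_le_of_dvd hd h0
  omega

theorem mod_mem_low {P : k[X]} (hP : P ≠ 0) (p : k[X]) : p % P ∈ low k P.natDegree := by
  rw [mem_low, ← degree_eq_natDegree hP]
  exact degree_mod_lt p hP

theorem mem_Gs {M r g : k[X]} {n : ℕ} :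
    g ∈ Gs M r n ↔ g.Monic ∧ g.natDegree = n ∧ M ∣ g - r := by
  classical
  unfold Gs
  rw [mem_filter]
  refine ⟨fun h => h.2, fun h => ⟨mem_low_of_natDegree_lt (by omega), h⟩⟩

theorem card_Gs_le (M r : k[X]) (n : ℕ) : (Gs M r n).card ≤ Nat.card k ^ n := by
  rw [← card_low]
  refine card_le_card_of_injOn (fun g => g - X ^ n) ?_ ?_
  · intro g hg
    obtain ⟨h1, h2, -⟩ := mem_Gs.1 (mem_coe.1 hg)
    simp only [mem_coe, mem_low]
    have hd : g.degree = n := by rw [degree_eq_natDegree h1.ne_zero, h2]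
    have := degree_sub_lt_left (p := g) (q := X ^ n) (by rw [hd, degree_X_pow]) h1.ne_zero
      (by rw [h1.leadingCoeff, leadingCoeff_X_pow])
    rwa [hd] at this
  · intro a _ b _ h
    simpa using h

theorem add_mem_Gs {M r g v : k[X]} {n : ℕ} (hg : g ∈ Gs M r n) (hv : v ∈ low k n)
    (hM : M ∣ v) : g + v ∈ Gs M r n := by
  obtain ⟨h1, h2, h3⟩ := mem_Gs.1 hg
  have hd : v.degree < g.degree := by
    rw [degree_eq_natDegree h1.ne_zero, h2]; exact mem_low.1 hv
  refine mem_Gs.2 ⟨h1.add_of_left hd, ?_, ?_⟩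
  · rw [← h2]; exact natDegree_eq_of_degree_eq (degree_add_eq_left_of_degree_lt hd)
  · have : g + v - r = (g - r) + v := by ring
    rw [this]; exact dvd_add h3 hM

theorem two_le_card : 2 ≤ Nat.card k := by
  exact Finite.one_lt_card

end low

section shift
variable {k : Type} [Field k] [CharP k 2]

theorem add_self' (p : k[X]) : p + p = 0 := by
  exact CharTwo.add_self_eq_zero p

theorem sum_shift (G : Finset k[X]) (v : k[X]) (hG : ∀ g ∈ G, g + v ∈ G) (f : k[X] → ℝ) :
    ∑ g ∈ G, f (g + v) = ∑ g ∈ G, f g := by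
  refine sum_nbij' (fun g => g + v) (fun g => g + v) hG hG ?_ ?_ (fun _ _ => rfl)
  · intro g _; simp [add_assoc, add_self']
  · intro g _; simp [add_assoc, add_self']

theorem sum_avg {ι : Type} (G : Finset k[X]) (T : Finset ι) (v : ι → k[X])
    (hG : ∀ t ∈ T, ∀ g ∈ G, g + v t ∈ G) (f : k[X] → ℝ) :
    (T.card : ℝ) * ∑ g ∈ G, f g = ∑ g ∈ G, ∑ t ∈ T, f (g + v t) := by
  rw [sum_comm, sum_congr rfl (fun t ht => sum_shift G (v t) (hG t ht) f)]
  simp

theorem expand_fr (B : k[X]) : expand k 2 (fr B) = B ^ 2 := by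
  rw [fr, ← map_expand, map_frobenius_expand]

theorem natDegree_fr (B : k[X]) : (fr B).natDegree = B.natDegree := by
  exact natDegree_map _

theorem fr_ne_zero {B : k[X]} (h : B ≠ 0) : fr B ≠ 0 := by
  exact map_ne_zero h

theorem derivative_eo (U V : k[X]) : derivative (eo U V) = expand k 2 V := by
  have h2 : (2 : k[X]) = 0 := CharTwo.two_eq_zero
  simp only [eo, derivative_add, derivative_mul, derivative_X, derivative_expand]
  simp [h2]

theorem derivative_sq_add (U0 a : k[X]) : derivative (U0 ^ 2 + X * a ^ 2) = a ^ 2 := by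
  have h2 : (2 : k[X]) = 0 := CharTwo.two_eq_zero
  simp only [derivative_add, derivative_mul, derivative_X, sq]
  linear_combination (derivative U0 * U0 + X * derivative a * a) * h2

end shift

theorem abs_mu_le {k : Type} [Field k] (f : k[X]) : |mu f| ≤ 1 := by
  unfold mu UniqueFactorizationMonoid.moebius
  split_ifs
  · simp
  · simp

section eo
variable {R : Type} [CommRing R]

theorem coeff_eo_even (U V : R[X]) (j : ℕ) : (eo U V).coeff (2 * j) = U.coeff j := by
  unfold eo
  rw [coeff_add, coeff_expand_mul' (by norm_num)]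
  rcases j with _ | j
  · simp
  · rw [show 2 * (j + 1) = (2 * j + 1) + 1 by ring, coeff_X_mul, coeff_expand (by norm_num),
      if_neg (by omega), add_zero]

theorem coeff_eo_odd (U V : R[X]) (j : ℕ) : (eo U V).coeff (2 * j + 1) = V.coeff j := by
  unfold eo
  rw [coeff_add, coeff_X_mul, coeff_expand_mul' (by norm_num), coeff_expand (by norm_num),
    if_neg (by omega), zero_add]

theorem eo_evp_odp (f : R[X]) : eo (evp f) (odp f) = f := by
  ext j
  obtain ⟨i, rfl | rfl⟩ := Nat.even_or_odd' j
  · rw [coeff_eo_even, evp, coeff_contract (by norm_num), mul_comm]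
  · rw [coeff_eo_odd, odp, coeff_contract (by norm_num), coeff_divX, mul_comm]

theorem evp_eo (U V : R[X]) : evp (eo U V) = U := by
  ext j
  rw [evp, coeff_contract (by norm_num), mul_comm, coeff_eo_even]

theorem odp_eo (U V : R[X]) : odp (eo U V) = V := by
  ext j
  rw [odp, coeff_contract (by norm_num), coeff_divX, mul_comm, coeff_eo_odd]

theorem eo_inj {U V U' V' : R[X]} (h : eo U V = eo U' V') : U = U' ∧ V = V' := by
  exact ⟨by rw [← evp_eo U V, h, evp_eo], by rw [← odp_eo U V, h, odp_eo]⟩

theorem map_eo {S : Type} [CommRing S] (f : R →+* S) (U V : R[X]) :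
    (eo U V).map f = eo (U.map f) (V.map f) := by
  simp [eo, Polynomial.map_add, Polynomial.map_mul, map_expand]

end eo

section psi
variable {K : Type} [Field K] [Finite K] [CharP K 2]

theorem card_eq_two_pow : Nat.card K = 2 ^ Nat.log 2 (Nat.card K) := by
  have := Fintype.ofFinite K
  obtain ⟨n, -, hn⟩ := FiniteField.card K 2
  rw [Nat.card_eq_fintype_card, hn, Nat.log_pow (by norm_num)]

theorem one_le_log : 1 ≤ Nat.log 2 (Nat.card K) := by
  have h := card_eq_two_pow (K := K)
  have h2 := two_le_card (k := K)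
  by_contra h0
  have : Nat.log 2 (Nat.card K) = 0 := by omega
  rw [this] at h; omega

theorem pow_card' (y : K) : y ^ Nat.card K = y := by
  have := Fintype.ofFinite K
  rw [Nat.card_eq_fintype_card]; exact FiniteField.pow_card y

theorem exists_sqrt (y : K) : ∃ z : K, z ^ 2 = y := by
  exact FiniteField.isSquare_of_char_two (ringChar.eq K 2) y |>.imp fun z hz => by rw [hz, sq]

theorem trs_add (x y : K) : trs (x + y) = trs x + trs y := by
  simp only [trs, ← sum_add_distrib]
  exact sum_congr rfl fun i _ => add_pow_char_pow x y 2 i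

theorem trs_zero : trs (0 : K) = 0 := by
  simp [trs]

theorem trs_mul_self (y : K) : trs y ^ 2 = trs y := by
  have h1 : trs y ^ 2 = ∑ i ∈ range (Nat.log 2 (Nat.card K)), y ^ (2 ^ (i + 1)) := by
    rw [trs, sum_pow_char]
    exact sum_congr rfl fun i _ => by rw [← pow_mul, pow_succ]
  have h2 := sum_range_succ' (fun i => y ^ (2 ^ i)) (Nat.log 2 (Nat.card K))
  rw [sum_range_succ, ← card_eq_two_pow, pow_card', pow_zero, pow_one] at h2
  rw [h1]; exact (add_right_cancel h2).symm

theorem trs_sq (y : K) : trs (y ^ 2) = trs y := by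
  rw [← trs_mul_self y, trs, trs, sum_pow_char]
  exact sum_congr rfl fun i _ => by rw [← pow_mul, ← pow_mul, mul_comm]

theorem trs_eq (y : K) : trs y = 0 ∨ trs y = 1 := by
  have h := trs_mul_self y
  have : trs y * (trs y - 1) = 0 := by linear_combination h
  rcases mul_eq_zero.1 this with h | h
  · exact Or.inl h
  · exact Or.inr (sub_eq_zero.1 h)

theorem psi_add (x y : K) : psi (x + y) = psi x * psi y := by
  unfold psi
  rw [trs_add]
  rcases trs_eq x with h | h <;> rcases trs_eq y with h' | h' <;>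
    simp [h, h', CharTwo.add_self_eq_zero]

theorem psi_zero : psi (0 : K) = 1 := by
  simp [psi, trs_zero]

theorem psi_sq (y : K) : psi (y ^ 2) = psi y := by
  unfold psi; rw [trs_sq]

theorem psi_sum {ι : Type} (s : Finset ι) (f : ι → K) :
    psi (∑ i ∈ s, f i) = ∏ i ∈ s, psi (f i) := by
  classical
  induction s using Finset.induction_on with
  | empty => simp [psi_zero]
  | insert a s ha ih => rw [sum_insert ha, prod_insert ha, psi_add, ih]

theorem exists_psi_neg : ∃ y : K, psi y = -1 := by
  classical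
  have := Fintype.ofFinite K
  by_contra hc
  have hall : ∀ y : K, trs y = 0 := fun y => by
    by_contra h; exact hc ⟨y, by simp [psi, h]⟩
  obtain ⟨m, hm⟩ : ∃ m, Nat.log 2 (Nat.card K) = m + 1 :=
    ⟨Nat.log 2 (Nat.card K) - 1, by have := one_le_log (K := K); omega⟩
  set p : K[X] := ∑ i ∈ range (m + 1), X ^ (2 ^ i) with hp
  have hdeg : p.natDegree ≤ 2 ^ m := by
    refine natDegree_sum_le_of_forall_le _ _ fun i hi => ?_
    rw [natDegree_X_pow]
    exact Nat.pow_le_pow_right (by norm_num) (by simp at hi; omega)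
  have h0 : p = 0 := by
    refine eq_zero_of_natDegree_lt_card_of_eval_eq_zero p (f := fun y : K => y)
      Function.injective_id (fun y => ?_) ?_
    · have := hall y
      rw [trs, hm] at this
      simpa [hp, eval_finsetSum] using this
    · have h := card_eq_two_pow (K := K)
      rw [hm, Nat.card_eq_fintype_card] at h
      rw [h, pow_succ]
      have : 0 < 2 ^ m := by positivity
      omega
  have h1 : p.coeff 1 = 1 := by
    rw [hp, finsetSum_coeff, sum_eq_single 0]
    · simp
    · intro i _ hi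
      rw [coeff_X_pow, if_neg]
      have := Nat.one_lt_two_pow hi
      omega
    · simp
  rw [h0] at h1
  simp at h1

end psi

theorem psi_eq {K : Type} [Field K] (y : K) : psi y = 1 ∨ psi y = -1 := by
  unfold psi; split_ifs <;> simp

theorem abs_psi {K : Type} [Field K] (y : K) : |psi y| = 1 := by
  rcases psi_eq y with h | h <;> simp [h]

theorem psi_mul_self {K : Type} [Field K] (y : K) : psi y * psi y = 1 := by
  rcases psi_eq y with h | h <;> simp [h]

section res
variable {k : Type} [Field k]

theorem res_add (M H H' : k[X]) : res M (H + H') = res M H + res M H' := by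
  simp only [res, Polynomial.mod_def, add_modByMonic, coeff_add, add_div]

theorem res_zero (M : k[X]) : res M 0 = 0 := by
  simp [res]

theorem res_C_mul (M H : k[X]) (c : k) : res M (C c * H) = c * res M H := by
  simp only [res, Polynomial.mod_def]
  rw [← smul_eq_C_mul, smul_modByMonic, coeff_smul, smul_eq_mul, mul_div_assoc]

theorem res_sum {ι : Type} (M : k[X]) (s : Finset ι) (f : ι → k[X]) :
    res M (∑ i ∈ s, f i) = ∑ i ∈ s, res M (f i) := by
  classical
  induction s using Finset.induction_on with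
  | empty => simp [res_zero]
  | insert a s ha ih => rw [sum_insert ha, sum_insert ha, res_add, ih]

theorem res_of_dvd {M H : k[X]} (h : M ∣ H) : res M H = 0 := by
  simp [res, EuclideanDomain.mod_eq_zero.2 h]

theorem res_congr {M H H' : k[X]} (h : M ∣ H - H') : res M H = res M H' := by
  have : H = (H - H') + H' := by ring
  rw [this, res_add, res_of_dvd h, zero_add]

theorem res_of_lt {M H : k[X]} (h : H.degree < M.degree) :
    res M H = H.coeff (M.natDegree - 1) / M.leadingCoeff := by
  have hM : M ≠ 0 := by rintro rfl; simp at h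
  rw [res, (mod_eq_self_iff hM).2 h]

theorem res_mul_mul (M H : k[X]) {c : k[X]} (hc : c ≠ 0) : res (M * c) (H * c) = res M H := by
  by_cases hM : M = 0
  · simp [hM, res]
  have h1 : res (M * c) (H * c) = res (M * c) (H % M * c) := by
    refine res_congr ⟨H / M, ?_⟩
    have := EuclideanDomain.div_add_mod H M
    linear_combination (-c) * this
  have hlt : (H % M).degree < M.degree := degree_mod_lt H hM
  have hlt2 : (H % M * c).degree < (M * c).degree := by
    rw [degree_mul, degree_mul]
    exact WithBot.add_lt_add_right (by simpa using hc) hlt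
  rw [h1, res_of_lt hlt2, res, natDegree_mul hM hc, leadingCoeff_mul]
  by_cases h0 : H % M = 0
  · simp [h0]
  have hlt3 : (H % M).natDegree < M.natDegree := natDegree_lt_natDegree h0 hlt
  rw [show M.natDegree + c.natDegree - 1 = (M.natDegree - 1) + c.natDegree by omega,
    coeff_mul_add_eq_of_natDegree_le (by omega) le_rfl]
  have : c.leadingCoeff ≠ 0 := leadingCoeff_ne_zero.2 hc
  rw [show c.coeff c.natDegree = c.leadingCoeff from rfl, mul_div_mul_right _ _ this]

theorem res_eq_zero {M H : k[X]} (h : H.natDegree + 2 ≤ M.natDegree) : res M H = 0 := by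
  have hlt : H.degree < M.degree := degree_lt_degree (by omega)
  rw [res_of_lt hlt, coeff_eq_zero_of_natDegree_lt (by omega), zero_div]

theorem res_split {M1 M2 : k[X]} (h1 : M1 ≠ 0) (h2 : M2 ≠ 0) (H1 H2 : k[X]) :
    res (M1 * M2) (H1 * M2 + H2 * M1) = res M1 H1 + res M2 H2 := by
  rw [res_add, res_mul_mul _ _ h2, mul_comm M1 M2, res_mul_mul _ _ h1]

theorem res_sq [CharP k 2] (M X0 X1 : k[X]) :
    res (M ^ 2) (X0 ^ 2 + X * X1 ^ 2) = res M X1 ^ 2 := by
  have h2 : (2 : k[X]) = 0 := CharTwo.two_eq_zero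
  by_cases hM : M = 0
  · simp [hM, res]
  set r0 := X0 % M
  set r1 := X1 % M
  have h1 : res (M ^ 2) (X0 ^ 2 + X * X1 ^ 2) = res (M ^ 2) (r0 ^ 2 + X * r1 ^ 2) := by
    refine res_congr ⟨(X0 / M) ^ 2 + X * (X1 / M) ^ 2, ?_⟩
    have e0 := EuclideanDomain.div_add_mod X0 M
    have e1 := EuclideanDomain.div_add_mod X1 M
    rw [← e0, ← e1]
    simp only [e0, e1]
    linear_combination (M * (X0 / M) * r0 + X * M * (X1 / M) * r1) * h2 -
      (X0 + M * (X0 / M) + r0) * e0 - X * (X1 + M * (X1 / M) + r1) * e1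
  by_cases hd : M.natDegree = 0
  · have hu : IsUnit M := by
      rw [eq_C_of_natDegree_eq_zero hd]
      refine isUnit_C.2 (IsUnit.mk0 _ fun h => hM ?_)
      rw [eq_C_of_natDegree_eq_zero hd, h, C_0]
    rw [res_of_dvd (hu.pow 2).dvd, res_of_dvd hu.dvd]; simp
  obtain ⟨m, hm⟩ : ∃ m, M.natDegree = m + 1 := ⟨M.natDegree - 1, by omega⟩
  have hr : ∀ p : k[X], (p % M).natDegree ≤ m := fun p => by
    by_cases h0 : p % M = 0
    · simp [h0]
    · have := natDegree_lt_natDegree h0 (degree_mod_lt p hM); omega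
  have he : r0 ^ 2 + X * r1 ^ 2 = eo (fr r0) (fr r1) := by
    rw [eo, expand_fr, expand_fr]
  have hlt : (r0 ^ 2 + X * r1 ^ 2).degree < (M ^ 2).degree := by
    apply degree_lt_degree
    rw [natDegree_pow, hm]
    have a0 := natDegree_pow_le (p := r0) (n := 2)
    have a1 := natDegree_pow_le (p := r1) (n := 2)
    have a2 := natDegree_mul_le (p := (X : k[X])) (q := r1 ^ 2)
    have a3 := natDegree_add_le (r0 ^ 2) (X * r1 ^ 2)
    have := hr X0
    have := hr X1
    rw [natDegree_X] at a2
    simp only [r0, r1] at *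
    omega
  rw [h1, res_of_lt hlt, he, natDegree_pow, hm, show 2 * (m + 1) - 1 = 2 * m + 1 by omega,
    coeff_eo_odd, res, hm, leadingCoeff_pow, div_pow, fr, coeff_map, frobenius_def]
  simp [r1]

theorem res_roots {K : Type} [Field K] [Algebra k K] {d : ℕ} (t : Fin d → K)
    (ht : Function.Injective t) {N : k[X]}
    (hN : N.map (algebraMap k K) = ∏ i, (X - C (t i))) (H : k[X]) :
    algebraMap k K (res N H) = ∑ i, aeval (t i) H / aeval (t i) (derivative N) := by
  classical
  have hinj := (algebraMap k K).injective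
  have hmon : (∏ i, (X - C (t i)) : K[X]).Monic := monic_prod_X_sub_C _ _
  have hM : N.Monic := monic_of_injective hinj (hN ▸ hmon)
  have hdeg : N.natDegree = d := by
    rw [← natDegree_map (algebraMap k K), hN, natDegree_finsetProd_X_sub_C_eq_card]; simp
  have hroot : ∀ i, aeval (t i) N = 0 := fun i => by
    rw [aeval_def, ← eval_map, hN, eval_prod]
    exact prod_eq_zero (mem_univ i) (by simp)
  have hder : ∀ i, aeval (t i) (derivative N) = ∏ j ∈ univ.erase i, (t i - t j) := fun i => by
    rw [aeval_def, ← eval_map, ← derivative_map, hN]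
    have := Lagrange.eval_nodal_derivative_eval_node_eq (s := univ) (v := t) (mem_univ i)
    rw [Lagrange.eval_nodal] at this
    exact this
  have hlt : ((H % N).map (algebraMap k K)).degree < (univ : Finset (Fin d)).card := by
    rw [degree_map, card_univ, Fintype.card_fin, ← hdeg, ← degree_eq_natDegree hM.ne_zero]
    exact degree_mod_lt H hM.ne_zero
  have key := Lagrange.coeff_eq_sum (s := univ) (v := t) ht.injOn hlt
  rw [card_univ, Fintype.card_fin, coeff_map] at key
  rw [res, hM.leadingCoeff, div_one, hdeg, key]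
  refine sum_congr rfl fun i _ => ?_
  rw [hder, eval_map, ← aeval_def]
  congr 1
  have := congrArg (aeval (t i)) (EuclideanDomain.div_add_mod H N)
  simpa [hroot] using this

end res

section lp
variable {k : Type} [Field k]

theorem lp_eq {P : k[X]} [Fact (Irreducible P)] (N D : k[X]) :
    lp P N D = psi (AdjoinRoot.mk P N / AdjoinRoot.mk P D) := by
  unfold lp
  rw [dif_pos (Fact.out : Irreducible P)]

theorem lp_congr {P N D N' D' : k[X]} (hN : P ∣ N - N') (hD : P ∣ D - D') :
    lp P N D = lp P N' D' := by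
  unfold lp
  split_ifs with h
  · rw [AdjoinRoot.mk_eq_mk.2 hN, AdjoinRoot.mk_eq_mk.2 hD]
  · rfl

theorem lk_congr {P N D N' D' : k[X]} (hN : P ∣ N - N') (hD : P ∣ D - D') :
    lk P N D = lk P N' D' := by
  have : P ∣ D ↔ P ∣ D' := by
    constructor
    · intro h; simpa using dvd_sub h hD
    · intro h; simpa using dvd_add hD h
  unfold lk
  rw [lp_congr hN hD]
  by_cases h : P ∣ D
  · rw [if_pos h, if_pos (this.1 h)]
  · rw [if_neg h, if_neg (fun h' => h (this.2 h'))]

theorem abs_lp_le (P N D : k[X]) : |lp P N D| ≤ 1 := by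
  unfold lp
  split_ifs with h
  · have : Fact (Irreducible P) := ⟨h⟩
    exact (abs_psi (K := AdjoinRoot P) _).le
  · simp

theorem abs_lk_le (P N D : k[X]) : |lk P N D| ≤ 1 := by
  unfold lk
  split_ifs
  · simp
  · exact abs_lp_le _ _ _

theorem finite_adjoinRoot [Finite k] {P : k[X]} (hP : P ≠ 0) : Finite (AdjoinRoot P) := by
  exact Finite.of_equiv _ (AdjoinRoot.powerBasis hP).basis.equivFun.toEquiv.symm

theorem charP_adjoinRoot [CharP k 2] {P : k[X]} [Fact (Irreducible P)] :
    CharP (AdjoinRoot P) 2 := by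
  exact charP_of_injective_algebraMap (algebraMap k (AdjoinRoot P)).injective 2

theorem card_adjoinRoot [Finite k] {P : k[X]} (hP : P ≠ 0) :
    Nat.card (AdjoinRoot P) = Nat.card k ^ P.natDegree := by
  have : Module.Finite k (AdjoinRoot P) := (AdjoinRoot.powerBasis hP).finite
  rw [Module.natCard_eq_pow_finrank (K := k), (AdjoinRoot.powerBasis hP).finrank,
    AdjoinRoot.powerBasis_dim]

theorem sum_low_mk [Finite k] {P : k[X]} (hP : P ≠ 0) [Fintype (AdjoinRoot P)]
    (G : AdjoinRoot P → ℝ) :
    ∑ x ∈ low k P.natDegree, G (AdjoinRoot.mk P x) = ∑ y, G y := by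
  refine sum_bij (fun x _ => AdjoinRoot.mk P x) (fun _ _ => mem_univ _) ?_ ?_ (fun _ _ => rfl)
  · intro a ha b hb h
    exact sub_eq_zero.1 (eq_zero_of_mem_low (sub_mem_low ha hb) (AdjoinRoot.mk_eq_mk.1 h) le_rfl)
  · intro y _
    obtain ⟨x, rfl⟩ := AdjoinRoot.mk_surjective y
    refine ⟨x % P, mod_mem_low hP x, AdjoinRoot.mk_eq_mk.2 ⟨-(x / P), ?_⟩⟩
    have := EuclideanDomain.div_add_mod x P
    linear_combination this

end lp

section sq
variable {k : Type} [Field k] [CharP k 2]

theorem exists_sq_add [Finite k] (U : k[X]) : ∃ U0 a : k[X], U = U0 ^ 2 + X * a ^ 2 := by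
  have hs : ∀ p : k[X], ∃ r : k[X], fr r = p := fun p =>
    map_surjective (frobenius k 2) (fun y => by
      obtain ⟨z, hz⟩ := exists_sqrt y
      exact ⟨z, by rw [frobenius_def, hz]⟩) p
  obtain ⟨U0, h0⟩ := hs (evp U)
  obtain ⟨a, h1⟩ := hs (odp U)
  refine ⟨U0, a, ?_⟩
  rw [← expand_fr, ← expand_fr, h0, h1]
  exact (eo_evp_odp U).symm

theorem mu_eo_eq_zero [Finite k] {U V : k[X]} (h : ¬ IsCoprime U V) : mu (eo U V) = 0 := by
  have hs : ∀ p : k[X], ∃ r : k[X], fr r = p := fun p =>
    map_surjective (frobenius k 2) (fun y => by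
      obtain ⟨z, hz⟩ := exists_sqrt y
      exact ⟨z, by rw [frobenius_def, hz]⟩) p
  have : ¬ Squarefree (eo U V) := by
    intro hsq
    apply h
    refine isRelPrime_iff_isCoprime.1 fun d hU hV => ?_
    obtain ⟨r, rfl⟩ := hs d
    have hd : r * r ∣ eo U V := by
      rw [← sq, ← expand_fr]
      exact dvd_add (_root_.map_dvd (expand k 2) hU)
        (Dvd.dvd.mul_left (_root_.map_dvd (expand k 2) hV) _)
    exact (hsq r hd).map (mapRingHom (frobenius k 2))
  simp [mu, this]

end sq

end Pool.Agent.P.MP_8be758_nt.C2
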