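import Mathlib

/-! Definitions for the characteristic two project. -/

namespace Pool.Agent.P.MP_8be758_nt.C2

open Polynomial Finset

theorem fin_low (k : Type) [Field k] [Finite k] (L : ℕ) :
    {p : k[X] | p.degree < (L : WithBot ℕ)}.Finite := by
  have h : Finite (Polynomial.degreeLT k L) :=
    Finite.of_equiv _ (Polynomial.degreeLTEquiv k L).toEquiv.symm
  have e : {p : k[X] | p.degree < (L : WithBot ℕ)} = (Polynomial.degreeLT k L : Set k[X]) := by
    ext p; simp [Polynomial.mem_degreeLT]
  rw [e]; exact Set.toFinite _

/-- the polynomials of degree less than `L` -/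
noncomputable def low (k : Type) [Field k] [Finite k] (L : ℕ) : Finset k[X] :=
  (fin_low k L).toFinset

/-- the coefficient of `1/t` in the expansion of `H/M` at infinity -/
noncomputable def res {k : Type} [Field k] (M H : k[X]) : k :=
  (H % M).coeff (M.natDegree - 1) / M.leadingCoeff

/-- the absolute trace of a finite field of characteristic two, as an element of the field -/
noncomputable def trs {K : Type} [Field K] (y : K) : K :=
  ∑ i ∈ range (Nat.log 2 (Nat.card K)), y ^ (2 ^ i)

open Classical in
/-- the additive character `(-1)^trace` -/
noncomputable def psi {K : Type} [Field K] (y : K) : ℝ := if trs y = 0 then 1 else -1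

open Classical in
/-- the character of the residue field of the irreducible polynomial `P` at `N/D` -/
noncomputable def lp {k : Type} [Field k] (P N D : k[X]) : ℝ :=
  if h : Irreducible P then
    haveI : Fact (Irreducible P) := ⟨h⟩
    psi (AdjoinRoot.mk P N / AdjoinRoot.mk P D)
  else 0

open Classical in
/-- `lp`, cut off at the poles -/
noncomputable def lk {k : Type} [Field k] (P N D : k[X]) : ℝ :=
  if P ∣ D then 0 else lp P N D

/-- the Berlekamp sum of a family of roots -/
noncomputable def Bq {K : Type} [Field K] {d : ℕ} (x : Fin d → K) : K :=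
  ∑ i, ∑ j ∈ Ioi i, x i * x j / (x i + x j) ^ 2

/-- the polynomial with even part `U` and odd part `V` -/
noncomputable def eo {k : Type} [CommRing k] (U V : k[X]) : k[X] :=
  expand k 2 U + X * expand k 2 V

/-- the even part -/
noncomputable def evp {k : Type} [CommRing k] (f : k[X]) : k[X] := contract 2 f

/-- the odd part -/
noncomputable def odp {k : Type} [CommRing k] (f : k[X]) : k[X] := contract 2 f.divX

/-- the numerator in the residue form of the Berlekamp sum -/
noncomputable def Hn {k : Type} [CommRing k] (U V : k[X]) : k[X] :=
  X * U * derivative U * derivative V * V +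
    X * (derivative U ^ 2 + X * derivative V ^ 2) * (U * derivative U + X * V * derivative V)

/-- the Moebius function of `k[X]` as a real number -/
noncomputable def mu {k : Type} [Field k] (f : k[X]) : ℝ :=
  (UniqueFactorizationMonoid.moebius f : ℝ)

/-- `V` is `V1` times at most `K` (and at least one) distinct monic primes of degree at least `D`
not dividing `V1`, and `D ≤ deg V1 ≤ N/10` -/
def Good {k : Type} [Field k] (K D N : ℕ) (V V1 : k[X]) (s : Finset k[X]) : Prop :=
  V = V1 * ∏ P ∈ s, P ∧ s.card ≤ K ∧ s.Nonempty ∧
    (∀ P ∈ s, P.Monic ∧ Irreducible P ∧ D ≤ P.natDegree ∧ ¬ P ∣ V1) ∧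
    D ≤ V1.natDegree ∧ 10 * V1.natDegree ≤ N

/-- the fourth power of the residue constant: its non-vanishing at a prime makes the local
exponential sum non-degenerate -/
noncomputable def kap {k : Type} [Field k] (Bt U V : k[X]) : k[X] :=
  derivative (U * Bt) ^ 2 + X * derivative V ^ 2 * Bt ^ 2

open Classical in
/-- the degree of the `Z`-smooth part -/
noncomputable def smd {k : Type} [Field k] (Z : ℕ) (V : k[X]) : ℕ :=
  (((UniqueFactorizationMonoid.normalizedFactors V).filter
    (fun P => P.natDegree ≤ Z)).map natDegree).sum

open Classical in
/-- the monic polynomials of degree `n` in the class `r` modulo `M` -/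
noncomputable def Gs {k : Type} [Field k] [Finite k] (M r : k[X]) (n : ℕ) : Finset k[X] :=
  (low k (n + 1)).filter (fun g => g.Monic ∧ g.natDegree = n ∧ M ∣ g - r)

/-- the polynomial with squared coefficients -/
noncomputable def fr {k : Type} [Field k] [CharP k 2] (B : k[X]) : k[X] :=
  B.map (frobenius k 2)

end Pool.Agent.P.MP_8be758_nt.C2
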