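import Pool.Agent.P.MP_8be758_nt.C2.Basic

/-! The steps of the characteristic two project, as statements. -/

namespace Pool.Agent.P.MP_8be758_nt.C2

open Polynomial Finset Filter
open scoped Classical Topology

-- deps:
def S_STEP : Prop :=
  ∃ Cs : ℝ, 1 ≤ Cs ∧ ∀ (F : Type) [Field F] [Fintype F] [CharP F 2] (N D : F[X]),
    N.natDegree ≤ 5 → D.natDegree ≤ 5 → 1 ≤ D.natDegree → D.Separable → IsCoprime N D →
    |∑ x : F, if D.eval x = 0 then 0 else psi (N.eval x / D.eval x)| ≤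
      Cs * √(Nat.card F : ℝ)

-- deps:
def S_BER : Prop :=
  ∀ (k K : Type) [Field k] [Finite k] [CharP k 2] [Field K] [Algebra k K] (f : k[X]) (d : ℕ)
    (x : Fin d → K) (b : k), Function.Injective x →
    f.map (algebraMap k K) = ∏ i, (X - C (x i)) → algebraMap k K b = Bq x →
    mu f = (-1) ^ d * psi b

-- deps:
def S_LIFT : Prop :=
  ∀ (K : Type) [Field K] [CharP K 2] [IsAlgClosed K] (n : ℕ) (U V : K[X]) (x : Fin (2 * n) → K),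
    Function.Injective x → eo U V = ∏ i, (X - C (x i)) →
    Bq x = (((n + 1) / 2 : ℕ) : K) + ∑ i, (Hn U V).eval (x i ^ 2) / (V.eval (x i ^ 2)) ^ 4

-- deps:
def S_PF : Prop :=
  ∀ (k K : Type) [Field k] [CharP k 2] [Field K] [Algebra k K] (U V w : k[X]) (d : ℕ)
    (t : Fin d → K) (H : k[X]), V ≠ 0 → V ∣ w * U - 1 → Function.Injective t →
    (U ^ 2 + X * V ^ 2).map (algebraMap k K) = ∏ i, (X - C (t i)) →
    ∑ i, aeval (t i) H / (aeval (t i) V) ^ 4 =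
      algebraMap k K (res (V ^ 2 * (U ^ 2 + X * V ^ 2)) H + res (V ^ 2) (H * w ^ 2))

-- deps:
def S_INFY : Prop :=
  ∀ (k : Type) [Field k] [CharP k 2] (U V : k[X]), U.Monic → V ≠ 0 →
    V.natDegree < U.natDegree →
    res (V ^ 2 * (U ^ 2 + X * V ^ 2)) (Hn U V) =
      res (U * V ^ 2) (X * derivative U ^ 3) + ((U.natDegree * (V.natDegree + 1) : ℕ) : k)

-- deps: BER LIFT PF INFY
def S_FORM : Prop :=
  ∀ (k : Type) [Field k] [Finite k] [CharP k 2] (U V U0 a V0 b w : k[X]),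
    U = U0 ^ 2 + X * a ^ 2 → V = V0 ^ 2 + X * b ^ 2 → U.Monic → V ≠ 0 →
    V.natDegree < U.natDegree → V ∣ w * U - 1 →
    mu (eo U V) =
      psi ((((U.natDegree + 1) / 2 + U.natDegree * (V.natDegree + 1) : ℕ) : k) +
        res (U * V ^ 2) (X * a ^ 6) +
        res V (w * (X * a ^ 2 * b ^ 2 + a ^ 3 * U0 + X * b ^ 3 * V0)))

-- deps:
def S_LOC : Prop :=
  ∀ (k : Type) [Field k] [Finite k] [CharP k 2] (P H : k[X]), P.Monic → Irreducible P →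
    psi (res P H) = lp P H (derivative P)

-- deps: LOC
def S_SPLIT : Prop :=
  ∀ (k : Type) [Field k] [Finite k] [CharP k 2] (V V1 w1 H : k[X]) (s : Finset k[X]),
    V1 ≠ 0 → V = V1 * ∏ P ∈ s, P → (∀ P ∈ s, P.Monic ∧ Irreducible P ∧ ¬ P ∣ V1) →
    V1 ∣ w1 * ∏ P ∈ s, P - 1 →
    psi (res V H) = psi (res V1 (H * w1)) * ∏ P ∈ s, lp P H (derivative V)

-- deps:
def S_COMP : Prop :=
  ∀ (k : Type) [Field k] [Finite k] [CharP k 2] (s : Finset k[X]) (φ : k[X] → k[X] → ℝ)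
    (Cb : k[X] → ℝ) (χ : k[X] → ℝ) (L : ℕ),
    (∀ P ∈ s, P.Monic ∧ Irreducible P) → (∀ P ∈ s, ∀ x y, φ P (x + P * y) = φ P x) →
    (∀ P ∈ s, ∀ l : k[X],
      |∑ x ∈ low k P.natDegree, φ P x * psi (res P (l * x))| ≤ Cb P) →
    (∀ x y, χ (x + y) = χ x * χ y) → (∀ x, χ x = 1 ∨ χ x = -1) →
    L ≤ ∑ P ∈ s, P.natDegree →
    |∑ x ∈ low k L, χ x * ∏ P ∈ s, φ P x| ≤ ∏ P ∈ s, Cb P

-- deps: STEP LOC
def S_LKS : Prop :=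
  ∃ Cs : ℝ, 1 ≤ Cs ∧ ∀ (k : Type) [Field k] [Finite k] [CharP k 2] (P c u b m e l : k[X]),
    P.Monic → Irreducible P → ¬ P ∣ c → ¬ P ∣ b → ¬ P ∣ m → ¬ P ∣ e →
    |∑ x ∈ low k P.natDegree, lk P c (u + b * (m * x + (m * x) ^ 2)) *
        lk P c (u + b * (m * x + (m * x) ^ 2) + e) * psi (res P (l * x))| ≤
      Cs * √((Nat.card k : ℝ) ^ P.natDegree)

-- deps:
def S_VDC : Prop :=
  ∀ (k : Type) [Field k] [Finite k] [CharP k 2] (a b : k[X] → ℝ) (V1 : k[X]) (L0 H : ℕ),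
    V1.natDegree + H ≤ L0 → (∀ x, |a x| ≤ 1) → (∀ x y, a (x + V1 * y) = a x) →
    (∑ x ∈ low k L0, a x * b x) ^ 2 * (Nat.card k : ℝ) ^ H ≤
      (Nat.card k : ℝ) ^ L0 * ∑ y ∈ low k H, |∑ x ∈ low k L0, b x * b (x + V1 * y)|

-- deps:
def S_INF : Prop :=
  ∀ (k : Type) [Field k] [CharP k 2] (W Cn U Eh E : k[X]), U.Monic → W ≠ 0 →
    E.natDegree < U.natDegree → Eh.natDegree < U.natDegree →
    Cn.natDegree + Eh.natDegree + 2 * (E ^ 2 + E * Eh).natDegree + 2 ≤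
      W.natDegree + 6 * U.natDegree →
    res ((U + E) * W) Cn + res ((U + E + Eh) * W) Cn =
      res (W * (U * (U + Eh))) (Cn * Eh) +
        res (W * (U * (U + Eh)) ^ 2) (Cn * Eh * (E ^ 2 + E * Eh))

-- deps:
def S_LAL : Prop :=
  ∀ (F : Type) [Field F] [Finite F] [CharP F 2] (r a b u0 B0 B1 z : F), b ≠ 0 →
    B0 + r ^ 2 * B1 ≠ 0 → u0 + r ^ 2 * a + (B0 + r ^ 2 * B1) * z ≠ 0 →
    psi ((r ^ 4 * (a + B1 * z) ^ 2 * b ^ 2 + (a + B1 * z) ^ 3 * (u0 + B0 * z) + r ^ 6 * b ^ 4) /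
        (((u0 + B0 * z) ^ 2 + r ^ 4 * (a + B1 * z) ^ 2) * b ^ 2)) =
      psi ((a * B0 + B1 * u0 + r * b * (B0 + r ^ 2 * B1)) ^ 3 / (b ^ 2 * (B0 + r ^ 2 * B1) ^ 3) /
          (u0 + r ^ 2 * a + (B0 + r ^ 2 * B1) * z)) *
        psi (((a * B0 + B1 * u0 + r * b * (B0 + r ^ 2 * B1)) ^ 2 * B1 +
          (a * B0 + B1 * u0 + r * b * (B0 + r ^ 2 * B1)) * B1 ^ 2 * (u0 + r ^ 2 * a) +
            B1 ^ 3 * (u0 + r ^ 2 * a) ^ 2) / (b ^ 2 * (B0 + r ^ 2 * B1) ^ 3)) *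
        psi (((a * B0 + B1 * u0 + r * b * (B0 + r ^ 2 * B1)) * B1 ^ 2 * z +
            B1 ^ 3 * (B0 + r ^ 2 * B1) * z ^ 2) / (b ^ 2 * (B0 + r ^ 2 * B1) ^ 2))

-- deps: LAL
def S_DLOC : Prop :=
  ∀ (k : Type) [Field k] [Finite k] [CharP k 2] (P U0 a V0 b B0 B1 : k[X]),
    P.Monic → Irreducible P → P ∣ V0 ^ 2 + X * b ^ 2 → ¬ P ∣ b → ¬ P ∣ B0 ^ 2 + X * B1 ^ 2 →
    ¬ P ∣ kap (B0 ^ 2 + X * B1 ^ 2) (U0 ^ 2 + X * a ^ 2) (V0 ^ 2 + X * b ^ 2) →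
    ∃ (c u b' : k[X]) (e : ℝ) (χ : k[X] → ℝ), ¬ P ∣ c ∧ ¬ P ∣ b' ∧ (e = 1 ∨ e = -1) ∧
      (∀ x y, χ (x + y) = χ x * χ y) ∧ (∀ x, χ x = 1 ∨ χ x = -1) ∧
      ∀ z : k[X], (P ∣ u + b' * z ↔ P ∣ (U0 + B0 * z) ^ 2 + X * (a + B1 * z) ^ 2) ∧
        ∀ w : k[X], P ∣ w * ((U0 + B0 * z) ^ 2 + X * (a + B1 * z) ^ 2) - 1 →
          lp P (w * (X * (a + B1 * z) ^ 2 * b ^ 2 + (a + B1 * z) ^ 3 * (U0 + B0 * z) +
            X * b ^ 3 * V0)) (b ^ 2) = e * χ z * lk P c (u + b' * z)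

-- deps: FORM SPLIT DLOC
def S_DEC : Prop :=
  ∀ (k : Type) [Field k] [Finite k] [CharP k 2] (U V Bt V1 : k[X]) (s : Finset k[X]),
    U.Monic → Bt ≠ 0 → V1 ≠ 0 → V = V1 * ∏ P ∈ s, P → V.natDegree < U.natDegree →
    (∀ P ∈ s, P.Monic ∧ Irreducible P ∧ ¬ P ∣ V1 ∧ ¬ P ∣ Bt ∧ ¬ P ∣ kap Bt U V) →
    ∃ (a χ : k[X] → ℝ) (Om : k[X]) (c u b : k[X] → k[X]),
      (∀ x, |a x| ≤ 1) ∧ (∀ x y, a (x + V1 * y) = a x) ∧
      (∀ x y, χ (x + y) = χ x * χ y) ∧ (∀ x, χ x = 1 ∨ χ x = -1) ∧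
      2 * Om.natDegree + 1 ≤ U.natDegree + Bt.natDegree ∧
      (∀ P ∈ s, ¬ P ∣ c P ∧ ¬ P ∣ b P) ∧
      ∀ x : k[X], Bt.natDegree + 4 * x.natDegree < U.natDegree →
        mu (eo (U + Bt * (x ^ 2 + x ^ 4)) V) =
          a x * (χ x * psi (res ((U + Bt * (x ^ 2 + x ^ 4)) * (Bt ^ 3 * V ^ 2)) (X * Om ^ 6)) *
            ∏ P ∈ s, lk P (c P) (u P + b P * (x + x ^ 2)))

-- deps: INF COMP LKS
def S_COR : Prop :=
  ∃ Cs : ℝ, 1 ≤ Cs ∧ ∀ (k : Type) [Field k] [Finite k] [CharP k 2] (U V Bt m Om h : k[X])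
    (s : Finset k[X]) (c u b : k[X] → k[X]) (L L0 dh : ℕ),
    U.Monic → Bt ≠ 0 → V ≠ 0 → 2 * Om.natDegree + 1 ≤ U.natDegree + Bt.natDegree →
    (∀ P ∈ s, P.Monic ∧ Irreducible P ∧ ¬ P ∣ c P ∧ ¬ P ∣ b P ∧ ¬ P ∣ m ∧
      ¬ P ∣ m * h + (m * h) ^ 2) →
    L ≤ L0 → L ≤ ∑ P ∈ s, P.natDegree → h.natDegree ≤ dh → dh ≤ L0 →
    Bt.natDegree + 4 * (m.natDegree + L0) < U.natDegree →
    5 * Bt.natDegree + 4 * (m.natDegree + dh) + 16 * (m.natDegree + L) ≤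
      2 * V.natDegree + 3 * U.natDegree →
    5 * Bt.natDegree + 12 * (m.natDegree + dh) + 8 * (m.natDegree + L) ≤
      2 * V.natDegree + 3 * U.natDegree →
    ∀ β : k[X] → ℝ, (∀ x, β x =
      psi (res ((U + Bt * (x ^ 2 + x ^ 4)) * (Bt ^ 3 * V ^ 2)) (X * Om ^ 6)) *
        ∏ P ∈ s, lk P (c P) (u P + b P * (x + x ^ 2))) →
    |∑ x ∈ low k L0, β (m * x) * β (m * (x + h))| * (Nat.card k : ℝ) ^ L ≤
      (Nat.card k : ℝ) ^ L0 * (Cs ^ s.card * √((Nat.card k : ℝ) ^ (∑ P ∈ s, P.natDegree)))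

-- deps: DEC VDC COR
def S_CORE : Prop :=
  ∃ Cs : ℝ, 1 ≤ Cs ∧ ∀ (k : Type) [Field k] [Finite k] [CharP k 2] (U V Bt m V1 : k[X])
    (s : Finset k[X]) (K H D1 L0 : ℕ),
    U.Monic → Bt ≠ 0 → V1 ≠ 0 → V = V1 * ∏ P ∈ s, P → V.natDegree < U.natDegree →
    s.card ≤ K → s.Nonempty →
    (∀ P ∈ s, P.Monic ∧ Irreducible P ∧ ¬ P ∣ V1 ∧ ¬ P ∣ Bt ∧ ¬ P ∣ m ∧ ¬ P ∣ kap Bt U V ∧
      H ≤ P.natDegree ∧ 2 * D1 + 1 ≤ P.natDegree) →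
    V1.natDegree + H ≤ L0 →
    Bt.natDegree + 4 * (m.natDegree + L0) < U.natDegree →
    V.natDegree + 2 * D1 + 1 ≤ 2 * L0 + V1.natDegree →
    5 * Bt.natDegree + 20 * m.natDegree + 4 * H + 16 * D1 + 8 + 6 * V.natDegree ≤
      4 * V1.natDegree + 3 * U.natDegree →
    5 * Bt.natDegree + 20 * m.natDegree + 12 * (V1.natDegree + H) + 8 * L0 ≤ 3 * U.natDegree →
    (∑ x ∈ low k L0, mu (eo (U + Bt * ((m * x) ^ 2 + (m * x) ^ 4)) V)) ^ 2 ≤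
      ((Nat.card k : ℝ) ^ L0) ^ 2 * ((K + 1) / 2 ^ H + Cs ^ K / 2 ^ D1)

-- deps:
def S_ROUGH : Prop :=
  ∀ (k : Type) [Field k] [Finite k] (Y : ℕ), ∃ N0 : ℕ, ∀ n ≥ N0,
    (Y + 1) * ((low k (n + 1)).filter (fun V => V.Monic ∧ V.natDegree = n ∧
      ∀ P : k[X], Irreducible P → P ∣ V → Y < P.natDegree)).card ≤ Nat.card k ^ n

-- deps:
def S_TB2 : Prop :=
  ∀ (k : Type) [Field k] [Finite k] (Z N : ℕ),
    ((low k N).filter (fun V => V ≠ 0 ∧ ∃ P : k[X], P.Monic ∧ Z < P.natDegree ∧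
      P ^ 2 ∣ V)).card * Nat.card k ^ Z ≤ Nat.card k ^ N

-- deps: ROUGH
def S_TB3 : Prop :=
  ∀ (k : Type) [Field k] [Finite k] (D : ℕ) (δ : ℝ), 0 < δ → ∃ Y N0 : ℕ, ∀ N ≥ N0,
    (((low k N).filter (fun V => N ≤ 2 * V.natDegree ∧ smd Y V < D)).card : ℝ) ≤
      δ * (Nat.card k : ℝ) ^ N

-- deps:
def S_TB4 : Prop :=
  ∀ (k : Type) [Field k] [Finite k] (Z N : ℕ),
    ∑ V ∈ low k N, smd Z V ≤ 2 * Z * Nat.card k ^ N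

-- deps: TB2 TB3 TB4
def S_TYP : Prop :=
  ∀ (k : Type) [Field k] [Finite k] (δ : ℝ), 0 < δ → ∃ K : ℕ, ∀ D : ℕ, ∃ N0 : ℕ, ∀ N ≥ N0,
    (((low k N).filter (fun V => ¬ ∃ V1 s, Good K D N V V1 s)).card : ℝ) ≤
      δ * (Nat.card k : ℝ) ^ N

-- deps: TYP
def S_BAD1 : Prop :=
  ∀ (k : Type) [Field k] [Finite k] [CharP k 2] (A B M r : k[X]) (δ : ℝ), B ≠ 0 → M ≠ 0 →
    0 < δ → ∃ K : ℕ, ∀ D : ℕ, ∃ n0 : ℕ, ∀ n ≥ n0,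
    (((Gs M r n).filter (fun g => ¬ ∃ V1 s,
      Good K D ((n + B.natDegree) / 2 + 1) (odp (g ^ 2 + B * g + A)) V1 s)).card : ℝ) ≤
      δ * (Nat.card k : ℝ) ^ n

-- deps:
def S_BAD2 : Prop :=
  ∀ (k : Type) [Field k] [Finite k] [CharP k 2] (A B M r : k[X]) (K D n : ℕ)
    (S : k[X] → Finset k[X]), B ≠ 0 → M ≠ 0 → B.natDegree < D → M.natDegree < D →
    B.natDegree + 4 * (M.natDegree + D) + 2 ≤ n →
    (∀ V, (S V).card ≤ K ∧ ∀ P ∈ S V, Irreducible P ∧ D ≤ P.natDegree) →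
    ((Gs M r n).filter (fun g => ∃ P ∈ S (odp (g ^ 2 + B * g + A)),
      P ∣ kap (fr B) (evp (g ^ 2 + B * g + A)) (odp (g ^ 2 + B * g + A)))).card *
        Nat.card k ^ D ≤ K * Nat.card k ^ n

-- deps: CORE BAD1 BAD2
def S_MAIN : Prop :=
  ∀ (k : Type) [Field k] [Finite k] [CharP k 2] (A B M r : k[X]), B ≠ 0 → M ≠ 0 →
    Tendsto (fun n : ℕ => (∑ g ∈ Gs M r n, mu (g ^ 2 + B * g + A)) / (Nat.card k : ℝ) ^ n)
      atTop (𝓝 0)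

end Pool.Agent.P.MP_8be758_nt.C2
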