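import Pool.Agent.P.MP_8be758_nt.C2.If

/-! The steps for a general leading coefficient, as statements. -/

namespace Pool.Agent.P.MP_8be758_nt.C2

open Polynomial Finset Filter
open scoped Classical Topology

-- deps: STEP LOC
def S_LKS2 : Prop :=
  ∃ Cs : ℝ, 1 ≤ Cs ∧ ∀ (k : Type) [Field k] [Finite k] [CharP k 2] (P c u b cc e l : k[X]),
    P.Monic → Irreducible P → ¬ P ∣ c → ¬ P ∣ b → ¬ P ∣ e →
    |∑ x ∈ low k P.natDegree, lk P c (u + b * (x + cc * x ^ 2)) *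
        lk P c (u + b * (x + cc * x ^ 2) + e) * psi (res P (l * x))| ≤
      Cs * √((Nat.card k : ℝ) ^ P.natDegree)

-- deps: FORM SPLIT DLOC
def S_DEC2 : Prop :=
  ∀ (k : Type) [Field k] [Finite k] [CharP k 2] (U V Bt V1 : k[X]) (s : Finset k[X]),
    U.Monic → Bt ≠ 0 → V1 ≠ 0 → V = V1 * ∏ P ∈ s, P → V.natDegree < U.natDegree →
    (∀ P ∈ s, P.Monic ∧ Irreducible P ∧ ¬ P ∣ V1 ∧ ¬ P ∣ Bt ∧ ¬ P ∣ kap Bt U V) →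
    ∃ (a χ : k[X] → ℝ) (Om : k[X]) (c u b : k[X] → k[X]),
      (∀ z, |a z| ≤ 1) ∧ (∀ z y, a (z + V1 * y) = a z) ∧
      (∀ z y, χ (z + y) = χ z * χ y) ∧ (∀ z, χ z = 1 ∨ χ z = -1) ∧
      2 * Om.natDegree + 1 ≤ U.natDegree + Bt.natDegree ∧
      (∀ P ∈ s, ¬ P ∣ c P ∧ ¬ P ∣ b P) ∧
      ∀ z : k[X], Bt.natDegree + 2 * z.natDegree < U.natDegree →
        mu (eo (U + Bt * z ^ 2) V) =
          a z * (χ z * psi (res ((U + Bt * z ^ 2) * (Bt ^ 3 * V ^ 2)) (X * Om ^ 6)) *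
            ∏ P ∈ s, lk P (c P) (u P + b P * z))

-- deps: INF COMP LKS2
def S_COR2 : Prop :=
  ∃ Cs : ℝ, 1 ≤ Cs ∧ ∀ (k : Type) [Field k] [Finite k] [CharP k 2] (U V Bt cc Om h : k[X])
    (s : Finset k[X]) (c u b : k[X] → k[X]) (L L0 dh : ℕ),
    U.Monic → Bt ≠ 0 → V ≠ 0 → 2 * Om.natDegree + 1 ≤ U.natDegree + Bt.natDegree →
    (∀ P ∈ s, P.Monic ∧ Irreducible P ∧ ¬ P ∣ c P ∧ ¬ P ∣ b P ∧ ¬ P ∣ h + cc * h ^ 2) →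
    L ≤ L0 → L ≤ ∑ P ∈ s, P.natDegree → h.natDegree ≤ dh → dh ≤ L0 →
    Bt.natDegree + 2 * cc.natDegree + 4 * L0 < U.natDegree →
    5 * Bt.natDegree + 10 * cc.natDegree + 4 * dh + 16 * L ≤ 2 * V.natDegree + 3 * U.natDegree →
    5 * Bt.natDegree + 10 * cc.natDegree + 12 * dh + 8 * L ≤ 2 * V.natDegree + 3 * U.natDegree →
    ∀ β : k[X] → ℝ, (∀ z, β z =
      psi (res ((U + Bt * z ^ 2) * (Bt ^ 3 * V ^ 2)) (X * Om ^ 6)) *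
        ∏ P ∈ s, lk P (c P) (u P + b P * z)) →
    |∑ x ∈ low k L0, β (x + cc * x ^ 2) * β ((x + h) + cc * (x + h) ^ 2)| *
        (Nat.card k : ℝ) ^ L ≤
      (Nat.card k : ℝ) ^ L0 * (Cs ^ s.card * √((Nat.card k : ℝ) ^ (∑ P ∈ s, P.natDegree)))

-- deps: DEC2 VDC COR2
def S_CORE2 : Prop :=
  ∃ Cs : ℝ, 1 ≤ Cs ∧ ∀ (k : Type) [Field k] [Finite k] [CharP k 2] (U V Bt cc V1 : k[X])
    (s : Finset k[X]) (K H D1 L0 : ℕ),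
    U.Monic → Bt ≠ 0 → V1 ≠ 0 → V = V1 * ∏ P ∈ s, P → V.natDegree < U.natDegree →
    s.card ≤ K → s.Nonempty →
    (∀ P ∈ s, P.Monic ∧ Irreducible P ∧ ¬ P ∣ V1 ∧ ¬ P ∣ Bt ∧ ¬ P ∣ cc ∧ ¬ P ∣ kap Bt U V ∧
      H ≤ P.natDegree ∧ 2 * D1 + 1 ≤ P.natDegree) →
    V1.natDegree + H ≤ L0 →
    Bt.natDegree + 2 * cc.natDegree + 4 * L0 < U.natDegree →
    V.natDegree + 2 * D1 + 1 ≤ 2 * L0 + V1.natDegree →
    5 * Bt.natDegree + 10 * cc.natDegree + 4 * H + 16 * D1 + 8 + 6 * V.natDegree ≤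
      4 * V1.natDegree + 3 * U.natDegree →
    5 * Bt.natDegree + 10 * cc.natDegree + 12 * (V1.natDegree + H) + 8 * L0 ≤ 3 * U.natDegree →
    (∑ x ∈ low k L0, mu (eo (U + Bt * (x + cc * x ^ 2) ^ 2) V)) ^ 2 ≤
      ((Nat.card k : ℝ) ^ L0) ^ 2 * ((K + 1) / 2 ^ H + Cs ^ K / 2 ^ D1)

-- deps: TYP
def S_BAD1b : Prop :=
  ∀ (k : Type) [Field k] [Finite k] [CharP k 2] (A B Cc : k[X]) (δ : ℝ), B ≠ 0 →
    0 < δ → ∃ K : ℕ, ∀ D : ℕ, ∃ n0 : ℕ, ∀ n ≥ n0,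
    (((Gs (1 : k[X]) 0 n).filter (fun g => ¬ ∃ V1 s,
      Good K D ((n + B.natDegree) / 2 + 1) (odp (Cc ^ 2 * g ^ 2 + B * g + A)) V1 s)).card : ℝ) ≤
      δ * (Nat.card k : ℝ) ^ n

-- deps:
def S_BAD2b : Prop :=
  ∀ (k : Type) [Field k] [Finite k] [CharP k 2] (A B Cc : k[X]) (K D n : ℕ)
    (S : k[X] → Finset k[X]), B ≠ 0 → Cc ≠ 0 → B.natDegree < D → Cc.natDegree < D →
    B.natDegree + 2 * Cc.natDegree + 4 * D + 2 ≤ n →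
    (∀ V, (S V).card ≤ K ∧ ∀ P ∈ S V, Irreducible P ∧ D ≤ P.natDegree) →
    ((Gs (1 : k[X]) 0 n).filter (fun g => ∃ P ∈ S (odp (Cc ^ 2 * g ^ 2 + B * g + A)),
      P ∣ kap (fr B * fr Cc) (evp (Cc ^ 2 * g ^ 2 + B * g + A))
        (odp (Cc ^ 2 * g ^ 2 + B * g + A)))).card * Nat.card k ^ D ≤ K * Nat.card k ^ n

-- deps: CORE2 BAD1b BAD2b
def S_MAIN2 : Prop :=
  ∀ (k : Type) [Field k] [Finite k] [CharP k 2] (A B Cc : k[X]), B ≠ 0 → Cc.Monic →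
    Tendsto (fun n : ℕ => (∑ g ∈ Gs (1 : k[X]) 0 n, mu (Cc ^ 2 * g ^ 2 + B * g + A)) /
      (Nat.card k : ℝ) ^ n) atTop (𝓝 0)

-- deps: MAIN2
def S_GEN : Prop :=
  ∀ (k : Type) [Field k] [Finite k] [CharP k 2] (a b c : k[X]), a ≠ 0 → b ≠ 0 →
    Tendsto (fun n : ℕ => (∑ g ∈ Gs (1 : k[X]) 0 n, mu (a * g ^ 2 + b * g + c)) /
      (Nat.card k : ℝ) ^ n) atTop (𝓝 0)

end Pool.Agent.P.MP_8be758_nt.C2
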