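import Pool.Agent.P.MP_8be758_nt.C2.If2

/-! Step BAD1b. -/

namespace Pool.Agent.P.MP_8be758_nt.C2

open Polynomial Finset Filter
open scoped Classical Topology

theorem BAD1b_odp {k : Type} [Field k] [CharP k 2] (A B Cc g y : k[X]) :
    odp (Cc ^ 2 * (g + B * (X * expand k 2 y)) ^ 2 + B * (g + B * (X * expand k 2 y))
      + A) = odp (Cc ^ 2 * g ^ 2 + B * g + A) + fr B * y := by
  have h2 : (2 : k[X]) = 0 := CharTwo.two_eq_zero
  have e : Cc ^ 2 * (g + B * (X * expand k 2 y)) ^ 2 + B * (g + B * (X * expand k 2 y))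
      + A = eo (evp (Cc ^ 2 * g ^ 2 + B * g + A) + fr (Cc * (B * (X * expand k 2 y))))
        (odp (Cc ^ 2 * g ^ 2 + B * g + A) + fr B * y) := by
    have e0 := eo_evp_odp (Cc ^ 2 * g ^ 2 + B * g + A)
    unfold eo at e0 ⊢
    rw [map_add, map_add, expand_fr, map_mul (expand k 2) (fr B), expand_fr]
    linear_combination (Cc ^ 2 * g * (B * (X * expand k 2 y))) * h2 - e0
  rw [e, odp_eo]

theorem BAD1b_low {k : Type} [Field k] [Finite k] [CharP k 2] (A B Cc g : k[X]) (n : ℕ)
    (hg : g.natDegree = n) (hA : A.natDegree ≤ n) :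
    odp (Cc ^ 2 * g ^ 2 + B * g + A) ∈ low k ((n + B.natDegree) / 2 + 1) := by
  have h2 : (2 : k[X]) = 0 := CharTwo.two_eq_zero
  have e1 : expand k 2 (odp (Cc ^ 2 * g ^ 2 + B * g + A)) = derivative (B * g + A) := by
    rw [← derivative_eo (evp (Cc ^ 2 * g ^ 2 + B * g + A)), eo_evp_odp]
    simp only [derivative_add, derivative_mul, sq]
    linear_combination (derivative Cc * Cc * g * g + Cc * Cc * derivative g * g) * h2
  have e2 := congrArg natDegree e1
  rw [natDegree_expand] at e2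
  have a1 := natDegree_derivative_le (B * g + A)
  have a2 := natDegree_add_le (B * g) A
  have a3 := natDegree_mul_le (p := B) (q := g)
  apply mem_low_of_natDegree_lt
  omega

theorem p_BAD1b (hTYP : S_TYP) :
    S_BAD1b := by
  intro k _ _ _ A B Cc δ hB hδ
  have hq : (1 : ℝ) ≤ (Nat.card k : ℝ) := by
    have := two_le_card (k := k)
    exact_mod_cast (by omega : 1 ≤ Nat.card k)
  have hq0 : (0 : ℝ) < (Nat.card k : ℝ) := by linarith
  obtain ⟨K, hK⟩ := hTYP k (δ / (Nat.card k : ℝ) ^ (B.natDegree + 1)) (by positivity)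
  refine ⟨K, fun D => ?_⟩
  obtain ⟨N0, hN0⟩ := hK D
  refine ⟨2 * N0 + B.natDegree + A.natDegree, fun n hn => ?_⟩
  set N := (n + B.natDegree) / 2 + 1 with hN
  set J := (n - B.natDegree) / 2 with hJ
  have hNJ : N = J + (B.natDegree + 1) := by omega
  have hT := hN0 N (by omega)
  set v : k[X] → k[X] := fun y => B * (X * expand k 2 y) with hv
  set f : k[X] → ℝ := fun g =>
    if ¬ ∃ V1 s, Good K D N (odp (Cc ^ 2 * g ^ 2 + B * g + A)) V1 s then 1 else 0 with hf
  have hG : ∀ y ∈ low k J, ∀ g ∈ Gs (1 : k[X]) 0 n, g + v y ∈ Gs (1 : k[X]) 0 n := by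
    intro y hy g hg
    refine add_mem_Gs hg ?_ (one_dvd _)
    by_cases h0 : y = 0
    · simp [hv, h0, zero_mem_low]
    · apply mem_low_of_natDegree_lt
      have a1 := natDegree_lt_of_mem_low hy h0
      have a2 := natDegree_mul_le (p := B) (q := X * expand k 2 y)
      have a3 := natDegree_mul_le (p := (X : k[X])) (q := expand k 2 y)
      rw [natDegree_X, natDegree_expand] at a3
      simp only [hv]
      omega
  have havg := sum_avg (Gs (1 : k[X]) 0 n) (low k J) v hG f
  have hin : ∀ g ∈ Gs (1 : k[X]) 0 n,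
      ∑ y ∈ low k J, f (g + v y) ≤ δ * (Nat.card k : ℝ) ^ J := by
    intro g hg
    have h1 : ∑ y ∈ low k J, f (g + v y) ≤
        (((low k N).filter (fun V => ¬ ∃ V1 s, Good K D N V V1 s)).card : ℝ) := by
      simp only [hf]
      rw [sum_boole]
      refine Nat.cast_le.2 (card_le_card_of_injOn
        (fun y => odp (Cc ^ 2 * g ^ 2 + B * g + A) + fr B * y) ?_ ?_)
      · intro y hy
        obtain ⟨hy1, hy2⟩ := mem_filter.1 (mem_coe.1 hy)
        refine mem_coe.2 (mem_filter.2 ⟨?_, ?_⟩)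
        · have := BAD1b_low A B Cc (g + v y) n (mem_Gs.1 (hG y hy1 g hg)).2.1 (by omega)
          simp only [hv] at this
          rwa [BAD1b_odp] at this
        · simp only [hv] at hy2
          rwa [BAD1b_odp] at hy2
      · intro y _ y' _ h
        exact mul_left_cancel₀ (fr_ne_zero hB) (add_left_cancel h)
    refine h1.trans (hT.trans (le_of_eq ?_))
    rw [hNJ, pow_add (Nat.card k : ℝ) J]
    field_simp
  have hsum : ∑ g ∈ Gs (1 : k[X]) 0 n, ∑ y ∈ low k J, f (g + v y) ≤
      (Nat.card k : ℝ) ^ n * (δ * (Nat.card k : ℝ) ^ J) := by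
    refine (sum_le_card_nsmul _ _ _ hin).trans ?_
    rw [nsmul_eq_mul]
    refine mul_le_mul_of_nonneg_right ?_ (by positivity)
    exact_mod_cast card_Gs_le (1 : k[X]) 0 n
  rw [← havg, card_low] at hsum
  simp only [hf] at hsum
  rw [sum_boole] at hsum
  push_cast at hsum
  have hp : (0 : ℝ) < (Nat.card k : ℝ) ^ J := by positivity
  refine le_of_mul_le_mul_left ?_ hp
  refine hsum.trans (le_of_eq ?_)
  ring

end Pool.Agent.P.MP_8be758_nt.C2
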