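import Pool.Agent.P.MP_8be758_nt.C2.If

/-! Step INF. -/

namespace Pool.Agent.P.MP_8be758_nt.C2

open Polynomial Finset Filter
open scoped Classical Topology

theorem p_INF :
    S_INF := by
  intro k _ _ W Cn U Eh E hU hW h1 h2 h3
  have t2 : (2 : k[X]) = 0 := CharTwo.two_eq_zero
  have m : ∀ F : k[X], F.natDegree < U.natDegree → U + F ≠ 0 ∧ (U + F).natDegree = U.natDegree :=
    fun F h => ⟨(hU.add_of_left (degree_lt_degree h)).ne_zero, natDegree_add_eq_left_of_natDegree_lt h⟩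
  obtain ⟨a1, b1⟩ := m E h1
  obtain ⟨a2, b2⟩ := m Eh h2
  obtain ⟨a3, b3⟩ := m (E + Eh) ((natDegree_add_le _ _).trans_lt (max_lt h1 h2))
  rw [← add_assoc] at a3 b3
  have a4 := mul_ne_zero hU.ne_zero a2
  have a5 := pow_ne_zero 2 a4
  have a6 := mul_ne_zero a1 a3
  have z : res (W * (U * (U + Eh)) ^ 2 * ((U + E) * (U + E + Eh)))
      (Cn * Eh * (E ^ 2 + E * Eh) ^ 2) = 0 := res_eq_zero (by
    rw [natDegree_mul (mul_ne_zero hW a5) a6, natDegree_mul hW a5, natDegree_mul a1 a3,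
      natDegree_pow, natDegree_mul hU.ne_zero a2, b1, b2, b3]
    have := natDegree_mul_le (p := Cn * Eh) (q := (E ^ 2 + E * Eh) ^ 2)
    have := natDegree_mul_le (p := Cn) (q := Eh)
    have := natDegree_pow (E ^ 2 + E * Eh) 2
    omega)
  rw [← res_mul_mul _ Cn (mul_ne_zero a5 a3), ← res_mul_mul (_ * W) Cn (mul_ne_zero a5 a1),
    ← res_mul_mul _ (Cn * Eh) (mul_ne_zero a4 a6), ← res_mul_mul (W * _ ^ 2) _ a6]
  generalize hM : W * (U * (U + Eh)) ^ 2 * ((U + E) * (U + E + Eh)) = M at z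
  rw [show (U + E) * W * _ = M by rw [← hM]; ring, show (U + E + Eh) * W * _ = M by rw [← hM]; ring,
    show W * _ * _ = M by rw [← hM]; ring, ← res_add, ← res_add, ← add_zero (res M (_ + _)), ← z,
    ← res_add]
  congr 1
  have e : (U + E) * (U + E + Eh) = U * (U + Eh) + (E ^ 2 + E * Eh) := by
    linear_combination (U * E) * t2
  rw [e]
  linear_combination (Cn * (U * (U + Eh)) ^ 2 * (U + E) -
    Cn * Eh * (U * (U + Eh)) * (E ^ 2 + E * Eh)) * t2

end Pool.Agent.P.MP_8be758_nt.C2
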