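import Pool.Agent.P.MP_8be758_nt.C2.If

/-! Step TB3. -/

namespace Pool.Agent.P.MP_8be758_nt.C2

open Polynomial Finset Filter
open scoped Classical Topology

theorem TB3_split {k : Type} [Field k] (Y : ℕ) {V : k[X]} (hV : V ≠ 0) :
    ∃ V1 V2 : k[X], V1 * V2 = V ∧ V1.natDegree ≤ smd Y V ∧ V2.Monic ∧
      ∀ P : k[X], Irreducible P → P ∣ V2 → Y < P.natDegree := by
  obtain ⟨u, hu⟩ := UniqueFactorizationMonoid.prod_normalizedFactors hV
  set F := UniqueFactorizationMonoid.normalizedFactors V with hF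
  have hm : ∀ P ∈ F.filter (fun P => ¬ P.natDegree ≤ Y), Irreducible P ∧ P.Monic ∧
      Y < P.natDegree := fun P hP => by
    obtain ⟨h1, h2⟩ := Multiset.mem_filter.1 hP
    obtain ⟨h3, h4, -⟩ := (Polynomial.mem_normalizedFactors_iff hV).1 h1
    exact ⟨h3, h4, not_le.1 h2⟩
  refine ⟨(F.filter (fun P => P.natDegree ≤ Y)).prod * u,
    (F.filter (fun P => ¬ P.natDegree ≤ Y)).prod, ?_, ?_, ?_, fun P hP h => ?_⟩
  · rw [mul_right_comm, ← Multiset.prod_add, Multiset.filter_add_not, hu]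
  · refine natDegree_mul_le.trans ?_
    rw [natDegree_eq_zero_of_isUnit u.isUnit]
    exact natDegree_multiset_prod_le _
  · simpa using monic_multiset_prod_of_monic _ id fun P hP => (hm P hP).2.1
  · obtain ⟨a, h1, h2⟩ := hP.prime.exists_mem_multiset_dvd h
    obtain ⟨h3, -, h4⟩ := hm a h1
    exact h4.trans_le (natDegree_le_of_dvd (hP.dvd_symm h3 h2) hP.ne_zero)

theorem p_TB3 (hROUGH : S_ROUGH) :
    S_TB3 := by
  intro k _ _ D δ hδ
  obtain ⟨Y, hY⟩ := exists_nat_ge ((Nat.card k : ℝ) ^ D / δ)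
  obtain ⟨N0, h0⟩ := hROUGH k Y
  refine ⟨Y, 2 * (N0 + D) + 1, fun N hN => ?_⟩
  set R : ℕ → Finset k[X] := fun n => (low k (n + 1)).filter (fun V => V.Monic ∧ V.natDegree = n ∧
      ∀ P : k[X], Irreducible P → P ∣ V → Y < P.natDegree)
  have h1 : (low k N).filter (fun V => N ≤ 2 * V.natDegree ∧ smd Y V < D) ⊆
      image₂ (· * ·) (low k D) ((Ico N0 N).biUnion R) := fun V hV => by
    obtain ⟨a1, a2, a3⟩ := mem_filter.1 hV
    have hV0 : V ≠ 0 := by
      rintro rfl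
      rw [natDegree_zero] at a2
      omega
    obtain ⟨V1, V2, rfl, b1, b2, b3⟩ := TB3_split Y hV0
    have a4 := natDegree_lt_of_mem_low a1 hV0
    rw [natDegree_mul (left_ne_zero_of_mul hV0) b2.ne_zero] at a2 a4
    exact mem_image₂_of_mem (mem_low_of_natDegree_lt (by omega)) (mem_biUnion.2
      ⟨V2.natDegree, mem_Ico.2 (by omega), mem_filter.2
        ⟨mem_low_of_natDegree_lt (Nat.lt_succ_self _), b2, rfl, b3⟩⟩)
  have h2 : (Y + 1) * ((Ico N0 N).biUnion R).card ≤ Nat.card k ^ N :=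
    calc _ ≤ (Y + 1) * ∑ n ∈ Ico N0 N, (R n).card := Nat.mul_le_mul_left _ card_biUnion_le
      _ ≤ ∑ n ∈ Ico N0 N, Nat.card k ^ n := by
        rw [mul_sum]
        exact sum_le_sum fun n hn => h0 n (mem_Ico.1 hn).1
      _ ≤ ∑ n ∈ range N, Nat.card k ^ n := sum_le_sum_of_subset fun n hn =>
        mem_range.2 (mem_Ico.1 hn).2
      _ ≤ _ := (Nat.geomSum_lt two_le_card fun n hn => mem_range.1 hn).le
  have h3 := (card_le_card h1).trans (card_image₂_le _ _ _)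
  rw [card_low] at h3
  rw [div_le_iff₀ hδ] at hY
  have h4 : (0 : ℝ) ≤ ((Ico N0 N).biUnion R).card := Nat.cast_nonneg _
  have h5 : ((Y : ℝ) + 1) * ((Ico N0 N).biUnion R).card ≤ (Nat.card k : ℝ) ^ N := by
    exact_mod_cast h2
  calc _ ≤ (Nat.card k : ℝ) ^ D * ((Ico N0 N).biUnion R).card := by exact_mod_cast h3
    _ ≤ δ * ((Y + 1) * ((Ico N0 N).biUnion R).card) := by nlinarith
    _ ≤ _ := mul_le_mul_of_nonneg_left h5 hδ.le

end Pool.Agent.P.MP_8be758_nt.C2
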